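import Pool.Agent.Work.MP_bd3ec3_nt.LB.StmtsU

/-!
# MP_bd3ec3_nt, block LB, item FB2: few pairs with the same value of the form

The map `(t, v) ↦ (m, 12 v³)` is injective: `v` is determined, and `m(t, v) = m(t', v)` gives
`(t - t') (4 (t + t') - 12 v² - 1) = 0`, where the second factor is odd.
-/

set_option autoImplicit false

namespace Pool.Agent.Work.MP_bd3ec3_nt.LB

namespace IFB2

/-- The value modulo six. -/
theorem mod6 (t v : ℤ) (ht : t % 42 = 17) (hv : v % 42 = 6) :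
    ∃ k : ℤ, mm t v = 5 + 6 * k := by
  obtain ⟨a, ha⟩ : ∃ a, t = 5 + 6 * a := ⟨7 * (t / 42) + 2, by omega⟩
  obtain ⟨b, hb⟩ : ∃ b, v = 6 * b := ⟨7 * (v / 42) + 1, by omega⟩
  refine ⟨15 + 39 * a + 24 * a ^ 2 - 378 * b ^ 2 - 432 * a * b ^ 2 + 7776 * b ^ 4, ?_⟩
  unfold mm
  rw [ha, hb]
  ring

theorem cop (t v : ℤ) (ht : t % 42 = 17) (hv : v % 42 = 6) (h : IsCoprime (mm t v) v) :
    IsCoprime (mm t v) (12 * v ^ 3) := by
  apply IsCoprime.mul_right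
  · obtain ⟨k, hk⟩ := mod6 t v ht hv
    rw [hk]
    have h2 : (12 : ℤ) = 2 * 6 := by norm_num
    rw [h2]
    apply IsCoprime.mul_right
    · exact ⟨1, -(2 + 3 * k), by ring⟩
    · exact ⟨-1, k + 1, by ring⟩
  · exact h.pow_right

theorem cube_inj {a b : ℤ} (h : a ^ 3 = b ^ 3) : a = b :=
  (Odd.strictMono_pow (by decide : Odd 3)).injective h

theorem mm_inj {t t' v : ℤ} (h : mm t v = mm t' v) : t = t' := by
  have h1 : (t - t') * (4 * (t + t') - 12 * v ^ 2 - 1) = 0 := by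
    unfold mm at h
    linear_combination h
  rcases mul_eq_zero.1 h1 with h2 | h2
  · linarith
  · exfalso
    generalize v ^ 2 = w at h2
    omega

theorem fin (N : ℕ) : {q : ℤ × ℤ | IsCoprime q.1 q.2 ∧ q.1 ^ 2 + 3 * q.2 ^ 2 = N}.Finite := by
  refine Set.Finite.subset ((Set.finite_Icc (-(N : ℤ)) N).prod (Set.finite_Icc (-(N : ℤ)) N)) ?_
  rintro ⟨a, b⟩ ⟨-, h⟩
  have h1 : a ≤ a ^ 2 := Int.le_self_sq a
  have h2 : -a ≤ (-a) ^ 2 := Int.le_self_sq (-a)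
  have h3 : b ≤ b ^ 2 := Int.le_self_sq b
  have h4 : -b ≤ (-b) ^ 2 := Int.le_self_sq (-b)
  have h5 : 0 ≤ a ^ 2 := sq_nonneg a
  have h6 : 0 ≤ b ^ 2 := sq_nonneg b
  simp only at h
  rw [neg_sq] at h2 h4
  exact ⟨⟨by linarith, by linarith⟩, ⟨by linarith, by linarith⟩⟩

end IFB2

theorem pr_FB2 (hRP : S_RP) (hRT : S_RT) (hDV : S_DV) : S_FB2 := by
  intro ε hε
  obtain ⟨C, hC, hD⟩ := hDV ε hε
  refine ⟨2 * C, by positivity, ?_⟩
  intro N hN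
  have hN0 : (0 : ℝ) ≤ (N : ℝ) ^ ε := Real.rpow_nonneg (Nat.cast_nonneg N) ε
  by_cases hne : {q : ℤ × ℤ | q.1 % 42 = 17 ∧ q.2 % 42 = 6 ∧ IsCoprime (mm q.1 q.2) q.2 ∧
      GG q.1 q.2 = (N : ℤ)}.Nonempty
  · obtain ⟨⟨t, v⟩, ht, hv, -, hF⟩ := hne
    have hcop : N.Coprime 6 := by
      obtain ⟨k, hk⟩ := IFB2.mod6 t v ht hv
      have h1 : (N : ℤ) = 1 + 6 * (4 + 10 * k + 6 * k ^ 2 + 72 * v ^ 6) := by
        rw [← hF]
        unfold GG
        simp only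
        rw [hk]
        ring
      have h2 : N % 6 = 1 := by omega
      have h3 : Nat.gcd N 6 = 1 := by
        rw [Nat.gcd_comm, Nat.gcd_rec, h2]
        simp
      exact h3
    have h1 : Set.ncard {q : ℤ × ℤ | q.1 % 42 = 17 ∧ q.2 % 42 = 6 ∧ IsCoprime (mm q.1 q.2) q.2 ∧
          GG q.1 q.2 = (N : ℤ)} ≤
        Set.ncard {q : ℤ × ℤ | IsCoprime q.1 q.2 ∧ q.1 ^ 2 + 3 * q.2 ^ 2 = N} := by
      refine Set.ncard_le_ncard_of_injOn (fun q : ℤ × ℤ => (mm q.1 q.2, 12 * q.2 ^ 3)) ?_ ?_ (IFB2.fin N)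
      · rintro ⟨a, b⟩ ⟨h1, h2, h3, h4⟩
        refine ⟨IFB2.cop a b h1 h2 h3, ?_⟩
        rw [← h4]
        unfold GG
        simp only
        ring
      · rintro ⟨a, b⟩ - ⟨a', b'⟩ - h
        simp only [Prod.mk.injEq] at h
        have hb : b = b' := IFB2.cube_inj (by linarith [h.2])
        subst hb
        have ha : a = a' := IFB2.mm_inj h.1
        subst ha
        rfl
    have h2 := (h1.trans (hRP N hN)).trans (Nat.mul_le_mul_left 2 (hRT N hN hcop))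
    have h3 : (Set.ncard {q : ℤ × ℤ | q.1 % 42 = 17 ∧ q.2 % 42 = 6 ∧ IsCoprime (mm q.1 q.2) q.2 ∧
        GG q.1 q.2 = (N : ℤ)} : ℝ) ≤ 2 * (N.divisors.card : ℝ) := by exact_mod_cast h2
    have h4 := hD N hN
    linarith
  · rw [Set.not_nonempty_iff_eq_empty.1 hne, Set.ncard_empty, Nat.cast_zero]
    positivity

end Pool.Agent.Work.MP_bd3ec3_nt.LB
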