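import Pool.Agent.Work.MP_bd3ec3_nt.LB.StmtsU

/-!
# MP_bd3ec3_nt, block LB, item GC2: coprimality
-/

set_option autoImplicit false

namespace Pool.Agent.Work.MP_bd3ec3_nt.LB

namespace IGC2

/-- one residue class -/
theorem card_class (d Y c e : ℕ) (hd : Nat.Coprime d e) :
    ((Finset.range Y).filter (fun i => d ∣ c + e * i)).card ≤ Y / d + 1 := by
  have h1 : ((Finset.range Y).filter (fun i => d ∣ c + e * i)).card ≤ (Finset.range (Y / d + 1)).card := by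
    refine Finset.card_le_card_of_injOn (fun i => i / d) ?_ ?_
    · intro i hi
      rw [Finset.mem_coe, Finset.mem_filter, Finset.mem_range] at hi
      rw [Finset.mem_coe, Finset.mem_range]
      exact Nat.lt_succ_of_le (Nat.div_le_div_right hi.1.le)
    · intro i hi j hj hij
      rw [Finset.mem_coe, Finset.mem_filter] at hi hj
      have h2 : c + e * i ≡ c + e * j [MOD d] :=
        (Nat.modEq_zero_iff_dvd.2 hi.2).trans (Nat.modEq_zero_iff_dvd.2 hj.2).symm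
      have h3 : e * i ≡ e * j [MOD d] := Nat.ModEq.add_left_cancel' c h2
      have h4 : i ≡ j [MOD d] := Nat.ModEq.cancel_left_of_coprime hd h3
      have h5 : i % d = j % d := h4
      have h6 : i / d = j / d := hij
      rw [← Nat.div_add_mod i d, ← Nat.div_add_mod j d, h5, h6]
  rwa [Finset.card_range] at h1

/-- the pairs with a given common divisor `2 k + 1` -/
def part (Y k : ℕ) : Finset (ℕ × ℕ) :=
  if Nat.Coprime (2 * k + 1) 42 then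
    (((Finset.range (Y ^ 2)).filter (fun i => (2 * k + 1) ∣ 17 + 42 * i)) ∪
      ((Finset.range (Y ^ 2)).filter (fun i => (2 * k + 1) ∣ 67 + 168 * i))) ×ˢ
        ((Finset.range Y).filter (fun j => (2 * k + 1) ∣ 6 + 42 * j))
  else ∅

theorem card_part (Y k : ℕ) :
    (part Y k).card ≤ 2 * (Y ^ 2 / (2 * k + 1) + 1) * (Y / (2 * k + 1) + 1) := by
  unfold part
  split_ifs with h
  · have h2 : Nat.Coprime (2 * k + 1) 168 := by
      have e : (168 : ℕ) = 2 ^ 2 * 42 := by norm_num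
      rw [e]
      refine Nat.Coprime.mul_right ?_ h
      refine Nat.Coprime.pow_right 2 ?_
      rw [Nat.coprime_two_right]
      exact ⟨k, rfl⟩
    rw [Finset.card_product]
    refine Nat.mul_le_mul ?_ (card_class _ _ _ _ h)
    refine (Finset.card_union_le _ _).trans ?_
    have h3 := card_class (2 * k + 1) (Y ^ 2) 17 42 h
    have h4 := card_class (2 * k + 1) (Y ^ 2) 67 168 h2
    omega
  · rw [Finset.card_empty]
    exact Nat.zero_le _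

/-- the sum -/
theorem sum_bound (Y : ℕ) (n : ℕ) :
    ∑ k ∈ Finset.Ico 2 (2 + n),
      (2 * (((Y ^ 2 / (2 * k + 1) : ℕ) : ℝ) + 1) * (((Y / (2 * k + 1) : ℕ) : ℝ) + 1)) ≤
      2 * ((Y : ℝ) ^ 3 * (1 / 8 - 1 / (4 * ((n : ℝ) + 2))) +
        ((Y : ℝ) ^ 2 + Y) * (Real.sqrt ((n : ℝ) + 2) - Real.sqrt 2) + n) := by
  induction n with
  | zero =>
    simp
    norm_num
  | succ n ih =>
    rw [← add_assoc, Finset.sum_Ico_succ_top (by omega)]
    have hY : (0 : ℝ) ≤ (Y : ℝ) := Nat.cast_nonneg _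
    have hn : (0 : ℝ) ≤ (n : ℝ) := Nat.cast_nonneg _
    have hd : (0 : ℝ) < 2 * (n : ℝ) + 5 := by linarith
    have ed : ((2 * (2 + n) + 1 : ℕ) : ℝ) = 2 * (n : ℝ) + 5 := by push_cast; ring
    have h1 : ((Y / (2 * (2 + n) + 1) : ℕ) : ℝ) ≤ (Y : ℝ) / (2 * (n : ℝ) + 5) := by
      have := Nat.cast_div_le (α := ℝ) (m := Y) (n := 2 * (2 + n) + 1)
      rw [ed] at this
      exact this
    have h2 : ((Y ^ 2 / (2 * (2 + n) + 1) : ℕ) : ℝ) ≤ (Y : ℝ) ^ 2 / (2 * (n : ℝ) + 5) := by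
      have := Nat.cast_div_le (α := ℝ) (m := Y ^ 2) (n := 2 * (2 + n) + 1)
      rw [ed, Nat.cast_pow] at this
      exact this
    have p1 : (0 : ℝ) ≤ ((Y / (2 * (2 + n) + 1) : ℕ) : ℝ) := Nat.cast_nonneg _
    have p2 : (0 : ℝ) ≤ ((Y ^ 2 / (2 * (2 + n) + 1) : ℕ) : ℝ) := Nat.cast_nonneg _
    have h3 : 2 * (((Y ^ 2 / (2 * (2 + n) + 1) : ℕ) : ℝ) + 1) *
        (((Y / (2 * (2 + n) + 1) : ℕ) : ℝ) + 1) ≤
        2 * ((Y : ℝ) ^ 2 / (2 * (n : ℝ) + 5) + 1) * ((Y : ℝ) / (2 * (n : ℝ) + 5) + 1) := by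
      gcongr
    have h4 : 2 * ((Y : ℝ) ^ 2 / (2 * (n : ℝ) + 5) + 1) * ((Y : ℝ) / (2 * (n : ℝ) + 5) + 1) =
        2 * ((Y : ℝ) ^ 3 * (1 / (2 * (n : ℝ) + 5)) ^ 2 +
          ((Y : ℝ) ^ 2 + Y) * (1 / (2 * (n : ℝ) + 5)) + 1) := by
      field_simp
      ring
    have h5 : (Y : ℝ) ^ 3 * (1 / (2 * (n : ℝ) + 5)) ^ 2 ≤
        (Y : ℝ) ^ 3 * (1 / (4 * ((n : ℝ) + 2)) - 1 / (4 * ((n : ℝ) + 3))) := by
      apply mul_le_mul_of_nonneg_left _ (by positivity)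
      have e1 : 1 / (4 * ((n : ℝ) + 2)) - 1 / (4 * ((n : ℝ) + 3)) =
          1 / (4 * ((n : ℝ) + 2) * ((n : ℝ) + 3)) := by
        field_simp
        ring
      rw [e1, div_pow, one_pow]
      apply one_div_le_one_div_of_le (by positivity)
      nlinarith
    have hs : 1 / (2 * (n : ℝ) + 5) ≤ Real.sqrt ((n : ℝ) + 3) - Real.sqrt ((n : ℝ) + 2) := by
      have e1 : Real.sqrt ((n : ℝ) + 3) ^ 2 = (n : ℝ) + 3 := Real.sq_sqrt (by linarith)
      have e2 : Real.sqrt ((n : ℝ) + 2) ^ 2 = (n : ℝ) + 2 := Real.sq_sqrt (by linarith)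
      have q1 : Real.sqrt ((n : ℝ) + 2) ≤ Real.sqrt ((n : ℝ) + 3) := Real.sqrt_le_sqrt (by linarith)
      have q0 : 0 ≤ Real.sqrt ((n : ℝ) + 2) := Real.sqrt_nonneg _
      obtain ⟨a, ha⟩ : ∃ a, a = Real.sqrt ((n : ℝ) + 3) := ⟨_, rfl⟩
      obtain ⟨b, hb⟩ : ∃ b, b = Real.sqrt ((n : ℝ) + 2) := ⟨_, rfl⟩
      rw [← ha] at e1 q1 ⊢
      rw [← hb] at e2 q1 q0 ⊢
      rw [div_le_iff₀ hd]
      have e3 : (a - b) * (a + b) = 1 := by linear_combination e1 - e2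
      have hab : 0 ≤ a - b := by linarith
      have h7 : a + b ≤ 2 * (n : ℝ) + 5 := by nlinarith [sq_nonneg (a - 1)]
      nlinarith [mul_le_mul_of_nonneg_left h7 hab]
    have h6 : ((Y : ℝ) ^ 2 + Y) * (1 / (2 * (n : ℝ) + 5)) ≤
        ((Y : ℝ) ^ 2 + Y) * (Real.sqrt ((n : ℝ) + 3) - Real.sqrt ((n : ℝ) + 2)) :=
      mul_le_mul_of_nonneg_left hs (by positivity)
    have e5 : ((n + 1 : ℕ) : ℝ) + 2 = (n : ℝ) + 3 := by push_cast; ring
    rw [e5]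
    push_cast at ih h3 ⊢
    linarith

/-- a common prime -/
theorem prime_of (i j : ℕ) (h : ¬ IsCoprime (mm (17 + 42 * (i : ℤ)) (6 + 42 * (j : ℤ)))
    (6 + 42 * (j : ℤ))) : ∃ p : ℕ, p.Prime ∧ p ∣ 6 + 42 * j ∧ (p ∣ 17 + 42 * i ∨ p ∣ 67 + 168 * i) := by
  rw [Int.isCoprime_iff_gcd_eq_one] at h
  obtain ⟨p, hp, hpd⟩ := Nat.exists_prime_and_dvd h
  have h1 : (p : ℤ) ∣ mm (17 + 42 * (i : ℤ)) (6 + 42 * (j : ℤ)) :=
    (Int.natCast_dvd_natCast.2 hpd).trans (Int.gcd_dvd_left _ _)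
  have h2 : (p : ℤ) ∣ 6 + 42 * (j : ℤ) :=
    (Int.natCast_dvd_natCast.2 hpd).trans (Int.gcd_dvd_right _ _)
  refine ⟨p, hp, by exact_mod_cast h2, ?_⟩
  have h3 : (p : ℤ) ∣ (17 + 42 * (i : ℤ)) * (4 * (17 + 42 * (i : ℤ)) - 1) := by
    have e : (17 + 42 * (i : ℤ)) * (4 * (17 + 42 * (i : ℤ)) - 1) =
        mm (17 + 42 * (i : ℤ)) (6 + 42 * (j : ℤ)) - (6 + 42 * (j : ℤ)) *
          (-12 * (17 + 42 * (i : ℤ)) * (6 + 42 * (j : ℤ)) + 36 * (6 + 42 * (j : ℤ)) ^ 3 -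
            3 * (6 + 42 * (j : ℤ))) := by
      unfold mm
      ring
    rw [e]
    exact dvd_sub h1 (h2.mul_right _)
  rcases (Nat.prime_iff_prime_int.1 hp).dvd_or_dvd h3 with h4 | h4
  · left
    exact_mod_cast h4
  · right
    have e : 4 * (17 + 42 * (i : ℤ)) - 1 = ((67 + 168 * i : ℕ) : ℤ) := by
      push_cast
      ring
    rw [e] at h4
    exact_mod_cast h4

end IGC2

open IGC2 in
theorem pr_GC2 : S_GC2 := by
  refine ⟨10 ^ 6, fun Y hY => ?_⟩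
  have hYpos : 1 ≤ Y := le_trans (by norm_num) hY
  have hsub : Pairs2 Y (fun t v => ¬ IsCoprime (mm t v) v) ⊆
      ((Finset.Ico 2 (2 + 21 * Y)).biUnion (fun k => part Y k) : Finset (ℕ × ℕ)) := by
    rintro ⟨i, j⟩ ⟨hi, hj, hnc⟩
    simp only at hi hj hnc
    obtain ⟨p, hp, h1, h2⟩ := prime_of i j hnc
    have hne2 : p ≠ 2 := by
      rintro rfl
      rcases h2 with h2 | h2 <;> omega
    have hne3 : p ≠ 3 := by
      rintro rfl
      rcases h2 with h2 | h2 <;> omega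
    have hne7 : p ≠ 7 := by
      rintro rfl
      omega
    have hodd : p % 2 = 1 := by
      rcases hp.eq_two_or_odd with h | h
      · exact absurd h hne2
      · exact h
    have hle : p ≤ 6 + 42 * j := Nat.le_of_dvd (by omega) h1
    have hp2 := hp.two_le
    have hcop : Nat.Coprime p 42 := by
      rw [hp.coprime_iff_not_dvd]
      intro hd
      have e : (42 : ℕ) = 2 * 3 * 7 := by norm_num
      rw [e] at hd
      rcases (hp.dvd_mul).1 hd with hd | hd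
      · rcases (hp.dvd_mul).1 hd with hd | hd
        · exact hne2 ((Nat.prime_dvd_prime_iff_eq hp Nat.prime_two).1 hd)
        · exact hne3 ((Nat.prime_dvd_prime_iff_eq hp Nat.prime_three).1 hd)
      · exact hne7 ((Nat.prime_dvd_prime_iff_eq hp (by norm_num)).1 hd)
    have hpk : 2 * (p / 2) + 1 = p := by omega
    rw [Finset.mem_coe, Finset.mem_biUnion]
    refine ⟨p / 2, ?_, ?_⟩
    · rw [Finset.mem_Ico]
      omega
    · unfold part
      rw [hpk, if_pos hcop, Finset.mem_product, Finset.mem_union, Finset.mem_filter,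
        Finset.mem_filter, Finset.mem_filter, Finset.mem_range, Finset.mem_range]
      refine ⟨?_, hj, h1⟩
      rcases h2 with h2 | h2
      · exact Or.inl ⟨hi, h2⟩
      · exact Or.inr ⟨hi, h2⟩
  have hcard : (Pairs2 Y (fun t v => ¬ IsCoprime (mm t v) v)).ncard ≤
      ∑ k ∈ Finset.Ico 2 (2 + 21 * Y),
        2 * (Y ^ 2 / (2 * k + 1) + 1) * (Y / (2 * k + 1) + 1) := by
    have h1 := Set.ncard_le_ncard hsub (Finset.finite_toSet _)
    rw [Set.ncard_coe_finset] at h1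
    exact h1.trans (Finset.card_biUnion_le.trans (Finset.sum_le_sum (fun k _ => card_part Y k)))
  have hreal : ((Pairs2 Y (fun t v => ¬ IsCoprime (mm t v) v)).ncard : ℝ) ≤
      2 * ((Y : ℝ) ^ 3 * (1 / 8 - 1 / (4 * (((21 * Y : ℕ) : ℝ) + 2))) +
        ((Y : ℝ) ^ 2 + Y) * (Real.sqrt (((21 * Y : ℕ) : ℝ) + 2) - Real.sqrt 2) +
          ((21 * Y : ℕ) : ℝ)) := by
    refine le_trans ?_ (sum_bound Y (21 * Y))
    have h1 : ((Pairs2 Y (fun t v => ¬ IsCoprime (mm t v) v)).ncard : ℝ) ≤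
      ((∑ k ∈ Finset.Ico 2 (2 + 21 * Y),
        2 * (Y ^ 2 / (2 * k + 1) + 1) * (Y / (2 * k + 1) + 1) : ℕ) : ℝ) := by exact_mod_cast hcard
    push_cast at h1
    exact h1
  have hYr : (10 : ℝ) ^ 6 ≤ (Y : ℝ) := by exact_mod_cast hY
  have hY0 : (0 : ℝ) ≤ (Y : ℝ) := Nat.cast_nonneg _
  push_cast at hreal
  have hsq : Real.sqrt (21 * (Y : ℝ) + 2) ≤ (Y : ℝ) / 100 := by
    rw [Real.sqrt_le_left (by positivity)]
    nlinarith
  have hs2 : 0 ≤ Real.sqrt 2 := Real.sqrt_nonneg _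
  have hmul : ((Y : ℝ) ^ 2 + Y) * (Real.sqrt (21 * (Y : ℝ) + 2) - Real.sqrt 2) ≤
      ((Y : ℝ) ^ 2 + Y) * ((Y : ℝ) / 100) :=
    mul_le_mul_of_nonneg_left (by linarith) (by positivity)
  have hpos : (0 : ℝ) ≤ (Y : ℝ) ^ 3 * (1 / (4 * (21 * (Y : ℝ) + 2))) := by positivity
  have hY2 : (Y : ℝ) ^ 2 * (10 : ℝ) ^ 6 ≤ (Y : ℝ) ^ 3 := by nlinarith [sq_nonneg (Y : ℝ)]
  have hY1 : (Y : ℝ) * (10 : ℝ) ^ 6 ≤ (Y : ℝ) ^ 2 := by nlinarith
  have hfin : (3 : ℝ) * ((Pairs2 Y (fun t v => ¬ IsCoprime (mm t v) v)).ncard : ℝ) ≤ (Y : ℝ) ^ 3 := by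
    nlinarith
  exact_mod_cast hfin

end Pool.Agent.Work.MP_bd3ec3_nt.LB
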