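import Pool.Agent.Work.MP_bd3ec3_nt.LB.StmtsU

set_option autoImplicit false

namespace Pool.Agent.Work.MP_bd3ec3_nt.LB

namespace IGS2

/-- A prime power dividing a product. -/
theorem pow_or {p : ℕ} (hp : p.Prime) {A B : ℤ} (a b : ℕ) (h : (p : ℤ) ^ (a + b + 1) ∣ A * B) :
    (p : ℤ) ^ (a + 1) ∣ A ∨ (p : ℤ) ^ (b + 1) ∣ B := by
  have hpz : Prime (p : ℤ) := Nat.prime_iff_prime_int.mp hp
  rw [pow_dvd_iff_le_emultiplicity, emultiplicity_mul hpz] at h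
  rw [pow_dvd_iff_le_emultiplicity, pow_dvd_iff_le_emultiplicity]
  by_contra hc
  rw [not_or, not_le, not_le] at hc
  obtain ⟨h1, h2⟩ := hc
  generalize emultiplicity (p : ℤ) A = x at h h1
  generalize emultiplicity (p : ℤ) B = y at h h2
  have hx : x ≠ ⊤ := ne_top_of_lt h1
  have hy : y ≠ ⊤ := ne_top_of_lt h2
  lift x to ℕ using hx
  lift y to ℕ using hy
  have h1' : x < a + 1 := by exact_mod_cast h1
  have h2' : y < b + 1 := by exact_mod_cast h2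
  have h' : a + b + 1 ≤ x + y := by exact_mod_cast h
  omega

/-- The integer `168` is invertible modulo `p²` for a prime `p ≥ 13`. -/
theorem unit168 {p : ℕ} (hp : p.Prime) (h13 : 13 ≤ p) : IsUnit ((168 : ℤ) : ZMod (p ^ 2)) := by
  rw [ZMod.coe_int_isUnit_iff_isCoprime]
  push_cast
  apply IsCoprime.pow_left
  rw [show (168 : ℤ) = ((168 : ℕ) : ℤ) from rfl, Nat.isCoprime_iff_coprime]
  rw [Nat.Prime.coprime_iff_not_dvd hp]
  intro h
  have h43 : (168 : ℕ) = 4 * 6 * 7 := by norm_num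
  rw [h43] at h
  rcases (Nat.Prime.dvd_mul hp).mp h with h | h
  · rcases (Nat.Prime.dvd_mul hp).mp h with h | h
    · have := Nat.le_of_dvd (by norm_num) h
      omega
    · have := Nat.le_of_dvd (by norm_num) h
      omega
  · have := Nat.le_of_dvd (by norm_num) h
    omega

/-- The second residue class in the class of `m(17 + 42 i')`. -/
noncomputable def sec (p : ℕ) (v : ℤ) (i' : ℕ) : ZMod (p ^ 2) :=
  ((12 * v ^ 2 + 1 - 136 - 168 * (i' : ℤ) : ℤ) : ZMod (p ^ 2)) * ((168 : ℤ) : ZMod (p ^ 2))⁻¹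

/-- Within a class of `m` modulo `p³` there are two residues modulo `p²`. -/
theorem cls {p : ℕ} (hp : p.Prime) (h13 : 13 ≤ p) (v : ℤ) (i i' : ℕ)
    (h : (p : ℤ) ^ 3 ∣ mm (17 + 42 * (i : ℤ)) v - mm (17 + 42 * (i' : ℤ)) v) :
    ((i : ℕ) : ZMod (p ^ 2)) = ((i' : ℕ) : ZMod (p ^ 2)) ∨
      ((i : ℕ) : ZMod (p ^ 2)) = sec p v i' := by
  have hu := unit168 hp h13
  have hinv : ((168 : ℤ) : ZMod (p ^ 2)) * ((168 : ℤ) : ZMod (p ^ 2))⁻¹ = 1 :=
    ZMod.mul_inv_of_unit _ hu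
  have h1 : mm (17 + 42 * (i : ℤ)) v - mm (17 + 42 * (i' : ℤ)) v =
      (42 * ((i : ℤ) - i')) * (4 * (17 + 42 * (i : ℤ) + (17 + 42 * (i' : ℤ))) - 12 * v ^ 2 - 1) := by
    unfold mm
    ring
  rw [h1] at h
  rcases pow_or hp 1 1 h with h2 | h2
  · left
    have h3 : (((42 * ((i : ℤ) - i') : ℤ)) : ZMod (p ^ 2)) = 0 := by
      rw [ZMod.intCast_zmod_eq_zero_iff_dvd]
      push_cast
      exact h2
    have h4 : ((168 : ℤ) : ZMod (p ^ 2)) * ((i : ℕ) : ZMod (p ^ 2)) =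
        ((168 : ℤ) : ZMod (p ^ 2)) * ((i' : ℕ) : ZMod (p ^ 2)) := by
      push_cast at h3 ⊢
      linear_combination 4 * h3
    exact hu.mul_left_cancel h4
  · right
    have h3 : (((4 * (17 + 42 * (i : ℤ) + (17 + 42 * (i' : ℤ))) - 12 * v ^ 2 - 1 : ℤ)) :
        ZMod (p ^ 2)) = 0 := by
      rw [ZMod.intCast_zmod_eq_zero_iff_dvd]
      push_cast
      exact h2
    unfold sec
    have h4 : ((12 * v ^ 2 + 1 - 136 - 168 * (i' : ℤ) : ℤ) : ZMod (p ^ 2)) =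
        ((168 : ℤ) : ZMod (p ^ 2)) * ((i : ℕ) : ZMod (p ^ 2)) := by
      push_cast at h3 ⊢
      linear_combination (-1) * h3
    rw [h4, mul_comm ((168 : ℤ) : ZMod (p ^ 2)), mul_assoc, hinv, mul_one]

/-- All the solutions lie in four residue classes modulo `p²`. -/
theorem four {p : ℕ} (hp : p.Prime) (h13 : 13 ≤ p) (v : ℤ) : ∃ R : Finset (ZMod (p ^ 2)),
    R.card ≤ 4 ∧ ∀ i : ℕ, (p : ℤ) ^ 6 ∣ GG (17 + 42 * (i : ℤ)) v → ((i : ℕ) : ZMod (p ^ 2)) ∈ R := by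
  classical
  by_cases h0 : ∃ i0 : ℕ, (p : ℤ) ^ 6 ∣ GG (17 + 42 * (i0 : ℤ)) v
  · obtain ⟨i0, hi0⟩ := h0
    have key : ∀ i : ℕ, (p : ℤ) ^ 6 ∣ GG (17 + 42 * (i : ℤ)) v →
        (p : ℤ) ^ 3 ∣ mm (17 + 42 * (i : ℤ)) v - mm (17 + 42 * (i0 : ℤ)) v ∨
        (p : ℤ) ^ 3 ∣ mm (17 + 42 * (i : ℤ)) v + mm (17 + 42 * (i0 : ℤ)) v := by
      intro i hi
      have h1 : (p : ℤ) ^ 6 ∣ (mm (17 + 42 * (i : ℤ)) v - mm (17 + 42 * (i0 : ℤ)) v) *
          (mm (17 + 42 * (i : ℤ)) v + mm (17 + 42 * (i0 : ℤ)) v) := by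
        have h2 := dvd_sub hi hi0
        have h3 : GG (17 + 42 * (i : ℤ)) v - GG (17 + 42 * (i0 : ℤ)) v =
            (mm (17 + 42 * (i : ℤ)) v - mm (17 + 42 * (i0 : ℤ)) v) *
            (mm (17 + 42 * (i : ℤ)) v + mm (17 + 42 * (i0 : ℤ)) v) := by
          unfold GG
          ring
        rw [← h3]
        exact h2
      have h4 : (p : ℤ) ^ (2 + 2 + 1) ∣ (mm (17 + 42 * (i : ℤ)) v - mm (17 + 42 * (i0 : ℤ)) v) *
          (mm (17 + 42 * (i : ℤ)) v + mm (17 + 42 * (i0 : ℤ)) v) :=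
        (pow_dvd_pow _ (by norm_num)).trans h1
      exact pow_or hp 2 2 h4
    by_cases h1 : ∃ i1 : ℕ, (p : ℤ) ^ 3 ∣ mm (17 + 42 * (i1 : ℤ)) v + mm (17 + 42 * (i0 : ℤ)) v
    · obtain ⟨i1, hi1⟩ := h1
      refine ⟨{((i0 : ℕ) : ZMod (p ^ 2)), sec p v i0, ((i1 : ℕ) : ZMod (p ^ 2)), sec p v i1},
        Finset.card_le_four, ?_⟩
      intro i hi
      simp only [Finset.mem_insert, Finset.mem_singleton]
      rcases key i hi with h | h
      · rcases cls hp h13 v i i0 h with h | h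
        · exact Or.inl h
        · exact Or.inr (Or.inl h)
      · have h5 : (p : ℤ) ^ 3 ∣ mm (17 + 42 * (i : ℤ)) v - mm (17 + 42 * (i1 : ℤ)) v := by
          have h6 := dvd_sub h hi1
          have h7 : mm (17 + 42 * (i : ℤ)) v + mm (17 + 42 * (i0 : ℤ)) v -
              (mm (17 + 42 * (i1 : ℤ)) v + mm (17 + 42 * (i0 : ℤ)) v) =
              mm (17 + 42 * (i : ℤ)) v - mm (17 + 42 * (i1 : ℤ)) v := by ring
          rw [← h7]
          exact h6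
        rcases cls hp h13 v i i1 h5 with h | h
        · exact Or.inr (Or.inr (Or.inl h))
        · exact Or.inr (Or.inr (Or.inr h))
    · refine ⟨{((i0 : ℕ) : ZMod (p ^ 2)), sec p v i0}, le_trans Finset.card_le_two (by norm_num), ?_⟩
      intro i hi
      simp only [Finset.mem_insert, Finset.mem_singleton]
      rcases key i hi with h | h
      · exact cls hp h13 v i i0 h
      · exact absurd ⟨i, h⟩ h1
  · refine ⟨∅, by simp, ?_⟩
    intro i hi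
    exact absurd ⟨i, hi⟩ h0

end IGS2

/-- Item GS2: one prime, `v` fixed. -/
theorem pr_GS2 : S_GS2 := by
  intro p hp h13 v Z
  obtain ⟨R, hR, hRm⟩ := IGS2.four hp h13 v
  have hT : ((R : Set (ZMod (p ^ 2))) ×ˢ
      ((Finset.range (Z / p ^ 2 + 1) : Finset ℕ) : Set ℕ)).ncard ≤ 4 * (Z / p ^ 2 + 1) := by
    rw [Set.ncard_prod, Set.ncard_coe_finset, Set.ncard_coe_finset, Finset.card_range]
    exact Nat.mul_le_mul_right _ hR
  have hTf : ((R : Set (ZMod (p ^ 2))) ×ˢ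
      ((Finset.range (Z / p ^ 2 + 1) : Finset ℕ) : Set ℕ)).Finite :=
    (Finset.finite_toSet _).prod (Finset.finite_toSet _)
  refine le_trans (Set.ncard_le_ncard_of_injOn
    (fun i : ℕ => (((i : ℕ) : ZMod (p ^ 2)), i / p ^ 2)) ?_ ?_ hTf) hT
  · rintro i ⟨hi, hd⟩
    refine Set.mk_mem_prod (hRm i hd) ?_
    rw [Finset.mem_coe, Finset.mem_range]
    exact Nat.lt_succ_of_le (Nat.div_le_div_right hi.le)
  · rintro i ⟨hi, hd⟩ i' ⟨hi', hd'⟩ he
    simp only [Prod.mk.injEq] at he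
    obtain ⟨e1, e2⟩ := he
    have e4 : i % p ^ 2 = i' % p ^ 2 := (ZMod.natCast_eq_natCast_iff' _ _ _).mp e1
    rw [← Nat.div_add_mod i (p ^ 2), ← Nat.div_add_mod i' (p ^ 2), e2, e4]

end Pool.Agent.Work.MP_bd3ec3_nt.LB
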