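import Pool.Agent.Work.MP_bd3ec3_nt.LB.StmtsU

/-!
# MP_bd3ec3_nt, block LB, part U, item GX2: sixth powers dividing the values of the form
-/

set_option autoImplicit false

open scoped BigOperators

namespace Pool.Agent.Work.MP_bd3ec3_nt.LB

namespace IGX2

theorem ncard_biUnion (S : Finset ℕ) (A : ℕ → Set (ℕ × ℕ)) :
    (⋃ p ∈ S, A p).ncard ≤ ∑ p ∈ S, (A p).ncard := by
  classical
  induction S using Finset.induction_on with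
  | empty => simp
  | insert a S ha ih =>
    rw [Finset.set_biUnion_insert, Finset.sum_insert ha]
    exact (Set.ncard_union_le _ _).trans (Nat.add_le_add_left ih _)

theorem GG_odd (t v : ℤ) (ht : t % 42 = 17) (hv : v % 42 = 6) : Odd (GG t v) := by
  have h1 : Odd t := by
    rw [Int.odd_iff]
    omega
  have h2 : Even v := by
    rw [Int.even_iff]
    omega
  have h3 : Odd (mm t v) := by
    unfold mm
    obtain ⟨a, ha⟩ := h1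
    obtain ⟨b, hb⟩ := h2
    refine ⟨2 * t ^ 2 - 6 * t * v ^ 2 + 18 * v ^ 4 - a - 1 - 6 * b ^ 2, ?_⟩
    rw [ha, hb]
    ring
  unfold GG
  refine Odd.add_even (Odd.pow h3) ?_
  exact Even.mul_left (h2.pow_of_ne_zero (by norm_num)) _

theorem GG_pos (t v : ℤ) (hv : 0 < v) : 0 < GG t v := by
  unfold GG
  have : 0 < v ^ 6 := by positivity
  nlinarith [sq_nonneg (mm t v)]

theorem GG_le (t v Z : ℤ) (ht : 0 < t) (hv : 0 < v) (htZ : t ≤ 42 * Z) (hvZ : v ^ 2 ≤ 1764 * Z)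
    (hZ : 1 ≤ Z) : GG t v ≤ 10 ^ 17 * Z ^ 4 := by
  obtain ⟨w, hw⟩ : ∃ w, w = v ^ 2 := ⟨_, rfl⟩
  have hw0 : 0 < w := by rw [hw]; positivity
  rw [← hw] at hvZ
  have hm : mm t v = 4 * t ^ 2 - 12 * (t * w) + 36 * w ^ 2 - t - 3 * w := by
    unfold mm
    rw [hw]; ring
  have h1 : t ^ 2 ≤ (42 * Z) ^ 2 := pow_le_pow_left₀ ht.le htZ 2
  have h2 : w ^ 2 ≤ (1764 * Z) ^ 2 := pow_le_pow_left₀ hw0.le hvZ 2
  have h3 : t * w ≤ 42 * Z * (1764 * Z) := mul_le_mul htZ hvZ hw0.le (by positivity)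
  have h4 : 0 < t * w := mul_pos ht hw0
  have h5 : Z ≤ Z ^ 2 := by nlinarith
  have h6 : w ^ 3 ≤ (1764 * Z) ^ 3 := pow_le_pow_left₀ hw0.le hvZ 3
  have hm2 : (mm t v) ^ 2 ≤ (2 * 10 ^ 8 * Z ^ 2) ^ 2 := by
    rw [hm]
    apply sq_le_sq'
    · nlinarith [sq_nonneg t, sq_nonneg w]
    · nlinarith
  have h7 : Z ^ 3 ≤ Z ^ 4 := pow_le_pow_right₀ hZ (by norm_num)
  have h8 : 0 < Z ^ 4 := by positivity
  unfold GG
  have h9 : v ^ 6 = w ^ 3 := by rw [hw]; ring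
  rw [h9]
  have h10 : (2 * 10 ^ 8 * Z ^ 2) ^ 2 = 4 * 10 ^ 16 * Z ^ 4 := by ring
  have h11 : (1764 * Z) ^ 3 = 5489031744 * Z ^ 3 := by ring
  rw [h10] at hm2
  rw [h11] at h6
  linarith

/-- The facts on one prime whose sixth power divides `4 G`. -/
theorem prime_facts (hPR : S_PR2) (t v : ℤ) (Y : ℕ) (hY : 1 ≤ Y) (p : ℕ) (hp : p.Prime)
    (ht : t % 42 = 17) (hv : v % 42 = 6) (ht0 : 0 < t) (hv0 : 0 < v) (htY : t ≤ 42 * (Y : ℤ) ^ 2)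
    (hvY : v ≤ 42 * (Y : ℤ)) (hc : IsCoprime (mm t v) v) (hd : (p : ℤ) ^ 6 ∣ 4 * GG t v) :
    13 ≤ p ∧ p ^ 2 ≤ 10 ^ 6 * Y ^ 3 ∧ (p : ℤ) ^ 6 ∣ GG t v := by
  have hodd := GG_odd t v ht hv
  have hY' : (1 : ℤ) ≤ Y := by exact_mod_cast hY
  have hp2 : p ≠ 2 := by
    rintro rfl
    obtain ⟨c, hc'⟩ := hd
    obtain ⟨d, hd'⟩ := hodd
    rw [hd'] at hc'
    norm_num at hc'
    omega
  have hcop : IsCoprime ((p : ℤ) ^ 6) 4 := by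
    have h1 : IsCoprime (p : ℤ) (2 : ℤ) := by
      have := (Nat.coprime_primes hp Nat.prime_two).mpr hp2
      exact_mod_cast (Nat.isCoprime_iff_coprime.mpr this)
    have h2 : IsCoprime ((p : ℤ) ^ 6) ((2 : ℤ) ^ 2) := h1.pow
    norm_num at h2
    exact h2
  have hd2 : (p : ℤ) ^ 6 ∣ GG t v := hcop.dvd_of_dvd_mul_left hd
  have hd1 : (p : ℤ) ∣ GG t v := (dvd_pow_self _ (by norm_num)).trans hd2
  refine ⟨(hPR t v ht hv hc p hp hd1).2, ?_, hd2⟩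
  have h1 : (p : ℤ) ^ 6 ≤ GG t v := Int.le_of_dvd (GG_pos t v hv0) hd2
  have hv2 : v ^ 2 ≤ 1764 * (Y : ℤ) ^ 2 := by
    calc v ^ 2 ≤ (42 * (Y : ℤ)) ^ 2 := pow_le_pow_left₀ hv0.le hvY 2
      _ = 1764 * (Y : ℤ) ^ 2 := by ring
  have h2 := GG_le t v ((Y : ℤ) ^ 2) ht0 hv0 htY hv2 (one_le_pow₀ hY')
  have h3 : (Y : ℤ) ^ 8 ≤ (Y : ℤ) ^ 9 := pow_le_pow_right₀ hY' (by norm_num)
  have h4 : ((Y : ℤ) ^ 2) ^ 4 = (Y : ℤ) ^ 8 := by ring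
  rw [h4] at h2
  have h5 : (0 : ℤ) < (Y : ℤ) ^ 9 := by positivity
  have h6 : ((p : ℤ) ^ 2) ^ 3 ≤ (10 ^ 6 * (Y : ℤ) ^ 3) ^ 3 := by
    have e1 : ((p : ℤ) ^ 2) ^ 3 = (p : ℤ) ^ 6 := by ring
    have e2 : (10 ^ 6 * (Y : ℤ) ^ 3) ^ 3 = 10 ^ 18 * (Y : ℤ) ^ 9 := by ring
    rw [e1, e2]
    linarith
  have h7 : (p : ℤ) ^ 2 ≤ 10 ^ 6 * (Y : ℤ) ^ 3 :=
    le_of_pow_le_pow_left₀ (by norm_num) (by positivity) h6
  exact_mod_cast h7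

/-- The bound for one prime. -/
theorem one_prime (hGS : S_GS2) (Y p : ℕ) (hp : p.Prime) (h13 : 13 ≤ p) :
    (⋃ j ∈ Finset.range Y, (fun i : ℕ => (i, j)) ''
      {i : ℕ | i < Y ^ 2 ∧ (p : ℤ) ^ 6 ∣ GG (17 + 42 * i) (6 + 42 * (j : ℤ))}).ncard ≤
      Y * (4 * (Y ^ 2 / p ^ 2 + 1)) := by
  refine (ncard_biUnion _ _).trans ?_
  refine (Finset.sum_le_card_nsmul _ _ (4 * (Y ^ 2 / p ^ 2 + 1)) ?_).trans ?_
  · intro j _
    refine (Set.ncard_image_le ?_).trans (hGS p hp h13 (6 + 42 * (j : ℤ)) (Y ^ 2))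
    exact Set.Finite.subset (Set.finite_Iio (Y ^ 2)) (fun i hi => hi.1)
  · simp

theorem sum_odd (K : ℕ) (hK : 6 ≤ K) : ∑ k ∈ Finset.Ico 6 K, (((2 * k + 1 : ℕ) : ℝ) ^ 2)⁻¹ ≤
    1 / 24 - 1 / (4 * (K : ℝ)) := by
  induction K, hK using Nat.le_induction with
  | base => norm_num
  | succ n hn ih =>
    rw [Finset.sum_Ico_succ_top hn]
    have h : (((2 * n + 1 : ℕ) : ℝ) ^ 2)⁻¹ ≤ 1 / (4 * (n : ℝ)) - 1 / (4 * ((n + 1 : ℕ) : ℝ)) := by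
      have hn0 : (0 : ℝ) < n := by
        have : 0 < n := by omega
        exact_mod_cast this
      push_cast
      rw [div_sub_div _ _ (by positivity) (by positivity), inv_eq_one_div,
        div_le_div_iff₀ (by positivity) (by positivity)]
      nlinarith
    linarith

theorem inv_sum (S : Finset ℕ) (M : ℕ) (hS : ∀ p ∈ S, p % 2 = 1 ∧ 13 ≤ p ∧ p ≤ M) :
    ∑ p ∈ S, ((p : ℝ) ^ 2)⁻¹ ≤ 1 / 24 := by
  classical
  have h1 : S ⊆ (Finset.Ico 6 (M + 7)).image (fun k : ℕ => (2 * k + 1 : ℕ)) := by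
    intro p hp
    obtain ⟨h1, h2, h3⟩ := hS p hp
    rw [Finset.mem_image]
    refine ⟨p / 2, ?_, by omega⟩
    rw [Finset.mem_Ico]
    omega
  have h2 : ∑ p ∈ S, ((p : ℝ) ^ 2)⁻¹ ≤
      ∑ p ∈ (Finset.Ico 6 (M + 7)).image (fun k : ℕ => (2 * k + 1 : ℕ)), ((p : ℝ) ^ 2)⁻¹ :=
    Finset.sum_le_sum_of_subset_of_nonneg h1 (fun p _ _ => by positivity)
  have h3 : ∑ p ∈ (Finset.Ico 6 (M + 7)).image (fun k : ℕ => (2 * k + 1 : ℕ)), ((p : ℝ) ^ 2)⁻¹ =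
      ∑ k ∈ Finset.Ico 6 (M + 7), (((2 * k + 1 : ℕ) : ℝ) ^ 2)⁻¹ := by
    rw [Finset.sum_image]
    intro a _ b _ hab
    simp only at hab
    omega
  have h4 := sum_odd (M + 7) (by omega)
  have h5 : (0 : ℝ) ≤ 1 / (4 * ((M + 7 : ℕ) : ℝ)) := by positivity
  linarith

end IGX2

open IGX2 in
theorem pr_GX2 (hPR : S_PR2) (hGS : S_GS2) : S_GX2 := by
  refine ⟨10 ^ 10, fun Y hY => ?_⟩
  have hY1 : 1 ≤ Y := le_trans (by norm_num) hY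
  obtain ⟨M, hM⟩ : ∃ M : ℕ, M = Nat.sqrt (10 ^ 6 * Y ^ 3) := ⟨_, rfl⟩
  have hM2 : M ^ 2 ≤ 10 ^ 6 * Y ^ 3 := by
    rw [hM, sq]
    exact Nat.sqrt_le _
  obtain ⟨S, hS⟩ : ∃ S : Finset ℕ, S = (Finset.Icc 13 M).filter Nat.Prime := ⟨_, rfl⟩
  have hSm : ∀ p ∈ S, p.Prime ∧ 13 ≤ p ∧ p ≤ M := by
    intro p hp
    rw [hS, Finset.mem_filter, Finset.mem_Icc] at hp
    exact ⟨hp.2, hp.1.1, hp.1.2⟩
  have hcov : Pairs2 Y (fun t v => IsCoprime (mm t v) v ∧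
      ∃ p : ℕ, p.Prime ∧ (p : ℤ) ^ 6 ∣ 4 * GG t v) ⊆
      ⋃ p ∈ S, ⋃ j ∈ Finset.range Y, (fun i : ℕ => (i, j)) ''
        {i : ℕ | i < Y ^ 2 ∧ (p : ℤ) ^ 6 ∣ GG (17 + 42 * i) (6 + 42 * (j : ℤ))} := by
    rintro ⟨i, j⟩ ⟨hi, hj, hc, p, hp, hd⟩
    simp only at hi hj
    have hi' : (i : ℤ) < (Y : ℤ) ^ 2 := by exact_mod_cast hi
    have hj' : (j : ℤ) < Y := by exact_mod_cast hj
    have hi0 : (0 : ℤ) ≤ i := Int.natCast_nonneg i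
    have hj0 : (0 : ℤ) ≤ j := Int.natCast_nonneg j
    obtain ⟨h13, h4, hd'⟩ := prime_facts hPR _ _ Y hY1 p hp (by dsimp only; omega)
      (by dsimp only; omega) (by dsimp only; omega) (by dsimp only; omega)
      (by dsimp only; omega) (by dsimp only; omega) hc hd
    simp only [Set.mem_iUnion]
    refine ⟨p, ?_, j, Finset.mem_range.2 hj, i, ⟨hi, hd'⟩, rfl⟩
    rw [hS, Finset.mem_filter, Finset.mem_Icc]
    refine ⟨⟨h13, ?_⟩, hp⟩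
    rw [hM, Nat.le_sqrt, ← sq]
    exact h4
  obtain ⟨N, hNdef⟩ : ∃ N : ℕ, N = (Pairs2 Y (fun t v => IsCoprime (mm t v) v ∧
      ∃ p : ℕ, p.Prime ∧ (p : ℤ) ^ 6 ∣ 4 * GG t v)).ncard := ⟨_, rfl⟩
  rw [← hNdef]
  have hN : N ≤ ∑ p ∈ S, Y * (4 * (Y ^ 2 / p ^ 2 + 1)) := by
    rw [hNdef]
    refine (Set.ncard_le_ncard hcov ?_).trans ((ncard_biUnion S _).trans
      (Finset.sum_le_sum fun p hp => one_prime hGS Y p (hSm p hp).1 (hSm p hp).2.1))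
    refine Set.Finite.biUnion (Finset.finite_toSet S) (fun p _ => ?_)
    refine Set.Finite.biUnion (Finset.finite_toSet _) (fun j _ => ?_)
    refine Set.Finite.image _ ?_
    exact Set.Finite.subset (Set.finite_Iio (Y ^ 2)) (fun i hi => hi.1)
  have hNR : (N : ℝ) ≤ ∑ p ∈ S, (4 * (Y : ℝ) ^ 3 * ((p : ℝ) ^ 2)⁻¹ + 4 * (Y : ℝ)) := by
    have h1 : (N : ℝ) ≤ ∑ p ∈ S, (((Y * (4 * (Y ^ 2 / p ^ 2 + 1)) : ℕ)) : ℝ) := by
      exact_mod_cast hN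
    refine h1.trans (Finset.sum_le_sum ?_)
    intro p hp
    have h2 : ((Y ^ 2 / p ^ 2 : ℕ) : ℝ) ≤ (Y : ℝ) ^ 2 / (p : ℝ) ^ 2 := by
      have := @Nat.cast_div_le ℝ _ _ _ (Y ^ 2) (p ^ 2)
      rwa [Nat.cast_pow, Nat.cast_pow] at this
    have h3 : ((Y * (4 * (Y ^ 2 / p ^ 2 + 1)) : ℕ) : ℝ) =
        (Y : ℝ) * (4 * (((Y ^ 2 / p ^ 2 : ℕ) : ℝ) + 1)) := by
      rw [Nat.cast_mul, Nat.cast_mul, Nat.cast_add, Nat.cast_one, Nat.cast_ofNat]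
    rw [h3]
    have h4 : (Y : ℝ) * (4 * (((Y ^ 2 / p ^ 2 : ℕ) : ℝ) + 1)) ≤
        (Y : ℝ) * (4 * ((Y : ℝ) ^ 2 / (p : ℝ) ^ 2 + 1)) := by
      apply mul_le_mul_of_nonneg_left _ (Nat.cast_nonneg _)
      linarith
    refine h4.trans (le_of_eq ?_)
    rw [div_eq_mul_inv]
    ring
  rw [Finset.sum_add_distrib, ← Finset.mul_sum, Finset.sum_const, nsmul_eq_mul] at hNR
  have hA : ∑ p ∈ S, ((p : ℝ) ^ 2)⁻¹ ≤ 1 / 24 := by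
    refine inv_sum S M (fun p hp => ?_)
    obtain ⟨h1, h2, h3⟩ := hSm p hp
    refine ⟨?_, h2, h3⟩
    rcases h1.eq_two_or_odd with h | h
    · omega
    · exact h
  have hScard : (S.card : ℝ) ≤ (M : ℝ) := by
    have h1 : S.card ≤ M := by
      rw [hS]
      refine (Finset.card_filter_le _ _).trans ?_
      rw [Nat.card_Icc]
      omega
    exact_mod_cast h1
  have h48 : 48 * M ≤ Y ^ 2 := by
    have h1 : (48 * M) ^ 2 ≤ (Y ^ 2) ^ 2 := by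
      calc (48 * M) ^ 2 = 2304 * M ^ 2 := by ring
        _ ≤ 2304 * (10 ^ 6 * Y ^ 3) := Nat.mul_le_mul_left _ hM2
        _ = 2304000000 * Y ^ 3 := by ring
        _ ≤ Y * Y ^ 3 := Nat.mul_le_mul_right _ (le_trans (by norm_num) hY)
        _ = (Y ^ 2) ^ 2 := by ring
    exact le_of_pow_le_pow_left₀ two_ne_zero (Nat.zero_le _) h1
  have h48R : 48 * (M : ℝ) ≤ (Y : ℝ) ^ 2 := by exact_mod_cast h48
  have hY0 : (0 : ℝ) ≤ Y := Nat.cast_nonneg _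
  have hfin : 4 * (N : ℝ) ≤ (Y : ℝ) ^ 3 := by
    have h1 : 4 * (Y : ℝ) ^ 3 * ∑ p ∈ S, ((p : ℝ) ^ 2)⁻¹ ≤ 4 * (Y : ℝ) ^ 3 * (1 / 24) :=
      mul_le_mul_of_nonneg_left hA (by positivity)
    have h2 : (S.card : ℝ) * (4 * (Y : ℝ)) ≤ (M : ℝ) * (4 * (Y : ℝ)) :=
      mul_le_mul_of_nonneg_right hScard (by positivity)
    have h3 : 48 * (M : ℝ) * (Y : ℝ) ≤ (Y : ℝ) ^ 2 * (Y : ℝ) :=
      mul_le_mul_of_nonneg_right h48R hY0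
    have h4 : (Y : ℝ) ^ 2 * (Y : ℝ) = (Y : ℝ) ^ 3 := by ring
    rw [h4] at h3
    linarith
  exact_mod_cast hfin

end Pool.Agent.Work.MP_bd3ec3_nt.LB
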