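import Pool.Agent.Work.MP_bd3ec3_nt.LB.Stmts

/-!
# MP_bd3ec3_nt, block LB, item IN: independence by infinite descent
-/

set_option autoImplicit false

namespace Pool.Agent.Work.MP_bd3ec3_nt.LB

namespace IIN

theorem key (A : Type) [AddCommGroup A] (P Q : A) (h0 : ∀ R : A, R + R = 0 → R = 0)
    (h1 : ∀ R : A, P ≠ R + R) (h2 : ∀ R : A, Q ≠ R + R) (h3 : ∀ R : A, P + Q ≠ R + R) :
    ∀ N : ℕ, ∀ m n : ℤ, m.natAbs + n.natAbs ≤ N → m • P + n • Q = 0 → m = 0 ∧ n = 0 := by
  intro N
  induction N with
  | zero =>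
    intro m n hN _
    constructor <;> omega
  | succ N ih =>
    intro m n hN h
    obtain ⟨a, ha⟩ := Int.even_or_odd' m
    obtain ⟨b, hb⟩ := Int.even_or_odd' n
    rcases ha with ha | ha <;> rcases hb with hb | hb
    · have e : (a • P + b • Q) + (a • P + b • Q) = 0 := by
        rw [ha, hb] at h
        rw [← h]
        module
      have e0 := h0 _ e
      by_cases hz : a = 0 ∧ b = 0
      · obtain ⟨ha0, hb0⟩ := hz
        constructor
        · rw [ha, ha0, mul_zero]
        · rw [hb, hb0, mul_zero]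
      · obtain ⟨ha0, hb0⟩ := ih a b (by omega) e0
        exact absurd ⟨ha0, hb0⟩ hz
    · exfalso
      rw [ha, hb] at h
      have e : (2 * a) • P + (2 * b + 1) • Q + ((-(a • P) - b • Q) + (-(a • P) - b • Q)) = Q := by
        module
      rw [h, zero_add] at e
      exact h2 _ e.symm
    · exfalso
      rw [ha, hb] at h
      have e : (2 * a + 1) • P + (2 * b) • Q + ((-(a • P) - b • Q) + (-(a • P) - b • Q)) = P := by
        module
      rw [h, zero_add] at e
      exact h1 _ e.symm
    · exfalso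
      rw [ha, hb] at h
      have e : (2 * a + 1) • P + (2 * b + 1) • Q + ((-(a • P) - b • Q) + (-(a • P) - b • Q)) =
          P + Q := by
        module
      rw [h, zero_add] at e
      exact h3 _ e.symm

end IIN

/-- Item IN. -/
theorem pr_IN : S_IN := by
  intro A _ P Q h0 h1 h2 h3 m n h
  exact IIN.key A P Q h0 h1 h2 h3 (m.natAbs + n.natAbs) m n le_rfl h

end Pool.Agent.Work.MP_bd3ec3_nt.LB
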