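import Pool.Agent.Work.MP_bd3ec3_nt.LB.StmtsU

/-!
# MP_bd3ec3_nt, block LB, item NR2: no halves
-/

set_option autoImplicit false

namespace Pool.Agent.Work.MP_bd3ec3_nt.LB

namespace INR2

theorem cast_of_mod (x c : ℤ) (h : x % 7 = c % 7) : (x : ZMod 7) = (c : ZMod 7) :=
  (ZMod.intCast_eq_intCast_iff x c 7).2 h

end INR2

/-- item NR2 -/
theorem pr_NR2 (hQR : S_QR) : S_NR2 := by
  intro t v ht hv z
  have ht' : ((t : ℤ) : ZMod 7) = 3 := by
    have h := INR2.cast_of_mod t 3 (by omega)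
    rw [h]
    rfl
  have hv' : ((v : ℤ) : ZMod 7) = 6 := by
    have h := INR2.cast_of_mod v 6 (by omega)
    rw [h]
    rfl
  have hk' : ((4 * GG t v : ℤ) : ZMod 7) = 1 := by
    unfold GG mm
    push_cast
    rw [ht', hv']
    decide
  refine ⟨fun h => ?_, fun h => ?_, fun h => ?_⟩
  · obtain ⟨u, hu⟩ := hQR (4 * GG t v) (-12 * v ^ 2) 1 z (by rw [Int.cast_one]; decide) (by
      have e : (((-12 * v ^ 2 : ℤ) : ℚ) / ((1 : ℤ) : ℚ)) = -12 * (v : ℚ) ^ 2 := by
        push_cast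
        ring
      rw [e]
      exact h)
    rw [hk'] at hu
    push_cast at hu
    rw [hv'] at hu
    revert u
    decide
  · obtain ⟨u, hu⟩ := hQR (4 * GG t v) (4 * t) 1 z (by rw [Int.cast_one]; decide) (by
      have e : (((4 * t : ℤ) : ℚ) / ((1 : ℤ) : ℚ)) = 4 * (t : ℚ) := by
        push_cast
        ring
      rw [e]
      exact h)
    rw [hk'] at hu
    push_cast at hu
    rw [ht'] at hu
    revert u
    decide
  · obtain ⟨u, hu⟩ := hQR (4 * GG t v) (1 + 12 * v ^ 2 - 4 * t) 1 z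
      (by rw [Int.cast_one]; decide) (by
      have e : (((1 + 12 * v ^ 2 - 4 * t : ℤ) : ℚ) / ((1 : ℤ) : ℚ)) =
          1 + 12 * (v : ℚ) ^ 2 - 4 * t := by
        push_cast
        ring
      rw [e]
      exact h)
    rw [hk'] at hu
    push_cast at hu
    rw [ht', hv'] at hu
    revert u
    decide

end Pool.Agent.Work.MP_bd3ec3_nt.LB
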