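import Pool.Agent.Work.MP_bd3ec3_nt.LB.StmtsU

/-! # MP_bd3ec3_nt, block LB, item PR2: the primes dividing `G(t, v)` (helper14, after item PR) -/

set_option autoImplicit false

namespace Pool.Agent.Work.MP_bd3ec3_nt.LB

namespace IPR2

theorem ne0 (p q : ℕ) (hp : p.Prime) (hq : q.Prime) (h : p ≠ q) : ((q : ℕ) : ZMod p) ≠ 0 := by
  intro h0
  rw [ZMod.natCast_eq_zero_iff] at h0
  exact h ((Nat.prime_dvd_prime_iff_eq hp hq).1 h0)

theorem mod3_of_sq (p : ℕ) (hp : p.Prime) (h2 : p ≠ 2) (h3 : p ≠ 3) (z : ZMod p) (hz : z ^ 2 = -3) :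
    p % 3 = 1 := by
  haveI := Fact.mk hp
  have h20 : (2 : ZMod p) ≠ 0 := by
    have := ne0 p 2 hp Nat.prime_two h2
    exact_mod_cast this
  have h30 : (3 : ZMod p) ≠ 0 := by
    have := ne0 p 3 hp Nat.prime_three h3
    exact_mod_cast this
  obtain ⟨w, hw⟩ : ∃ w : ZMod p, 2 * w = -1 + z := ⟨(-1 + z) / 2, by field_simp⟩
  have hz' : z = 2 * w + 1 := by linear_combination -hw
  have hw1 : w ^ 2 + w + 1 = 0 := by
    have h4 : (2 : ZMod p) * (2 * (w ^ 2 + w + 1)) = 0 := by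
      rw [hz'] at hz
      linear_combination hz
    have h5 := (mul_eq_zero.1 h4).resolve_left h20
    exact (mul_eq_zero.1 h5).resolve_left h20
  have hw3 : w ^ 3 = 1 := by linear_combination (w - 1) * hw1
  have hne : w ≠ 1 := by
    intro h
    apply h30
    rw [h] at hw1
    linear_combination hw1
  have hu : orderOf w = 3 := orderOf_eq_prime hw3 hne
  have hw0 : w ≠ 0 := by
    rintro rfl
    simp at hw3
  have h1 : w ^ (p - 1) = 1 := ZMod.pow_card_sub_one_eq_one hw0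
  have h4 : 3 ∣ p - 1 := hu ▸ orderOf_dvd_of_pow_eq_one h1
  have := hp.one_lt
  omega

theorem castmod (q : ℕ) (hq : (q : ℤ) ∣ 42) (r c : ℤ) (h : r % 42 = c) : (r : ZMod q) = (c : ZMod q) := by
  rw [ZMod.intCast_eq_intCast_iff_dvd_sub]
  have h1 : (42 : ℤ) ∣ c - r := by omega
  exact hq.trans h1

theorem key0 (q : ℕ) (a b : ℤ) : ((mm a b : ℤ) : ZMod q) =
    4 * (a : ZMod q) ^ 2 - 12 * (a : ZMod q) * (b : ZMod q) ^ 2 + 36 * (b : ZMod q) ^ 4 -
      (a : ZMod q) - 3 * (b : ZMod q) ^ 2 := by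
  simp [mm]

theorem key (q : ℕ) (a b : ℤ) : ((GG a b : ℤ) : ZMod q) =
    ((mm a b : ℤ) : ZMod q) ^ 2 + 432 * (b : ZMod q) ^ 6 := by
  simp [GG]

theorem GGmod (q : ℕ) (hq : (q : ℤ) ∣ 42) (t v : ℤ) (ht : t % 42 = 17) (hv : v % 42 = 6)
    (hd : (q : ℤ) ∣ GG t v) : (q : ℤ) ∣ GG 17 6 := by
  have h1 : ((GG t v : ℤ) : ZMod q) = 0 := (ZMod.intCast_zmod_eq_zero_iff_dvd _ _).2 hd
  rw [key, key0, castmod q hq t 17 ht, castmod q hq v 6 hv, ← key0, ← key] at h1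
  exact (ZMod.intCast_zmod_eq_zero_iff_dvd _ _).1 h1

end IPR2

theorem pr_PR2 : S_PR2 := by
  intro t v ht hv hc p hp hd
  haveI := Fact.mk hp
  have h2 : p ≠ 2 := by
    rintro rfl
    have h := IPR2.GGmod 2 (by norm_num) t v ht hv hd
    revert h
    norm_num [GG, mm]
  have h3 : p ≠ 3 := by
    rintro rfl
    have h := IPR2.GGmod 3 (by norm_num) t v ht hv hd
    revert h
    norm_num [GG, mm]
  have h7 : p ≠ 7 := by
    rintro rfl
    have h := IPR2.GGmod 7 (by norm_num) t v ht hv hd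
    revert h
    norm_num [GG, mm]
  have hpZ : Prime (p : ℤ) := Nat.prime_iff_prime_int.1 hp
  have hns : ¬ (p : ℤ) ∣ v := by
    intro h
    have h1 : (p : ℤ) ∣ mm t v ^ 2 := by
      have h5 : mm t v ^ 2 = GG t v - v * (432 * v ^ 5) := by
        simp only [GG]
        ring
      rw [h5]
      exact dvd_sub hd (h.mul_right _)
    have h6 : (p : ℤ) ∣ mm t v := hpZ.dvd_of_dvd_pow h1
    exact hpZ.not_unit (hc.isUnit_of_dvd' h6 h)
  have hs0 : (v : ZMod p) ≠ 0 := by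
    intro h
    exact hns ((ZMod.intCast_zmod_eq_zero_iff_dvd _ _).1 h)
  have h20 : (2 : ZMod p) ≠ 0 := by
    have := IPR2.ne0 p 2 hp Nat.prime_two h2
    exact_mod_cast this
  have h30 : (3 : ZMod p) ≠ 0 := by
    have := IPR2.ne0 p 3 hp Nat.prime_three h3
    exact_mod_cast this
  have hF : ((GG t v : ℤ) : ZMod p) = 0 := (ZMod.intCast_zmod_eq_zero_iff_dvd _ _).2 hd
  rw [IPR2.key] at hF
  have hb : (2 * 2 * 3 * (v : ZMod p) ^ 3) ≠ 0 :=
    mul_ne_zero (mul_ne_zero (mul_ne_zero h20 h20) h30) (pow_ne_zero 3 hs0)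
  have hz : (((mm t v : ℤ) : ZMod p) / (2 * 2 * 3 * (v : ZMod p) ^ 3)) ^ 2 = -3 := by
    rw [div_pow, div_eq_iff (pow_ne_zero 2 hb)]
    linear_combination hF
  have h1 := IPR2.mod3_of_sq p hp h2 h3 _ hz
  refine ⟨h1, ?_⟩
  by_contra hlt
  have hlt' : p < 13 := by omega
  have hge := hp.two_le
  interval_cases p <;> first | omega | (exact absurd hp (by norm_num)) | (exact absurd rfl h7)

end Pool.Agent.Work.MP_bd3ec3_nt.LB
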