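import Pool.Agent.Work.MP_bd3ec3_nt.LB.StmtsU

/-! Item PT2 of block LB, part U: the two points. -/

set_option autoImplicit false

namespace Pool.Agent.Work.MP_bd3ec3_nt.LB

open WeierstrassCurve.Affine

namespace IPT2

theorem ns (k : ℤ) (hk : k ≠ 0) (x y : ℚ) (h : y ^ 2 = x ^ 3 + k) : (Ek k).Nonsingular x y := by
  rw [nonsingular_iff', equation_iff]
  refine ⟨by simp only [Ek]; linarith, ?_⟩
  by_contra hcon
  rw [not_or, not_not, not_not] at hcon
  obtain ⟨h1, h2⟩ := hcon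
  simp only [Ek] at h1 h2
  have hx : x ^ 2 = 0 := by linarith
  have hx0 : x = 0 := by
    rcases pow_eq_zero_iff (two_ne_zero) |>.1 hx with h
    exact h
  have hy0 : y = 0 := by linarith
  rw [hx0, hy0] at h
  have : (k : ℚ) = 0 := by linarith
  exact hk (by exact_mod_cast this)

theorem GG_ne (t v : ℤ) (hv : v ≠ 0) : 4 * GG t v ≠ 0 := by
  have h1 : 0 < v ^ 6 := by positivity
  have h2 : 0 ≤ mm t v ^ 2 := sq_nonneg _
  unfold GG
  intro h
  linarith

end IPT2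

theorem pr_PT2 : S_PT2 := by
  intro t v hv ht
  have hk := IPT2.GG_ne t v hv
  have htq : (t : ℚ) + 3 * (v : ℚ) ^ 2 ≠ 0 := by
    intro h
    apply ht
    exact_mod_cast h
  have hP : (Ek (4 * GG t v)).Nonsingular (-12 * (v : ℚ) ^ 2) (2 * (mm t v : ℚ)) := by
    apply IPT2.ns _ hk
    unfold GG
    push_cast
    ring
  have hQ : (Ek (4 * GG t v)).Nonsingular (4 * (t : ℚ)) (2 * (mm t v : ℚ) + 4 * t + 12 * v ^ 2) := by
    apply IPT2.ns _ hk
    unfold GG mm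
    push_cast
    ring
  have hx : (-12 * (v : ℚ) ^ 2) ≠ 4 * (t : ℚ) := by
    intro h
    apply htq
    linarith
  refine ⟨Point.some _ _ hP, Point.some _ _ hQ, rfl, rfl, ?_⟩
  rw [Point.add_of_X_ne hx]
  change (Ek (4 * GG t v)).addX _ _ _ = _
  rw [slope_of_X_ne hx]
  have hsl : (2 * (mm t v : ℚ) - (2 * (mm t v : ℚ) + 4 * t + 12 * v ^ 2)) /
      ((-12 * (v : ℚ) ^ 2) - 4 * (t : ℚ)) = 1 := by
    rw [div_eq_one_iff_eq (sub_ne_zero.2 hx)]
    ring
  rw [hsl]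
  simp only [addX, Ek]
  ring

end Pool.Agent.Work.MP_bd3ec3_nt.LB
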