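import Pool.Agent.Work.MP_bd3ec3_nt.LB.Stmts

/-!
Block LB, item QR: reduction modulo `7`.
-/

set_option autoImplicit false

namespace Pool.Agent.Work.MP_bd3ec3_nt.LB

theorem pr_QR : S_QR := by
  intro k a b z hb hz
  have : Fact (Nat.Prime 7) := ⟨by norm_num⟩
  obtain ⟨u, hu⟩ : ∃ u : ℤ, u = z.num := ⟨_, rfl⟩
  obtain ⟨v, hv⟩ : ∃ v : ℤ, v = z.den := ⟨_, rfl⟩
  have hv0 : (v : ℚ) ≠ 0 := by
    rw [hv]
    exact_mod_cast z.den_ne_zero
  have hb0 : (b : ℚ) ≠ 0 := by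
    intro h
    have h1 : b = 0 := by exact_mod_cast h
    rw [h1] at hb
    exact hb (by simp)
  have hzuv : z = u / v := by
    rw [hu, hv]
    exact_mod_cast (Rat.num_div_den z).symm
  have h1 : (b : ℚ) * u ^ 4 - 4 * a * u ^ 3 * v - 8 * b * k * u * v ^ 3 - 4 * k * a * v ^ 4 = 0 := by
    rw [hzuv] at hz
    have h2 : (b : ℚ) * v ^ 4 * ((u / v : ℚ) ^ 4 - 4 * ((a : ℚ) / b) * (u / v : ℚ) ^ 3 - 8 * k * (u / v : ℚ) -
        4 * k * ((a : ℚ) / b)) = b * u ^ 4 - 4 * a * u ^ 3 * v - 8 * b * k * u * v ^ 3 - 4 * k * a * v ^ 4 := by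
      field_simp
    rw [← h2, hz, mul_zero]
  have h2 : b * u ^ 4 - 4 * a * u ^ 3 * v - 8 * b * k * u * v ^ 3 - 4 * k * a * v ^ 4 = 0 := by exact_mod_cast h1
  have h3 : (b : ZMod 7) * u ^ 4 - 4 * a * u ^ 3 * v - 8 * b * k * u * v ^ 3 - 4 * k * a * v ^ 4 = 0 := by
    have h4 := congrArg (fun t : ℤ => (t : ZMod 7)) h2
    push_cast at h4
    exact h4
  have hv7 : (v : ZMod 7) ≠ 0 := by
    intro h4
    rw [h4] at h3
    have h5 : (b : ZMod 7) * u ^ 4 = 0 := by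
      rw [← h3]
      ring
    have h6 : (u : ZMod 7) = 0 := by
      rcases mul_eq_zero.1 h5 with h | h
      · exact absurd h hb
      · exact pow_eq_zero_iff (by norm_num) |>.1 h
    have h7 : (7 : ℤ) ∣ u := by
      have := (ZMod.intCast_zmod_eq_zero_iff_dvd u 7).1 h6
      exact_mod_cast this
    have h8 : (7 : ℤ) ∣ v := by
      have := (ZMod.intCast_zmod_eq_zero_iff_dvd v 7).1 h4
      exact_mod_cast this
    have h9 : IsCoprime u v := by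
      rw [hu, hv]
      exact Rat.isCoprime_num_den z
    have h10 := h9.isUnit_of_dvd' h7 h8
    rw [Int.isUnit_iff] at h10
    omega
  refine ⟨(u : ZMod 7) / v, ?_⟩
  have h4 : (b : ZMod 7) * ((u : ZMod 7) / v) ^ 4 - 4 * a * ((u : ZMod 7) / v) ^ 3 - 8 * b * k * ((u : ZMod 7) / v) - 4 * k * a =
      ((b : ZMod 7) * u ^ 4 - 4 * a * u ^ 3 * v - 8 * b * k * u * v ^ 3 - 4 * k * a * v ^ 4) / (v : ZMod 7) ^ 4 := by
    field_simp
  rw [h4, h3, zero_div]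

end Pool.Agent.Work.MP_bd3ec3_nt.LB
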