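import Pool.Agent.Work.MP_bd3ec3_nt.LB.StmtsU

set_option autoImplicit false

namespace Pool.Agent.Work.MP_bd3ec3_nt.LB

namespace IRK2

theorem odd_GG (t v : ℤ) (ht : t % 42 = 17) (hv : v % 42 = 6) : GG t v % 2 = 1 := by
  have h1 : Odd t := by
    rw [Int.odd_iff]
    omega
  have h3 : Even v := by
    rw [Int.even_iff]
    omega
  have h4 : Odd (mm t v) := by
    obtain ⟨a, ha⟩ := h1
    obtain ⟨b, hb⟩ := h3
    refine ⟨2 * t ^ 2 - 6 * t * v ^ 2 + 18 * v ^ 4 - a - 6 * b ^ 2 - 1, ?_⟩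
    unfold mm
    have h5 : v = 2 * b := by omega
    rw [ha, h5]
    ring
  have h2 : Odd (GG t v) := by
    unfold GG
    refine Odd.add_even (Odd.pow h4) ?_
    exact ⟨216 * v ^ 6, by ring⟩
  exact Int.odd_iff.mp h2

theorem tv_ne (t v : ℤ) (ht : t % 42 = 17) (hv : v % 42 = 6) : t + 3 * v ^ 2 ≠ 0 := by
  intro h
  have h1 : Odd t := by
    rw [Int.odd_iff]
    omega
  have h3 : Even v := by
    rw [Int.even_iff]
    omega
  obtain ⟨a, ha⟩ := h1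
  obtain ⟨b, hb⟩ := h3
  have h5 : v = 2 * b := by omega
  rw [ha, h5] at h
  have h6 : 2 * (a + 6 * b ^ 2) + 1 = 0 := by
    linarith [h, (by ring : 2 * a + 1 + 3 * (2 * b) ^ 2 = 2 * (a + 6 * b ^ 2) + 1)]
  omega

end IRK2

theorem pr_RK2 (hDB : S_DB) (hTT : S_TT) (hIN : S_IN) (hPT : S_PT2) (hNR : S_NR2)
    (hNC : S_NC2) : S_RK2 := by
  intro t v ht hv
  have hv0 : v ≠ 0 := by
    rintro rfl
    norm_num at hv
  have htv : t + 3 * v ^ 2 ≠ 0 := IRK2.tv_ne t v ht hv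
  obtain ⟨P, Q, hP, hQ, hPQ⟩ := hPT t v hv0 htv
  have h7 := hNR t v (by omega) (by omega)
  refine ⟨P, Q, hIN _ P Q ?_ ?_ ?_ ?_⟩
  · exact hTT _ (fun z => hNC (GG t v) (IRK2.odd_GG t v ht hv) z)
  · intro R h
    obtain ⟨z, hz⟩ := hDB _ P R _ hP h
    exact (h7 z).1 hz
  · intro R h
    obtain ⟨z, hz⟩ := hDB _ Q R _ hQ h
    exact (h7 z).2.1 hz
  · intro R h
    obtain ⟨z, hz⟩ := hDB _ (P + Q) R _ hPQ h
    exact (h7 z).2.2 hz

end Pool.Agent.Work.MP_bd3ec3_nt.LB
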