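import Pool.Agent.Work.MP_bd3ec3_nt.LB.Stmts

/-! Item [RP] of part LB: representations by `m² + 3 n²` and square roots of `-3` modulo `N`. -/

set_option autoImplicit false

namespace Pool.Agent.Work.MP_bd3ec3_nt.LB

namespace IRP

/-- the map `(m, n) ↦ m / n` modulo `N`. -/
noncomputable def f (N : ℕ) (q : ℤ × ℤ) : ZMod N := (q.1 : ZMod N) * ((q.2 : ZMod N))⁻¹

/-- `n` is a unit modulo `N`. -/
theorem unit_n (N : ℕ) (m n : ℤ) (hc : IsCoprime m n) (h : m ^ 2 + 3 * n ^ 2 = N) :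
    IsUnit ((n : ℤ) : ZMod N) := by
  have h1 : IsCoprime n (N : ℤ) := by
    rw [← h]
    have h2 : IsCoprime n (m ^ 2) := hc.symm.pow_right
    have h3 : IsCoprime n (m ^ 2 + n * (3 * n)) := h2.add_mul_left_right (3 * n)
    have h4 : m ^ 2 + n * (3 * n) = m ^ 2 + 3 * n ^ 2 := by ring
    rwa [h4] at h3
  obtain ⟨a, b, hab⟩ := h1
  have h5 : ((a * n + b * (N : ℤ) : ℤ) : ZMod N) = ((1 : ℤ) : ZMod N) := by rw [hab]
  push_cast at h5
  simp only [ZMod.natCast_self, mul_zero, add_zero] at h5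
  exact IsUnit.of_mul_eq_one ((a : ℤ) : ZMod N) (by rw [mul_comm]; exact h5)

/-- `m = (m / n) n` modulo `N`. -/
theorem f_mul (N : ℕ) (m n : ℤ) (hc : IsCoprime m n) (h : m ^ 2 + 3 * n ^ 2 = N) :
    (m : ZMod N) = f N (m, n) * (n : ZMod N) := by
  have hu := unit_n N m n hc h
  have h1 : ((n : ℤ) : ZMod N) * ((n : ℤ) : ZMod N)⁻¹ = 1 := ZMod.mul_inv_of_unit _ hu
  unfold f
  simp only
  rw [mul_assoc, mul_comm (((n : ℤ) : ZMod N)⁻¹), h1, mul_one]

/-- the image is a square root of `-3`. -/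
theorem f_sq (N : ℕ) (m n : ℤ) (hc : IsCoprime m n) (h : m ^ 2 + 3 * n ^ 2 = N) :
    f N (m, n) ^ 2 = -3 := by
  have hu := unit_n N m n hc h
  have h1 := f_mul N m n hc h
  have h2 : (m : ZMod N) ^ 2 + 3 * (n : ZMod N) ^ 2 = 0 := by
    have h3 : ((m ^ 2 + 3 * n ^ 2 : ℤ) : ZMod N) = (((N : ℕ) : ℤ) : ZMod N) := by rw [h]
    push_cast at h3
    rw [h3]
    exact ZMod.natCast_self N
  have h4 : (f N (m, n) ^ 2 + 3) * (n : ZMod N) ^ 2 = 0 := by
    have h5 : (f N (m, n) ^ 2 + 3) * (n : ZMod N) ^ 2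
        = (f N (m, n) * (n : ZMod N)) ^ 2 + 3 * (n : ZMod N) ^ 2 := by ring
    rw [h5, ← h1, h2]
  have h6 : f N (m, n) ^ 2 + 3 = 0 := (IsUnit.mul_left_eq_zero (hu.pow 2)).1 h4
  exact eq_neg_of_add_eq_zero_left h6

/-- two representations with the same image agree up to the sign. -/
theorem same (N : ℕ) (hN : 0 < N) (m n m' n' : ℤ) (hc : IsCoprime m n) (h : m ^ 2 + 3 * n ^ 2 = N)
    (hc' : IsCoprime m' n') (h' : m' ^ 2 + 3 * n' ^ 2 = N) (hf : f N (m, n) = f N (m', n')) :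
    (m', n') = (m, n) ∨ (m', n') = (-m, -n) := by
  have e1 := f_mul N m n hc h
  have e2 := f_mul N m' n' hc' h'
  have e3 := f_sq N m n hc h
  rw [← hf] at e2
  have d1 : (N : ℤ) ∣ m * n' - m' * n := by
    rw [← ZMod.intCast_zmod_eq_zero_iff_dvd _ N]
    push_cast
    rw [e1, e2]
    ring
  have d2 : (N : ℤ) ∣ m * m' + 3 * (n * n') := by
    rw [← ZMod.intCast_zmod_eq_zero_iff_dvd _ N]
    push_cast
    rw [e1, e2]
    have h7 : f N (m, n) * (n : ZMod N) * (f N (m, n) * (n' : ZMod N)) + 3 * ((n : ZMod N) * (n' : ZMod N))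
      = (f N (m, n) ^ 2 + 3) * ((n : ZMod N) * (n' : ZMod N)) := by ring
    rw [h7, e3]
    ring
  obtain ⟨β, hβ⟩ := d1
  obtain ⟨α, hα⟩ := d2
  have hNZ : (0 : ℤ) < N := by exact_mod_cast hN
  have key : (N : ℤ) ^ 2 * (α ^ 2 + 3 * β ^ 2) = (N : ℤ) ^ 2 * 1 := by
    have h8 : (m * m' + 3 * (n * n')) ^ 2 + 3 * (m * n' - m' * n) ^ 2
        = (m ^ 2 + 3 * n ^ 2) * (m' ^ 2 + 3 * n' ^ 2) := by ring
    rw [hα, hβ, h, h'] at h8
    nlinarith [h8]
  have key2 : α ^ 2 + 3 * β ^ 2 = 1 := by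
    have h9 : (N : ℤ) ^ 2 ≠ 0 := by positivity
    exact mul_left_cancel₀ h9 key
  have hβ0 : β = 0 := by
    by_contra hne
    have h10 : 0 < β ^ 2 := by positivity
    nlinarith [sq_nonneg α]
  rw [hβ0] at key2 hβ
  have hα1 : α ^ 2 = 1 := by linarith
  have hmn : m * n' = m' * n := by linarith
  have hm' : (N : ℤ) * m' = N * (α * m) := by
    calc (N : ℤ) * m' = m ^ 2 * m' + 3 * n * (m' * n) := by rw [← h]; ring
      _ = m ^ 2 * m' + 3 * n * (m * n') := by rw [hmn]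
      _ = (m * m' + 3 * (n * n')) * m := by ring
      _ = N * (α * m) := by rw [hα]; ring
  have hn' : (N : ℤ) * n' = N * (α * n) := by
    calc (N : ℤ) * n' = m * (m * n') + 3 * n ^ 2 * n' := by rw [← h]; ring
      _ = m * (m' * n) + 3 * n ^ 2 * n' := by rw [hmn]
      _ = (m * m' + 3 * (n * n')) * n := by ring
      _ = N * (α * n) := by rw [hα]; ring
  have hm2 : m' = α * m := mul_left_cancel₀ hNZ.ne' hm'
  have hn2 : n' = α * n := mul_left_cancel₀ hNZ.ne' hn'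
  rcases sq_eq_sq_iff_eq_or_eq_neg.1 (hα1.trans (one_pow 2).symm) with h11 | h11
  · left
    rw [hm2, hn2, h11]
    simp
  · right
    rw [hm2, hn2, h11]
    simp

end IRP

open IRP in
theorem pr_RP : S_RP := by
  intro N hN
  classical
  have : NeZero N := ⟨hN.ne'⟩
  set S : Set (ℤ × ℤ) := {q : ℤ × ℤ | IsCoprime q.1 q.2 ∧ q.1 ^ 2 + 3 * q.2 ^ 2 = N} with hS
  set T : Set (ZMod N) := {z : ZMod N | z ^ 2 = -3} with hT
  have hSfin : S.Finite := by
    refine ((Set.finite_Icc (-(N : ℤ)) N).prod (Set.finite_Icc (-(N : ℤ)) N)).subset ?_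
    rintro ⟨m, n⟩ ⟨-, hq⟩
    simp only at hq
    have hNZ : (1 : ℤ) ≤ N := by exact_mod_cast hN
    have hm : m ^ 2 ≤ (N : ℤ) ^ 2 := by nlinarith [sq_nonneg n, sq_nonneg m]
    have hn : n ^ 2 ≤ (N : ℤ) ^ 2 := by nlinarith [sq_nonneg n, sq_nonneg m]
    have hm2 := abs_le_of_sq_le_sq' hm (by linarith)
    have hn2 := abs_le_of_sq_le_sq' hn (by linarith)
    exact ⟨⟨hm2.1, hm2.2⟩, ⟨hn2.1, hn2.2⟩⟩
  have hTfin : T.Finite := Set.toFinite T
  have h1 : S.ncard = hSfin.toFinset.card := Set.ncard_eq_toFinset_card S hSfin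
  have h2 : T.ncard = hTfin.toFinset.card := Set.ncard_eq_toFinset_card T hTfin
  rw [h1, h2]
  have h3 : (hSfin.toFinset.image (f N)).card ≤ hTfin.toFinset.card := by
    apply Finset.card_le_card
    intro z hz
    rw [Finset.mem_image] at hz
    obtain ⟨⟨m, n⟩, hq, rfl⟩ := hz
    rw [Set.Finite.mem_toFinset] at hq ⊢
    exact f_sq N m n hq.1 hq.2
  refine le_trans (Finset.card_le_mul_card_image (f := f N) hSfin.toFinset 2 ?_) ?_
  · intro z hz
    rw [Finset.mem_image] at hz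
    obtain ⟨⟨m, n⟩, hq, rfl⟩ := hz
    rw [Set.Finite.mem_toFinset] at hq
    have h4 : (hSfin.toFinset.filter (fun x => f N x = f N (m, n))) ⊆ {(m, n), (-m, -n)} := by
      rintro ⟨m', n'⟩ hx
      rw [Finset.mem_filter, Set.Finite.mem_toFinset] at hx
      rw [Finset.mem_insert, Finset.mem_singleton]
      exact same N hN m n m' n' hq.1 hq.2 hx.1.1 hx.1.2 hx.2.symm
    exact le_trans (Finset.card_le_card h4) Finset.card_le_two
  · exact Nat.mul_le_mul_left 2 h3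

end Pool.Agent.Work.MP_bd3ec3_nt.LB
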