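import Pool.Agent.Work.MP_bd3ec3_nt.LB.Stmts

/-!
# MP_bd3ec3_nt, block LB, item RT: at most `d(N)` square roots of `-3` modulo `N`
-/

set_option autoImplicit false

namespace Pool.Agent.Work.MP_bd3ec3_nt.LB

namespace IRT

/-- Two roots modulo a prime power differ by the sign. -/
theorem pm (p e : ℕ) (hp : p.Prime) (h2 : p ≠ 2) (h3 : p ≠ 3) (he : 0 < e)
    (z w : ZMod (p ^ e)) (hz : z ^ 2 = -3) (hw : w ^ 2 = -3) : w = z ∨ w = -z := by
  have hpp : Prime (p : ℤ) := Nat.prime_iff_prime_int.1 hp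
  obtain ⟨a, rfl⟩ := ZMod.intCast_surjective z
  obtain ⟨b, rfl⟩ := ZMod.intCast_surjective w
  have ha : ((p ^ e : ℕ) : ℤ) ∣ a ^ 2 + 3 := by
    rw [← ZMod.intCast_zmod_eq_zero_iff_dvd]
    push_cast
    rw [hz]
    ring
  have hab : ((p ^ e : ℕ) : ℤ) ∣ (b - a) * (b + a) := by
    rw [← ZMod.intCast_zmod_eq_zero_iff_dvd]
    push_cast
    have : ((b : ZMod (p ^ e)) - a) * (b + a) = b ^ 2 - a ^ 2 := by ring
    rw [this, hz, hw]
    ring
  push_cast at ha hab
  have hnot : ¬ ((p : ℤ) ∣ b - a ∧ (p : ℤ) ∣ b + a) := by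
    rintro ⟨h, h'⟩
    have h4 : (p : ℤ) ∣ 2 * a := by
      have := dvd_sub h' h
      have e1 : b + a - (b - a) = 2 * a := by ring
      rwa [e1] at this
    rcases hpp.dvd_or_dvd h4 with h5 | h5
    · have h6 : p ∣ 2 := by exact_mod_cast h5
      exact h2 ((Nat.prime_dvd_prime_iff_eq hp Nat.prime_two).1 h6)
    · have h7 : (p : ℤ) ∣ a ^ 2 + 3 := (dvd_pow_self (p : ℤ) he.ne').trans ha
      have h8 : (p : ℤ) ∣ 3 := by
        have h9 : (p : ℤ) ∣ a ^ 2 := h5.trans (dvd_pow_self a two_ne_zero)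
        have := dvd_sub h7 h9
        have e1 : a ^ 2 + 3 - a ^ 2 = 3 := by ring
        rwa [e1] at this
      have h10 : p ∣ 3 := by exact_mod_cast h8
      exact h3 ((Nat.prime_dvd_prime_iff_eq hp Nat.prime_three).1 h10)
  by_cases hc : (p : ℤ) ∣ b - a
  · left
    have hd : ¬ (p : ℤ) ∣ b + a := fun h => hnot ⟨hc, h⟩
    have hcop : IsCoprime ((p : ℤ) ^ e) (b + a) :=
      (hpp.irreducible.coprime_iff_not_dvd.2 hd).pow_left
    have h1 : ((p ^ e : ℕ) : ℤ) ∣ b - a := by
      push_cast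
      exact hcop.dvd_of_dvd_mul_right hab
    rw [← ZMod.intCast_zmod_eq_zero_iff_dvd] at h1
    push_cast at h1
    exact sub_eq_zero.1 h1
  · right
    have hcop : IsCoprime ((p : ℤ) ^ e) (b - a) :=
      (hpp.irreducible.coprime_iff_not_dvd.2 hc).pow_left
    have h1 : ((p ^ e : ℕ) : ℤ) ∣ b + a := by
      push_cast
      exact hcop.dvd_of_dvd_mul_left hab
    rw [← ZMod.intCast_zmod_eq_zero_iff_dvd] at h1
    push_cast at h1
    exact eq_neg_of_add_eq_zero_left h1

end IRT

theorem pr_RT : S_RT := by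
  intro N
  induction N using Nat.recOnPosPrimePosCoprime with
  | zero => intro h; exact absurd h (lt_irrefl 0)
  | one =>
    intro _ _
    rw [Nat.divisors_one, Finset.card_singleton]
    refine (Set.ncard_le_one (Set.toFinite _)).2 ?_
    intro a _ b _
    exact Subsingleton.elim a b
  | prime_pow p e hp he =>
    intro _ h6
    have hpc : p.Coprime 6 := Nat.Coprime.coprime_dvd_left (dvd_pow_self p he.ne') h6
    have h2 : p ≠ 2 := by
      rintro rfl
      revert hpc
      decide
    have h3 : p ≠ 3 := by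
      rintro rfl
      revert hpc
      decide
    rw [Nat.divisors_prime_pow hp, Finset.card_map, Finset.card_range]
    rcases Set.eq_empty_or_nonempty {z : ZMod (p ^ e) | z ^ 2 = -3} with h0 | ⟨z, hz⟩
    · rw [h0, Set.ncard_empty]
      exact Nat.zero_le _
    · have hsub : {z : ZMod (p ^ e) | z ^ 2 = -3} ⊆ ({z, -z} : Set (ZMod (p ^ e))) := by
        intro w hw
        exact IRT.pm p e hp h2 h3 he z w hz hw
      refine (Set.ncard_le_ncard hsub (Set.toFinite _)).trans ?_
      refine (Set.ncard_insert_le z {-z}).trans ?_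
      rw [Set.ncard_singleton]
      omega
  | coprime a b ha hb hab iha ihb =>
    intro _ h6
    have ha6 : a.Coprime 6 := Nat.Coprime.coprime_dvd_left (Dvd.intro _ rfl) h6
    have hb6 : b.Coprime 6 := Nat.Coprime.coprime_dvd_left (Dvd.intro_left _ rfl) h6
    have : NeZero a := ⟨by omega⟩
    have : NeZero b := ⟨by omega⟩
    rw [hab.card_divisors_mul]
    refine le_trans ?_ (Nat.mul_le_mul (iha (by omega) ha6) (ihb (by omega) hb6))
    rw [← Set.ncard_prod]
    refine Set.ncard_le_ncard_of_injOn (ZMod.chineseRemainder hab) ?_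
      ((ZMod.chineseRemainder hab).injective.injOn) (Set.toFinite _)
    intro z hz
    have h1 : (ZMod.chineseRemainder hab z) ^ 2 = -3 := by
      rw [← map_pow, show z ^ 2 = -3 from hz, map_neg, map_ofNat]
    refine ⟨?_, ?_⟩
    · have := congrArg Prod.fst h1
      simpa using this
    · have := congrArg Prod.snd h1
      simpa using this

end Pool.Agent.Work.MP_bd3ec3_nt.LB
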