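import Pool.Agent.Work.MP_bd3ec3_nt.LB.Stmts

/-!
# MP_bd3ec3_nt, block LB, item TT: no point of order two
-/

set_option autoImplicit false

namespace Pool.Agent.Work.MP_bd3ec3_nt.LB

open WeierstrassCurve.Affine in
theorem pr_TT : S_TT := by
  intro k hk R hR
  have h1 : R = -R := eq_neg_of_add_eq_zero_left hR
  rcases R with _ | ⟨x, y, h⟩
  · rfl
  · exfalso
    rw [Point.neg_some] at h1
    have h3 : y = (Ek k).negY x y := by
      have h2 := Point.some.inj h1
      exact h2.2
    have h4 : y = 0 := by
      simp only [negY, Ek] at h3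
      linarith
    have h5 := (equation_iff (W := Ek k) x y).1 h.1
    simp only [Ek] at h5
    rw [h4] at h5
    apply hk (-x)
    linear_combination h5

end Pool.Agent.Work.MP_bd3ec3_nt.LB
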