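import Pool.Agent.Work.MP_bd3ec3_nt.LB.StmtsU

set_option autoImplicit false

namespace Pool.Agent.Work.MP_bd3ec3_nt.LB

namespace IWA2

lemma form (t v : ℤ) (ht : t % 42 = 17) (hv : v % 42 = 6) : ∃ m : ℤ, GG t v = 7 + 18 * m := by
  obtain ⟨a, ha⟩ : ∃ a, t = 5 + 6 * a := ⟨(t - 5) / 6, by omega⟩
  obtain ⟨b, hb⟩ : ∃ b, v = 6 * b := ⟨v / 6, by omega⟩
  subst ha; subst hb
  obtain ⟨c, hc⟩ : ∃ c, mm (5 + 6 * a) (6 * b) = 5 + 18 * c := by
    refine ⟨5 + 13 * a + 8 * a ^ 2 - 24 * (5 + 6 * a) * b ^ 2 + 2592 * b ^ 4 - 6 * b ^ 2, ?_⟩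
    unfold mm
    ring
  refine ⟨1 + 10 * c + 18 * c ^ 2 + 24 * 46656 * b ^ 6, ?_⟩
  unfold GG
  rw [hc]
  ring

lemma v2 (m : ℤ) : padicValInt 2 (4 * (7 + 18 * m)) = 2 := by
  have h1 : (7 + 18 * m : ℤ) ≠ 0 := by omega
  have h2 : padicValInt 2 (7 + 18 * m) = 0 := by
    apply padicValInt.eq_zero_of_not_dvd
    intro h
    have : (2 : ℤ) ∣ 7 + 18 * m := by exact_mod_cast h
    omega
  have h3 : padicValInt 2 4 = 2 := by
    have : (4 : ℤ) = ((2 ^ 2 : ℕ) : ℤ) := by norm_num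
    rw [this, padicValInt.of_nat, padicValNat.prime_pow]
  have : Fact (Nat.Prime 2) := ⟨Nat.prime_two⟩
  rw [padicValInt.mul (by norm_num) h1, h2, h3]

lemma v3 (m : ℤ) : padicValInt 3 (4 * (7 + 18 * m)) = 0 := by
  apply padicValInt.eq_zero_of_not_dvd
  intro h
  have : (3 : ℤ) ∣ 4 * (7 + 18 * m) := by exact_mod_cast h
  omega

end IWA2

theorem pr_WA2 : S_WA2 := by
  intro t v ht hv
  obtain ⟨m, hm⟩ := IWA2.form t v ht hv
  rw [hm]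
  constructor
  · unfold w2
    rw [IWA2.v2]
    rw [if_pos]
    right; left
    norm_num
  · unfold w3
    rw [IWA2.v3]
    rw [if_neg]
    rintro (⟨h | h, _⟩ | ⟨h | h, _⟩ | ⟨_, h⟩ | ⟨h, _⟩)
    · omega
    · omega
    · omega
    · omega
    · rw [pow_zero, Int.ediv_one] at h
      omega
    · omega

end Pool.Agent.Work.MP_bd3ec3_nt.LB
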