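import Pool.Agent.Work.MP_bd3ec3_nt.LB.StmtsU

/-!
# MP_bd3ec3_nt, block LB, item WB2: the primes at least five
-/

set_option autoImplicit false

open scoped BigOperators

namespace Pool.Agent.Work.MP_bd3ec3_nt.LB

namespace IWB2

theorem neg_three {p : ℕ} (hp : p % 2 = 1) (h3 : p % 3 = 1) : jacobiSym (-3) p = 1 := by
  have hodd : Odd p := Nat.odd_iff.mpr hp
  have h1 : jacobiSym (-3) p = jacobiSym (-1) p * jacobiSym 3 p := by
    rw [← jacobiSym.mul_left]
    norm_num
  have h2 : jacobiSym (-1) p = (-1) ^ (p / 2) := by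
    rw [jacobiSym.at_neg_one hodd, ZMod.χ₄_eq_neg_one_pow hp]
  have h4 : jacobiSym 3 p = (-1) ^ (p / 2) := by
    have h5 := jacobiSym.quadratic_reciprocity (a := 3) (b := p) (by decide) hodd
    have h6 : jacobiSym (p : ℤ) 3 = 1 := by
      rw [jacobiSym.mod_left]
      have h7 : (p : ℤ) % ((3 : ℕ) : ℤ) = 1 := by
        have : ((p % 3 : ℕ) : ℤ) = 1 := by rw [h3]; rfl
        rw [← this]
        push_cast
        rfl
      rw [h7]
      exact jacobiSym.one_left 3
    rw [h6, mul_one] at h5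
    have h8 : (3 / 2 : ℕ) = 1 := by norm_num
    rw [h8, one_mul] at h5
    exact_mod_cast h5
  rw [h1, h2, h4, ← pow_add, ← two_mul, pow_mul]
  norm_num

theorem neg_one_prod (s : Finset ℕ) (f : ℕ → ℕ) (hf : ∀ p ∈ s, f p ≠ 0) :
    jacobiSym (-1) (∏ p ∈ s, f p) = ∏ p ∈ s, jacobiSym (-1) (f p) := by
  classical
  induction s using Finset.induction_on with
  | empty => simp
  | insert a s ha ih =>
    rw [Finset.prod_insert ha, Finset.prod_insert ha,
      jacobiSym.mul_right' (-1) (hf a (Finset.mem_insert_self a s))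
        (Finset.prod_ne_zero_iff.mpr fun p hp => hf p (Finset.mem_insert_of_mem hp)),
      ih fun p hp => hf p (Finset.mem_insert_of_mem hp)]

end IWB2

open IWB2 in
theorem pr_WB2 : S_WB2 := by
  intro F hF0 hF4 hF3
  have hFne : F ≠ 0 := hF0.ne'
  have hodd : F % 2 = 1 := by omega
  have hpodd : ∀ p : ℕ, p.Prime → p ∣ F → p % 2 = 1 := by
    intro p hp hpF
    rcases hp.eq_two_or_odd with h | h
    · subst h
      omega
    · exact h
  have hp5 : ∀ p : ℕ, p.Prime → p ∣ F → 5 ≤ p := by
    intro p hp hpF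
    have h1 := hpodd p hp hpF
    have h2 := hF3 p hp hpF
    have h3 := hp.two_le
    have h4 : p ≠ 1 := hp.ne_one
    omega
  have hnat : (4 * (F : ℤ)).natAbs = 4 * F := by
    rw [Int.natAbs_mul, Int.natAbs_natCast]
    rfl
  have hset : (4 * (F : ℤ)).natAbs.primeFactors.filter (fun p => 5 ≤ p) = F.primeFactors := by
    rw [hnat]
    ext p
    rw [Finset.mem_filter, Nat.mem_primeFactors, Nat.mem_primeFactors]
    constructor
    · rintro ⟨⟨hp, hd, _⟩, h5⟩
      refine ⟨hp, ?_, hFne⟩
      rcases (Nat.Prime.dvd_mul hp).mp hd with h | h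
      · exfalso
        have h4' : p ∣ 2 ^ 2 := by norm_num; exact h
        have := (Nat.prime_dvd_prime_iff_eq hp Nat.prime_two).mp (hp.dvd_of_dvd_pow h4')
        omega
      · exact h
    · rintro ⟨hp, hd, _⟩
      exact ⟨⟨hp, Dvd.dvd.mul_left hd 4, by positivity⟩, hp5 p hp hd⟩
  rw [hset]
  have hterm : ∀ p ∈ F.primeFactors, wp p (4 * (F : ℤ)) = jacobiSym (-1) (p ^ F.factorization p) := by
    intro p hpF
    obtain ⟨hp, hd, _⟩ := Nat.mem_primeFactors.mp hpF
    haveI : Fact p.Prime := ⟨hp⟩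
    have hval : padicValInt p (4 * (F : ℤ)) = F.factorization p := by
      rw [padicValInt, hnat, padicValNat.mul (by norm_num) hFne, padicValNat.eq_zero_of_not_dvd,
        zero_add, Nat.factorization_def F hp]
      intro h
      have h4' : p ∣ 2 ^ 2 := by norm_num; exact h
      have h2 := (Nat.prime_dvd_prime_iff_eq hp Nat.prime_two).mp (hp.dvd_of_dvd_pow h4')
      have := hp5 p hp hd
      omega
    have hsq : jacobiSym (-1) p ^ 2 = 1 := by
      rw [jacobiSym.at_neg_one (Nat.odd_iff.mpr (hpodd p hp hd)),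
        ZMod.χ₄_eq_neg_one_pow (hpodd p hp hd), ← pow_mul, mul_comm, pow_mul]
      norm_num
    have hpow : ∀ v : ℕ, jacobiSym (-1) p ^ v = if v % 2 = 1 then jacobiSym (-1) p else 1 := by
      intro v
      have hv : v = 2 * (v / 2) + v % 2 := (Nat.div_add_mod v 2).symm
      have h1 : jacobiSym (-1) p ^ v = jacobiSym (-1) p ^ (v % 2) := by
        conv_lhs => rw [hv]
        rw [pow_add, pow_mul, hsq, one_pow, one_mul]
      rw [h1]
      rcases Nat.mod_two_eq_zero_or_one v with h | h
      · rw [h, pow_zero, if_neg (by norm_num)]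
      · rw [h, pow_one, if_pos rfl]
    rw [jacobiSym.pow_right, hpow, wp, hval]
    split_ifs with h1 h2
    · rfl
    · rfl
    · exact neg_three (hpodd p hp hd) (hF3 p hp hd)
  rw [Finset.prod_congr rfl hterm, ← neg_one_prod F.primeFactors (fun p => p ^ F.factorization p)
    (fun p hp => pow_ne_zero _ (Nat.mem_primeFactors.mp hp).1.ne_zero)]
  have hprod : ∏ p ∈ F.primeFactors, p ^ F.factorization p = F :=
    Nat.factorization_prod_pow_eq_self hFne
  rw [hprod, jacobiSym.at_neg_one (Nat.odd_iff.mpr hodd)]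
  exact ZMod.χ₄_nat_one_mod_four hF4

end Pool.Agent.Work.MP_bd3ec3_nt.LB
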