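import Pool.Agent.Work.MP_bd3ec3_nt.LB.StmtsU

/-!
# MP_bd3ec3_nt, block LB, item WW2: the root number of the curves of the larger family
-/

set_option autoImplicit false

open scoped BigOperators

namespace Pool.Agent.Work.MP_bd3ec3_nt.LB

namespace IWW2

theorem GG_pos {t v : ℤ} (hv : v ≠ 0) : 0 < GG t v := by
  have h1 : 0 < v ^ 6 := by positivity
  have h2 : 0 ≤ mm t v ^ 2 := sq_nonneg _
  unfold GG
  linarith

theorem GG_mod_four {t v : ℤ} (ht : t % 42 = 17) (hv : v % 42 = 6) : GG t v % 4 = 1 := by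
  obtain ⟨a, ha⟩ : ∃ a : ℤ, t = 2 * a + 1 := ⟨t / 2, by omega⟩
  obtain ⟨b, hb⟩ : ∃ b : ℤ, v = 2 * b := ⟨v / 2, by omega⟩
  obtain ⟨c, hc⟩ : ∃ c : ℤ, mm t v = 2 * c + 1 :=
    ⟨2 * (t ^ 2 - 3 * t * v ^ 2 + 9 * v ^ 4) - a - 1 - 6 * b ^ 2, by
      unfold mm
      rw [ha, hb]
      ring⟩
  have h : GG t v = 4 * (c ^ 2 + c + 108 * v ^ 6) + 1 := by
    unfold GG
    rw [hc]
    ring
  omega

end IWW2

theorem pr_WW2 (hPR : S_PR2) (hWA : S_WA2) (hWB : S_WB2) : S_WW2 := by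
  intro t v ht hv hc
  have hv0 : v ≠ 0 := by
    intro h
    rw [h] at hv
    norm_num at hv
  have hpos : 0 < GG t v := IWW2.GG_pos hv0
  have h4 : GG t v % 4 = 1 := IWW2.GG_mod_four ht hv
  obtain ⟨F, hF⟩ : ∃ F : ℕ, (F : ℤ) = GG t v := ⟨(GG t v).toNat, Int.toNat_of_nonneg hpos.le⟩
  obtain ⟨h2, h3⟩ := hWA t v ht hv
  have hFpos : 0 < F := by omega
  have hF4 : F % 4 = 1 := by omega
  have hB := hWB F hFpos hF4 (fun p hp hpF => by
    have hd : (p : ℤ) ∣ GG t v := by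
      rw [← hF]
      exact_mod_cast hpF
    exact (hPR t v ht hv hc p hp hd).1)
  rw [hF] at hB
  unfold rootNumber
  rw [h2, h3, hB]
  norm_num

end Pool.Agent.Work.MP_bd3ec3_nt.LB
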