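import Pool.Agent.Work.MP_bd3ec3_nt.LB.Stmts

/-! MP_bd3ec3_nt, block LB, item DB (helper90): halving a point of `y² = x³ + k`. -/

set_option autoImplicit false

namespace Pool.Agent.Work.MP_bd3ec3_nt.LB

namespace IDB

theorem isX_some (k : ℤ) (x' y' x : ℚ) (h : (Ek k).Nonsingular x' y')
    (hx : IsX k (WeierstrassCurve.Affine.Point.some x' y' h) x) : x' = x := hx

theorem isX_zero (k : ℤ) (x : ℚ)
    (hx : IsX k (WeierstrassCurve.Affine.Point.zero : (Ek k).Point) x) : False := hx

theorem isX_zero' (k : ℤ) (x : ℚ) (hx : IsX k (0 : (Ek k).Point) x) : False := hx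

theorem alg (k z y x : ℚ) (hy : y ≠ 0) (h : y ^ 2 = z ^ 3 + k)
    (hx : (3 * z ^ 2 / (y + y)) ^ 2 - z - z = x) :
    z ^ 4 - 4 * x * z ^ 3 - 8 * k * z - 4 * k * x = 0 := by
  have h2 : (3 * z ^ 2 / (y + y)) ^ 2 * (4 * y ^ 2) = 9 * z ^ 4 := by
    field_simp
    ring
  have h3 : x * (4 * y ^ 2) = 9 * z ^ 4 - 2 * z * (4 * y ^ 2) := by
    rw [← hx]
    linear_combination h2
  rw [h] at h3
  linear_combination -h3

end IDB

theorem pr_DB : S_DB := by
  intro k P R x hP hPR
  rcases R with _ | ⟨z, y, hR⟩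
  · exfalso
    apply IDB.isX_zero' k x
    rw [hPR] at hP
    have h0 : (WeierstrassCurve.Affine.Point.zero + WeierstrassCurve.Affine.Point.zero :
        (Ek k).Point) = 0 := by
      change (0 : (Ek k).Point) + 0 = 0
      exact add_zero 0
    rw [h0] at hP
    exact hP
  · have heq : y ^ 2 = z ^ 3 + (k : ℚ) := by
      have h1 := hR.1
      rw [WeierstrassCurve.Affine.equation_iff] at h1
      simpa [Ek] using h1
    by_cases hy : y = (Ek k).negY z y
    · exfalso
      apply IDB.isX_zero' k x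
      rw [hPR, WeierstrassCurve.Affine.Point.add_self_of_Y_eq hy] at hP
      exact hP
    · rw [hPR, WeierstrassCurve.Affine.Point.add_self_of_Y_ne hy] at hP
      have h2 := IDB.isX_some k _ _ x _ hP
      rw [WeierstrassCurve.Affine.slope_of_Y_ne rfl hy] at h2
      have hy0 : y ≠ 0 := by
        intro h0
        apply hy
        simp [Ek, WeierstrassCurve.Affine.negY, h0]
      refine ⟨z, IDB.alg (k : ℚ) z y x hy0 heq ?_⟩
      simpa [Ek, WeierstrassCurve.Affine.negY, WeierstrassCurve.Affine.addX] using h2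

end Pool.Agent.Work.MP_bd3ec3_nt.LB
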