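import Pool.Agent.Work.MP_bd3ec3_nt.LB.Stmts

/-!
# MP_bd3ec3_nt, block LB, item FB: few pairs with the same value of the form
-/

set_option autoImplicit false

namespace Pool.Agent.Work.MP_bd3ec3_nt.LB

namespace IFB

/-- The value modulo six. -/
theorem mod6 (r s : ℤ) (hr : r % 42 = 1) (hs : s % 42 = 24) :
    ∃ k : ℤ, r ^ 3 - 26 * s ^ 3 = 1 + 6 * k := by
  obtain ⟨a, ha⟩ : ∃ a, r = 1 + 6 * a := ⟨7 * (r / 42), by omega⟩
  obtain ⟨b, hb⟩ : ∃ b, s = 6 * b := ⟨7 * (s / 42) + 4, by omega⟩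
  refine ⟨3 * a + 18 * a ^ 2 + 36 * a ^ 3 - 936 * b ^ 3, ?_⟩
  rw [ha, hb]
  ring

theorem cop (r s : ℤ) (hr : r % 42 = 1) (hs : s % 42 = 24) (h : IsCoprime r s) :
    IsCoprime (r ^ 3 - 26 * s ^ 3) (6 * s ^ 3) := by
  apply IsCoprime.mul_right
  · obtain ⟨k, hk⟩ := mod6 r s hr hs
    rw [hk]
    exact ⟨1, -k, by ring⟩
  · have h1 : IsCoprime (r ^ 3) (s ^ 3) := h.pow
    have h2 : r ^ 3 - 26 * s ^ 3 = r ^ 3 + s ^ 3 * (-26) := by ring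
    rw [h2]
    exact IsCoprime.add_mul_left_left h1 (-26)

theorem cube_inj {a b : ℤ} (h : a ^ 3 = b ^ 3) : a = b :=
  (Odd.strictMono_pow (by decide : Odd 3)).injective h

theorem fin (N : ℕ) : {q : ℤ × ℤ | IsCoprime q.1 q.2 ∧ q.1 ^ 2 + 3 * q.2 ^ 2 = N}.Finite := by
  refine Set.Finite.subset ((Set.finite_Icc (-(N : ℤ)) N).prod (Set.finite_Icc (-(N : ℤ)) N)) ?_
  rintro ⟨a, b⟩ ⟨-, h⟩
  have h1 : a ≤ a ^ 2 := Int.le_self_sq a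
  have h2 : -a ≤ (-a) ^ 2 := Int.le_self_sq (-a)
  have h3 : b ≤ b ^ 2 := Int.le_self_sq b
  have h4 : -b ≤ (-b) ^ 2 := Int.le_self_sq (-b)
  have h5 : 0 ≤ a ^ 2 := sq_nonneg a
  have h6 : 0 ≤ b ^ 2 := sq_nonneg b
  simp only at h
  rw [neg_sq] at h2 h4
  exact ⟨⟨by linarith, by linarith⟩, ⟨by linarith, by linarith⟩⟩

end IFB

theorem pr_FB (hRP : S_RP) (hRT : S_RT) (hDV : S_DV) : S_FB := by
  intro ε hε
  obtain ⟨C, hC, hD⟩ := hDV ε hε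
  refine ⟨2 * C, by positivity, ?_⟩
  intro N hN
  have hN0 : (0 : ℝ) ≤ (N : ℝ) ^ ε := Real.rpow_nonneg (Nat.cast_nonneg N) ε
  by_cases hne : {q : ℤ × ℤ | q.1 % 42 = 1 ∧ q.2 % 42 = 24 ∧ IsCoprime q.1 q.2 ∧ FF q.1 q.2 = (N : ℤ)}.Nonempty
  · obtain ⟨⟨r, s⟩, hr, hs, -, hF⟩ := hne
    have hcop : N.Coprime 6 := by
      obtain ⟨k, hk⟩ := IFB.mod6 r s hr hs
      have h1 : (N : ℤ) = 1 + 6 * (2 * k + 6 * k ^ 2 + 18 * s ^ 6) := by
        rw [← hF]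
        unfold FF
        simp only
        rw [hk]
        ring
      have h2 : N % 6 = 1 := by omega
      have h3 : Nat.gcd N 6 = 1 := by
        rw [Nat.gcd_comm, Nat.gcd_rec, h2]
        simp
      exact h3
    have h1 : Set.ncard {q : ℤ × ℤ | q.1 % 42 = 1 ∧ q.2 % 42 = 24 ∧ IsCoprime q.1 q.2 ∧ FF q.1 q.2 = (N : ℤ)} ≤
        Set.ncard {q : ℤ × ℤ | IsCoprime q.1 q.2 ∧ q.1 ^ 2 + 3 * q.2 ^ 2 = N} := by
      refine Set.ncard_le_ncard_of_injOn (fun q : ℤ × ℤ => (q.1 ^ 3 - 26 * q.2 ^ 3, 6 * q.2 ^ 3)) ?_ ?_ (IFB.fin N)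
      · rintro ⟨a, b⟩ ⟨h1, h2, h3, h4⟩
        refine ⟨IFB.cop a b h1 h2 h3, ?_⟩
        rw [← h4]
        unfold FF
        simp only
        ring
      · rintro ⟨a, b⟩ - ⟨a', b'⟩ - h
        simp only [Prod.mk.injEq] at h
        have hb : b = b' := IFB.cube_inj (by linarith [h.2])
        subst hb
        have ha : a = a' := IFB.cube_inj (by linarith [h.1])
        subst ha
        rfl
    have h2 := (h1.trans (hRP N hN)).trans (Nat.mul_le_mul_left 2 (hRT N hN hcop))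
    have h3 : (Set.ncard {q : ℤ × ℤ | q.1 % 42 = 1 ∧ q.2 % 42 = 24 ∧ IsCoprime q.1 q.2 ∧ FF q.1 q.2 = (N : ℤ)} : ℝ) ≤
        2 * (N.divisors.card : ℝ) := by exact_mod_cast h2
    have h4 := hD N hN
    linarith
  · rw [Set.not_nonempty_iff_eq_empty.1 hne, Set.ncard_empty, Nat.cast_zero]
    positivity

end Pool.Agent.Work.MP_bd3ec3_nt.LB
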