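import Pool.Agent.Work.MP_bd3ec3_nt.LB.Stmts

set_option autoImplicit false

open scoped BigOperators

namespace Pool.Agent.Work.MP_bd3ec3_nt.LB

namespace IFN

theorem FF_pos (r s : ℤ) (hs : s ≠ 0) : 0 < FF r s := by
  unfold FF
  have h1 : 0 < s ^ 6 := by positivity
  nlinarith [sq_nonneg (r ^ 3 - 26 * s ^ 3)]

theorem FF_le (r s B : ℤ) (hr : 0 ≤ r) (hs : 0 ≤ s) (hrB : r ≤ B) (hsB : s ≤ B) :
    FF r s ≤ 784 * B ^ 6 := by
  have h1 : r ^ 3 ≤ B ^ 3 := pow_le_pow_left₀ hr hrB 3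
  have h2 : s ^ 3 ≤ B ^ 3 := pow_le_pow_left₀ hs hsB 3
  have h3 : 0 ≤ r ^ 3 := by positivity
  have h4 : 0 ≤ s ^ 3 := by positivity
  have h5 : (r ^ 3 - 26 * s ^ 3) ^ 2 ≤ (26 * B ^ 3) ^ 2 := by
    apply sq_le_sq'
    · linarith
    · linarith
  have h6 : (s ^ 3) ^ 2 ≤ (B ^ 3) ^ 2 := pow_le_pow_left₀ h4 h2 2
  have e1 : s ^ 6 = (s ^ 3) ^ 2 := by ring
  have e2 : B ^ 6 = (B ^ 3) ^ 2 := by ring
  have e3 : (26 * B ^ 3) ^ 2 = 676 * (B ^ 3) ^ 2 := by ring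
  unfold FF
  rw [e1, e2]
  linarith

theorem abs_le_pow (x : ℤ) (n : ℕ) (hn : n ≠ 0) : |x| ≤ |x| ^ n := by
  rcases eq_or_ne x 0 with h | h
  · subst h
    simp [hn]
  · exact le_self_pow₀ (Int.one_le_abs h) hn

theorem fib_finite (N : ℕ) : {q : ℤ × ℤ | q.1 % 42 = 1 ∧ q.2 % 42 = 24 ∧ IsCoprime q.1 q.2 ∧
    FF q.1 q.2 = (N : ℤ)}.Finite := by
  refine Set.Finite.subset ((Set.finite_Icc (-(26 * (N : ℤ) ^ 3 + N)) (26 * (N : ℤ) ^ 3 + N)).prod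
    (Set.finite_Icc (-(26 * (N : ℤ) ^ 3 + N)) (26 * (N : ℤ) ^ 3 + N))) ?_
  rintro ⟨r, s⟩ ⟨-, -, -, h⟩
  simp only at h
  have hN : (0 : ℤ) ≤ N := Int.natCast_nonneg N
  have hN3 : (0 : ℤ) ≤ (N : ℤ) ^ 3 := by positivity
  unfold FF at h
  have h6 : 0 ≤ s ^ 6 := by positivity
  have hs : |s| ≤ (N : ℤ) := by
    have h1 := abs_le_pow s 6 (by norm_num)
    have h2 : |s| ^ 6 = s ^ 6 := by
      rw [pow_abs, abs_of_nonneg h6]
    nlinarith [sq_nonneg (r ^ 3 - 26 * s ^ 3)]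
  have hr1 : |r ^ 3 - 26 * s ^ 3| ≤ (N : ℤ) := by
    have h1 := abs_le_pow (r ^ 3 - 26 * s ^ 3) 2 (by norm_num)
    rw [sq_abs] at h1
    linarith
  have hs3 : |s| ^ 3 ≤ (N : ℤ) ^ 3 := pow_le_pow_left₀ (abs_nonneg s) hs 3
  have hr3 : |r| ^ 3 ≤ 26 * (N : ℤ) ^ 3 + N := by
    have h1 : |r ^ 3| ≤ |r ^ 3 - 26 * s ^ 3| + |26 * s ^ 3| := by
      have := abs_add_le (r ^ 3 - 26 * s ^ 3) (26 * s ^ 3)
      simpa using this
    have h2 : |26 * s ^ 3| = 26 * |s| ^ 3 := by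
      rw [abs_mul, abs_pow]
      norm_num
    rw [abs_pow] at h1
    linarith
  have hr : |r| ≤ 26 * (N : ℤ) ^ 3 + N := (abs_le_pow r 3 (by norm_num)).trans hr3
  have hs' : |s| ≤ 26 * (N : ℤ) ^ 3 + N := by linarith
  exact ⟨Set.mem_Icc.2 (abs_le.1 hr), Set.mem_Icc.2 (abs_le.1 hs')⟩

open Classical in
theorem pairs_fin (Y : ℕ) (P : ℤ → ℤ → Prop) : ∃ A : Finset (ℕ × ℕ),
    (∀ q : ℕ × ℕ, q ∈ A ↔ (q.1 < Y ∧ q.2 < Y) ∧ P (1 + 42 * (q.1 : ℤ)) (24 + 42 * (q.2 : ℤ))) ∧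
    (Pairs Y P).ncard = A.card := by
  refine ⟨(Finset.range Y ×ˢ Finset.range Y).filter
      (fun q : ℕ × ℕ => P (1 + 42 * (q.1 : ℤ)) (24 + 42 * (q.2 : ℤ))), ?_, ?_⟩
  · intro q
    rw [Finset.mem_filter, Finset.mem_product, Finset.mem_range, Finset.mem_range]
  · rw [← Set.ncard_coe_finset]
    congr 1
    ext q
    rw [Finset.mem_coe, Finset.mem_filter, Finset.mem_product, Finset.mem_range, Finset.mem_range,
      and_assoc]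
    rfl

theorem good_finite (H : ℝ) : (Good H).Finite := by
  refine Set.Finite.subset (Set.finite_Icc (-(⌈H⌉)) ⌈H⌉) ?_
  rintro k ⟨-, -, h, -, -⟩
  have h1 : (|k| : ℤ) ≤ ⌈H⌉ := by
    have h2 := abs_le_pow k 2 (by norm_num)
    rw [sq_abs] at h2
    have h3 : ((|k| : ℤ) : ℝ) ≤ H := by
      have h4 : ((|k| : ℤ) : ℝ) ≤ (k : ℝ) ^ 2 := by exact_mod_cast h2
      nlinarith [sq_nonneg (k : ℝ)]
    exact_mod_cast h3.trans (Int.le_ceil H)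
  exact Set.mem_Icc.2 (abs_le.1 h1)

end IFN

open IFN

open Classical in
theorem pr_FN (hRK : S_RK) (hWW : S_WW) (hFB : S_FB) (hGC : S_GC) (hGX : S_GX) : S_FN := by
  intro ε hε
  obtain ⟨C, hC, hFBC⟩ := hFB ε hε
  obtain ⟨Y0, hY0⟩ := hGC
  obtain ⟨Y1, hY1⟩ := hGX
  refine ⟨1 / (2000000 * C), by positivity, (1000 * ((Y0 : ℝ) + Y1 + 1)) ^ 12, ?_⟩
  intro H hH
  have hH0 : 0 < H := lt_of_lt_of_le (by positivity) hH
  obtain ⟨h, hh⟩ : ∃ h : ℝ, h = H ^ ((1 : ℝ) / 12) := ⟨_, rfl⟩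
  have hh0 : 0 < h := by
    rw [hh]
    exact Real.rpow_pos_of_pos hH0 _
  have hh12 : h ^ 12 = H := by
    rw [hh, ← Real.rpow_natCast, ← Real.rpow_mul hH0.le]
    norm_num
  have hh2 : h ^ 2 = H ^ ((1 : ℝ) / 6) := by
    rw [hh, ← Real.rpow_natCast, ← Real.rpow_mul hH0.le]
    norm_num
  have hbig : 1000 * ((Y0 : ℝ) + Y1 + 1) ≤ h := by
    by_contra hcon
    push Not at hcon
    have := pow_lt_pow_left₀ hcon hh0.le (n := 12) (by norm_num)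
    rw [hh12] at this
    linarith
  have hY0n : (0 : ℝ) ≤ Y0 := Nat.cast_nonneg _
  have hY1n : (0 : ℝ) ≤ Y1 := Nat.cast_nonneg _
  obtain ⟨Y, hY⟩ : ∃ Y : ℕ, Y = ⌊h / 500⌋₊ := ⟨_, rfl⟩
  have hYle : (Y : ℝ) ≤ h / 500 := by
    rw [hY]
    exact Nat.floor_le (by positivity)
  have hYge : h / 1000 ≤ Y := by
    have h1 := Nat.lt_floor_add_one (h / 500)
    rw [← hY] at h1
    linarith
  have hYY : (Y0 : ℝ) + Y1 + 1 ≤ Y := by linarith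
  have hYY0 : Y0 ≤ Y := by
    have : (Y0 : ℝ) ≤ Y := by linarith
    exact_mod_cast this
  have hYY1 : Y1 ≤ Y := by
    have : (Y1 : ℝ) ≤ Y := by linarith
    exact_mod_cast this
  have hYpos : 1 ≤ Y := by
    have : (1 : ℝ) ≤ Y := by linarith
    exact_mod_cast this
  have hA := hY0 Y hYY0
  have hB := hY1 Y hYY1
  obtain ⟨A1, hA1, hA1c⟩ := pairs_fin Y (fun r s => ¬ IsCoprime r s)
  obtain ⟨A2, hA2, hA2c⟩ := pairs_fin Y
    (fun r s => IsCoprime r s ∧ ∃ p : ℕ, p.Prime ∧ (p : ℤ) ^ 6 ∣ 16 * FF r s)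
  rw [hA1c] at hA
  rw [hA2c] at hB
  -- the good pairs
  obtain ⟨S, hS, -⟩ := pairs_fin Y
    (fun r s => IsCoprime r s ∧ ∀ p : ℕ, p.Prime → ¬ (p : ℤ) ^ 6 ∣ 16 * FF r s)
  have hcard : Y ^ 2 ≤ 2 * S.card := by
    have h1 : (Finset.range Y ×ˢ Finset.range Y) ⊆ S ∪ (A1 ∪ A2) := by
      intro q hq
      rw [Finset.mem_product, Finset.mem_range, Finset.mem_range] at hq
      rw [Finset.mem_union, Finset.mem_union, hS, hA1, hA2]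
      by_cases hc : IsCoprime (1 + 42 * (q.1 : ℤ)) (24 + 42 * (q.2 : ℤ))
      · by_cases hp : ∃ p : ℕ, p.Prime ∧ (p : ℤ) ^ 6 ∣
              16 * FF (1 + 42 * (q.1 : ℤ)) (24 + 42 * (q.2 : ℤ))
        · exact Or.inr (Or.inr ⟨hq, hc, hp⟩)
        · exact Or.inl ⟨hq, hc, fun p hp1 hp2 => hp ⟨p, hp1, hp2⟩⟩
      · exact Or.inr (Or.inl ⟨hq, hc⟩)
    have h2 := Finset.card_le_card h1
    have h3 := Finset.card_union_le S (A1 ∪ A2)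
    have h4 := Finset.card_union_le A1 A2
    have h5 : (Finset.range Y ×ˢ Finset.range Y).card = Y ^ 2 := by
      rw [Finset.card_product, Finset.card_range, sq]
    rw [h5] at h2
    omega
  -- the values
  have hval : ∀ q ∈ S, 16 * FF (1 + 42 * (q.1 : ℤ)) (24 + 42 * (q.2 : ℤ)) ∈ Good H := by
    intro q hq
    rw [hS] at hq
    obtain ⟨⟨hi, hj⟩, hc, hp⟩ := hq
    have hr : (1 + 42 * (q.1 : ℤ)) % 42 = 1 := by omega
    have hs : (24 + 42 * (q.2 : ℤ)) % 42 = 24 := by omega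
    have hs0 : (24 + 42 * (q.2 : ℤ)) ≠ 0 := by omega
    have hF := FF_pos (1 + 42 * (q.1 : ℤ)) (24 + 42 * (q.2 : ℤ)) hs0
    refine ⟨by omega, hp, ?_, hWW _ _ hr hs hc, hRK _ _ hr hs⟩
    have hFl := FF_le (1 + 42 * (q.1 : ℤ)) (24 + 42 * (q.2 : ℤ)) (66 * (Y : ℤ)) (by omega)
      (by omega) (by omega) (by omega)
    have hFr : ((FF (1 + 42 * (q.1 : ℤ)) (24 + 42 * (q.2 : ℤ)) : ℤ) : ℝ) ≤
        784 * (66 * (Y : ℝ)) ^ 6 := by exact_mod_cast hFl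
    have hF0 : (0 : ℝ) < ((FF (1 + 42 * (q.1 : ℤ)) (24 + 42 * (q.2 : ℤ)) : ℤ) : ℝ) := by
      exact_mod_cast hF
    have hY66 : (66 * (Y : ℝ)) ≤ 66 / 500 * h := by linarith
    have hY6 : (66 * (Y : ℝ)) ^ 6 ≤ (66 / 500 * h) ^ 6 :=
      pow_le_pow_left₀ (by positivity) hY66 6
    have hF2 : ((FF (1 + 42 * (q.1 : ℤ)) (24 + 42 * (q.2 : ℤ)) : ℤ) : ℝ) ≤
        784 * (66 / 500 * h) ^ 6 := by linarith
    have hF3 : ((FF (1 + 42 * (q.1 : ℤ)) (24 + 42 * (q.2 : ℤ)) : ℤ) : ℝ) ^ 2 ≤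
        (784 * (66 / 500 * h) ^ 6) ^ 2 := pow_le_pow_left₀ hF0.le hF2 2
    have hF4 : (784 * (66 / 500 * h) ^ 6) ^ 2 = 784 ^ 2 * (66 / 500) ^ 12 * H := by
      rw [← hh12]
      ring
    rw [hF4] at hF3
    push_cast
    have hconst : (27 : ℝ) * 256 * (784 ^ 2 * (66 / 500) ^ 12) ≤ 1 := by norm_num
    nlinarith
  have hgf := good_finite H
  -- fibres
  have hfib : ∀ b ∈ hgf.toFinset, (S.filter (fun q : ℕ × ℕ =>
      16 * FF (1 + 42 * (q.1 : ℤ)) (24 + 42 * (q.2 : ℤ)) = b)).card ≤ ⌊C * H ^ ε⌋₊ := by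
    intro b hb
    rw [Set.Finite.mem_toFinset] at hb
    rcases (S.filter (fun q : ℕ × ℕ =>
      16 * FF (1 + 42 * (q.1 : ℤ)) (24 + 42 * (q.2 : ℤ)) = b)).eq_empty_or_nonempty with he | he
    · rw [he]
      simp
    obtain ⟨q0, hq0⟩ := he
    rw [Finset.mem_filter] at hq0
    have hs0 : (24 + 42 * (q0.2 : ℤ)) ≠ 0 := by omega
    have hF := FF_pos (1 + 42 * (q0.1 : ℤ)) (24 + 42 * (q0.2 : ℤ)) hs0
    obtain ⟨N, hN⟩ : ∃ N : ℕ, FF (1 + 42 * (q0.1 : ℤ)) (24 + 42 * (q0.2 : ℤ)) = (N : ℤ) :=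
      ⟨_, (Int.toNat_of_nonneg hF.le).symm⟩
    have hN1 : 1 ≤ N := by
      rw [hN] at hF
      exact_mod_cast hF
    have hbN : b = 16 * (N : ℤ) := by rw [← hq0.2, hN]
    have hle : (S.filter (fun q : ℕ × ℕ =>
        16 * FF (1 + 42 * (q.1 : ℤ)) (24 + 42 * (q.2 : ℤ)) = b)).card ≤
        Set.ncard {q : ℤ × ℤ | q.1 % 42 = 1 ∧ q.2 % 42 = 24 ∧ IsCoprime q.1 q.2 ∧
          FF q.1 q.2 = (N : ℤ)} := by
      rw [← Set.ncard_coe_finset]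
      refine Set.ncard_le_ncard_of_injOn
        (fun q : ℕ × ℕ => ((1 + 42 * (q.1 : ℤ), 24 + 42 * (q.2 : ℤ)) : ℤ × ℤ)) ?_ ?_ (fib_finite N)
      · intro q hq
        rw [Finset.mem_coe, Finset.mem_filter] at hq
        obtain ⟨hq1, hq2⟩ := hq
        rw [hS] at hq1
        refine ⟨?_, ?_, hq1.2.1, ?_⟩
        · show (1 + 42 * (q.1 : ℤ)) % 42 = 1
          omega
        · show (24 + 42 * (q.2 : ℤ)) % 42 = 24
          omega
        · show FF (1 + 42 * (q.1 : ℤ)) (24 + 42 * (q.2 : ℤ)) = (N : ℤ)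
          rw [hbN] at hq2
          omega
      · intro q hq q' hq' hqq
        simp only [Prod.mk.injEq] at hqq
        obtain ⟨h1, h2⟩ := hqq
        ext
        · omega
        · omega
    apply Nat.le_floor
    have h1 := hFBC N hN1
    have hNH : (N : ℝ) ≤ H := by
      obtain ⟨-, -, h2, -, -⟩ := hb
      rw [hbN] at h2
      push_cast at h2
      have hN1r : (1 : ℝ) ≤ N := by exact_mod_cast hN1
      nlinarith
    have h2 : (N : ℝ) ^ ε ≤ H ^ ε := Real.rpow_le_rpow (Nat.cast_nonneg _) hNH hε.le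
    have h3 : C * (N : ℝ) ^ ε ≤ C * H ^ ε := mul_le_mul_of_nonneg_left h2 hC.le
    have h4 : ((S.filter (fun q : ℕ × ℕ =>
        16 * FF (1 + 42 * (q.1 : ℤ)) (24 + 42 * (q.2 : ℤ)) = b)).card : ℝ) ≤
        (Set.ncard {q : ℤ × ℤ | q.1 % 42 = 1 ∧ q.2 % 42 = 24 ∧ IsCoprime q.1 q.2 ∧
          FF q.1 q.2 = (N : ℤ)} : ℝ) := by exact_mod_cast hle
    linarith
  have hmain := Finset.card_le_mul_card_image_of_maps_to (s := S) (t := hgf.toFinset)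
    (f := fun q : ℕ × ℕ => 16 * FF (1 + 42 * (q.1 : ℤ)) (24 + 42 * (q.2 : ℤ)))
    (fun q hq => (Set.Finite.mem_toFinset hgf).2 (hval q hq)) _ hfib
  have hgc : (Good H).ncard = hgf.toFinset.card := Set.ncard_eq_toFinset_card (Good H) hgf
  rw [← hgc] at hmain
  have hHe : 0 < H ^ ε := Real.rpow_pos_of_pos hH0 _
  have hCH : 0 < C * H ^ ε := mul_pos hC hHe
  have h1 : (S.card : ℝ) ≤ C * H ^ ε * ((Good H).ncard : ℝ) := by
    have h2 : (S.card : ℝ) ≤ (⌊C * H ^ ε⌋₊ : ℝ) * ((Good H).ncard : ℝ) := by exact_mod_cast hmain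
    have h3 : (⌊C * H ^ ε⌋₊ : ℝ) ≤ C * H ^ ε := Nat.floor_le hCH.le
    have h4 : (0 : ℝ) ≤ ((Good H).ncard : ℝ) := Nat.cast_nonneg _
    exact h2.trans (mul_le_mul_of_nonneg_right h3 h4)
  have h2 : (Y : ℝ) ^ 2 ≤ 2 * (S.card : ℝ) := by exact_mod_cast hcard
  have h3 : (h / 1000) ^ 2 ≤ (Y : ℝ) ^ 2 := pow_le_pow_left₀ (by positivity) hYge 2
  have h4 : h ^ 2 ≤ 2000000 * (C * H ^ ε * ((Good H).ncard : ℝ)) := by nlinarith
  rw [Real.rpow_sub hH0, ← hh2]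
  have h5 : 1 / (2000000 * C) * (h ^ 2 / H ^ ε) = h ^ 2 / (2000000 * (C * H ^ ε)) := by
    field_simp
  rw [h5, div_le_iff₀ (by positivity)]
  linarith

end Pool.Agent.Work.MP_bd3ec3_nt.LB
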