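import Pool.Agent.Work.MP_bd3ec3_nt.LB.StmtsU

/-!
# MP_bd3ec3_nt, block LB, part U, item FN2: the theorem
-/

set_option autoImplicit false

open scoped BigOperators

namespace Pool.Agent.Work.MP_bd3ec3_nt.LB

namespace IFN2

theorem GG_pos (t v : ℤ) (hv : v ≠ 0) : 0 < GG t v := by
  unfold GG
  have : 0 < v ^ 6 := by positivity
  nlinarith [sq_nonneg (mm t v)]

theorem GG_le (t v Z : ℤ) (ht : 0 < t) (hv : 0 < v) (htZ : t ≤ 42 * Z) (hvZ : v ^ 2 ≤ 1764 * Z)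
    (hZ : 1 ≤ Z) : GG t v ≤ 10 ^ 17 * Z ^ 4 := by
  obtain ⟨w, hw⟩ : ∃ w, w = v ^ 2 := ⟨_, rfl⟩
  have hw0 : 0 < w := by rw [hw]; positivity
  rw [← hw] at hvZ
  have hm : mm t v = 4 * t ^ 2 - 12 * (t * w) + 36 * w ^ 2 - t - 3 * w := by
    unfold mm
    rw [hw]; ring
  have h1 : t ^ 2 ≤ (42 * Z) ^ 2 := pow_le_pow_left₀ ht.le htZ 2
  have h2 : w ^ 2 ≤ (1764 * Z) ^ 2 := pow_le_pow_left₀ hw0.le hvZ 2
  have h3 : t * w ≤ 42 * Z * (1764 * Z) := mul_le_mul htZ hvZ hw0.le (by positivity)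
  have h4 : 0 < t * w := mul_pos ht hw0
  have h5 : Z ≤ Z ^ 2 := by nlinarith
  have h6 : w ^ 3 ≤ (1764 * Z) ^ 3 := pow_le_pow_left₀ hw0.le hvZ 3
  have hm2 : (mm t v) ^ 2 ≤ (2 * 10 ^ 8 * Z ^ 2) ^ 2 := by
    rw [hm]
    apply sq_le_sq'
    · nlinarith [sq_nonneg t, sq_nonneg w]
    · nlinarith
  have h7 : Z ^ 3 ≤ Z ^ 4 := pow_le_pow_right₀ hZ (by norm_num)
  have h8 : 0 < Z ^ 4 := by positivity
  unfold GG
  have h9 : v ^ 6 = w ^ 3 := by rw [hw]; ring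
  rw [h9]
  have h10 : (2 * 10 ^ 8 * Z ^ 2) ^ 2 = 4 * 10 ^ 16 * Z ^ 4 := by ring
  have h11 : (1764 * Z) ^ 3 = 5489031744 * Z ^ 3 := by ring
  rw [h10] at hm2
  rw [h11] at h6
  linarith

theorem abs_le_pow (x : ℤ) (n : ℕ) (hn : n ≠ 0) : |x| ≤ |x| ^ n := by
  rcases eq_or_ne x 0 with h | h
  · subst h
    simp [hn]
  · exact le_self_pow₀ (Int.one_le_abs h) hn

theorem fib_finite (N : ℕ) : {q : ℤ × ℤ | q.1 % 42 = 17 ∧ q.2 % 42 = 6 ∧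
    IsCoprime (mm q.1 q.2) q.2 ∧ GG q.1 q.2 = (N : ℤ)}.Finite := by
  refine Set.Finite.subset ((Set.finite_Icc (-(25 * ((N : ℤ) + 1) ^ 4)) (25 * ((N : ℤ) + 1) ^ 4)).prod
    (Set.finite_Icc (-(25 * ((N : ℤ) + 1) ^ 4)) (25 * ((N : ℤ) + 1) ^ 4))) ?_
  rintro ⟨t, v⟩ ⟨-, -, -, h⟩
  simp only at h
  have hN : (0 : ℤ) ≤ N := Int.natCast_nonneg N
  unfold GG at h
  have h6 : 0 ≤ v ^ 6 := by positivity
  have hv : |v| ≤ (N : ℤ) := by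
    have h1 := abs_le_pow v 6 (by norm_num)
    have h2 : |v| ^ 6 = v ^ 6 := by
      rw [pow_abs, abs_of_nonneg h6]
    nlinarith [sq_nonneg (mm t v)]
  have hm : |mm t v| ≤ (N : ℤ) := by
    have h1 := abs_le_pow (mm t v) 2 (by norm_num)
    rw [sq_abs] at h1
    linarith
  obtain ⟨X, hX⟩ : ∃ X : ℤ, X = (N : ℤ) + 1 := ⟨_, rfl⟩
  have hX1 : 1 ≤ X := by omega
  have hvX : v ^ 2 ≤ X ^ 2 := by
    rw [← sq_abs v]
    exact pow_le_pow_left₀ (abs_nonneg v) (by omega) 2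
  have hX2 : X ≤ X ^ 2 := by nlinarith
  have hX4 : X ^ 2 ≤ X ^ 4 := pow_le_pow_right₀ hX1 (by norm_num)
  have hv2 : 0 ≤ v ^ 2 := by positivity
  have ht : |t| ≤ 25 * X ^ 4 := by
    by_contra hcon
    push Not at hcon
    -- `4 t² = m + (12 v² + 1) t - 36 v⁴ + 3 v²`
    have h1 : 4 * t ^ 2 = mm t v + (12 * v ^ 2 + 1) * t - 36 * v ^ 4 + 3 * v ^ 2 := by
      unfold mm; ring
    have h2 : mm t v ≤ X := by
      have := le_abs_self (mm t v)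
      omega
    have h3 : (12 * v ^ 2 + 1) * t ≤ (12 * v ^ 2 + 1) * |t| :=
      mul_le_mul_of_nonneg_left (le_abs_self t) (by positivity)
    have h4 : (12 * v ^ 2 + 1) * |t| ≤ (13 * X ^ 2) * |t| := by
      apply mul_le_mul_of_nonneg_right _ (abs_nonneg t)
      nlinarith
    have h5 : 0 ≤ 36 * v ^ 4 := by positivity
    have h6 : 4 * |t| ^ 2 ≤ X + 13 * X ^ 2 * |t| + 3 * X ^ 2 := by
      rw [sq_abs]
      linarith
    have h7 : 25 * X ^ 2 < |t| := by nlinarith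
    have h8 : 0 < |t| := by nlinarith
    nlinarith
  have hvf : |v| ≤ 25 * X ^ 4 := by nlinarith
  rw [hX] at ht hvf
  exact ⟨Set.mem_Icc.2 (abs_le.1 ht), Set.mem_Icc.2 (abs_le.1 hvf)⟩

open Classical in
theorem pairs_fin (Y : ℕ) (P : ℤ → ℤ → Prop) : ∃ A : Finset (ℕ × ℕ),
    (∀ q : ℕ × ℕ, q ∈ A ↔ (q.1 < Y ^ 2 ∧ q.2 < Y) ∧
      P (17 + 42 * (q.1 : ℤ)) (6 + 42 * (q.2 : ℤ))) ∧
    (Pairs2 Y P).ncard = A.card := by
  refine ⟨(Finset.range (Y ^ 2) ×ˢ Finset.range Y).filter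
      (fun q : ℕ × ℕ => P (17 + 42 * (q.1 : ℤ)) (6 + 42 * (q.2 : ℤ))), ?_, ?_⟩
  · intro q
    rw [Finset.mem_filter, Finset.mem_product, Finset.mem_range, Finset.mem_range]
  · rw [← Set.ncard_coe_finset]
    congr 1
    ext q
    rw [Finset.mem_coe, Finset.mem_filter, Finset.mem_product, Finset.mem_range, Finset.mem_range,
      and_assoc]
    rfl

theorem good_finite (H : ℝ) : (Good H).Finite := by
  refine Set.Finite.subset (Set.finite_Icc (-(⌈H⌉)) ⌈H⌉) ?_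
  rintro k ⟨-, -, h, -, -⟩
  have h1 : (|k| : ℤ) ≤ ⌈H⌉ := by
    have h2 := abs_le_pow k 2 (by norm_num)
    rw [sq_abs] at h2
    have h3 : ((|k| : ℤ) : ℝ) ≤ H := by
      have h4 : ((|k| : ℤ) : ℝ) ≤ (k : ℝ) ^ 2 := by exact_mod_cast h2
      nlinarith [sq_nonneg (k : ℝ)]
    exact_mod_cast h3.trans (Int.le_ceil H)
  exact Set.mem_Icc.2 (abs_le.1 h1)

end IFN2

open IFN2

open Classical in
theorem pr_FN2 (hRK : S_RK2) (hWW : S_WW2) (hFB : S_FB2) (hGC : S_GC2) (hGX : S_GX2) : S_FN2 := by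
  intro ε hε
  obtain ⟨C, hC, hFBC⟩ := hFB ε hε
  obtain ⟨Y0, hY0⟩ := hGC
  obtain ⟨Y1, hY1⟩ := hGX
  refine ⟨1 / (3 * 2000 ^ 3 * C), by positivity, (2000 * ((Y0 : ℝ) + Y1 + 1)) ^ 16, ?_⟩
  intro H hH
  have hH0 : 0 < H := lt_of_lt_of_le (by positivity) hH
  obtain ⟨h, hh⟩ : ∃ h : ℝ, h = H ^ ((1 : ℝ) / 16) := ⟨_, rfl⟩
  have hh0 : 0 < h := by
    rw [hh]
    exact Real.rpow_pos_of_pos hH0 _
  have hh16 : h ^ 16 = H := by
    rw [hh, ← Real.rpow_natCast, ← Real.rpow_mul hH0.le]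
    norm_num
  have hh3 : h ^ 3 = H ^ ((3 : ℝ) / 16) := by
    rw [hh, ← Real.rpow_natCast, ← Real.rpow_mul hH0.le]
    norm_num
  have hbig : 2000 * ((Y0 : ℝ) + Y1 + 1) ≤ h := by
    by_contra hcon
    push Not at hcon
    have := pow_lt_pow_left₀ hcon hh0.le (n := 16) (by norm_num)
    rw [hh16] at this
    linarith
  have hY0n : (0 : ℝ) ≤ Y0 := Nat.cast_nonneg _
  have hY1n : (0 : ℝ) ≤ Y1 := Nat.cast_nonneg _
  obtain ⟨Y, hY⟩ : ∃ Y : ℕ, Y = ⌊h / 1000⌋₊ := ⟨_, rfl⟩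
  have hYle : (Y : ℝ) ≤ h / 1000 := by
    rw [hY]
    exact Nat.floor_le (by positivity)
  have hYge : h / 2000 ≤ Y := by
    have h1 := Nat.lt_floor_add_one (h / 1000)
    rw [← hY] at h1
    linarith
  have hYY : (Y0 : ℝ) + Y1 + 1 ≤ Y := by linarith
  have hYY0 : Y0 ≤ Y := by
    have : (Y0 : ℝ) ≤ Y := by linarith
    exact_mod_cast this
  have hYY1 : Y1 ≤ Y := by
    have : (Y1 : ℝ) ≤ Y := by linarith
    exact_mod_cast this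
  have hYpos : 1 ≤ Y := by
    have : (1 : ℝ) ≤ Y := by linarith
    exact_mod_cast this
  have hA := hY0 Y hYY0
  have hB := hY1 Y hYY1
  obtain ⟨A1, hA1, hA1c⟩ := pairs_fin Y (fun t v => ¬ IsCoprime (mm t v) v)
  obtain ⟨A2, hA2, hA2c⟩ := pairs_fin Y
    (fun t v => IsCoprime (mm t v) v ∧ ∃ p : ℕ, p.Prime ∧ (p : ℤ) ^ 6 ∣ 4 * GG t v)
  rw [hA1c] at hA
  rw [hA2c] at hB
  -- the good pairs
  obtain ⟨S, hS, -⟩ := pairs_fin Y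
    (fun t v => IsCoprime (mm t v) v ∧ ∀ p : ℕ, p.Prime → ¬ (p : ℤ) ^ 6 ∣ 4 * GG t v)
  have hcard : Y ^ 3 ≤ 3 * S.card := by
    have h1 : (Finset.range (Y ^ 2) ×ˢ Finset.range Y) ⊆ S ∪ (A1 ∪ A2) := by
      intro q hq
      rw [Finset.mem_product, Finset.mem_range, Finset.mem_range] at hq
      rw [Finset.mem_union, Finset.mem_union, hS, hA1, hA2]
      by_cases hc : IsCoprime (mm (17 + 42 * (q.1 : ℤ)) (6 + 42 * (q.2 : ℤ)))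
          (6 + 42 * (q.2 : ℤ))
      · by_cases hp : ∃ p : ℕ, p.Prime ∧ (p : ℤ) ^ 6 ∣
              4 * GG (17 + 42 * (q.1 : ℤ)) (6 + 42 * (q.2 : ℤ))
        · exact Or.inr (Or.inr ⟨hq, hc, hp⟩)
        · exact Or.inl ⟨hq, hc, fun p hp1 hp2 => hp ⟨p, hp1, hp2⟩⟩
      · exact Or.inr (Or.inl ⟨hq, hc⟩)
    have h2 := Finset.card_le_card h1
    have h3 := Finset.card_union_le S (A1 ∪ A2)
    have h4 := Finset.card_union_le A1 A2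
    have h5 : (Finset.range (Y ^ 2) ×ˢ Finset.range Y).card = Y ^ 3 := by
      rw [Finset.card_product, Finset.card_range, Finset.card_range]
      ring
    rw [h5] at h2
    omega
  -- the values
  have hval : ∀ q ∈ S, 4 * GG (17 + 42 * (q.1 : ℤ)) (6 + 42 * (q.2 : ℤ)) ∈ Good H := by
    intro q hq
    rw [hS] at hq
    obtain ⟨⟨hi, hj⟩, hc, hp⟩ := hq
    have ht : (17 + 42 * (q.1 : ℤ)) % 42 = 17 := by omega
    have hv : (6 + 42 * (q.2 : ℤ)) % 42 = 6 := by omega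
    have hv0 : (6 + 42 * (q.2 : ℤ)) ≠ 0 := by omega
    have hG := GG_pos (17 + 42 * (q.1 : ℤ)) (6 + 42 * (q.2 : ℤ)) hv0
    refine ⟨by omega, hp, ?_, hWW _ _ ht hv hc, hRK _ _ ht hv⟩
    have hi' : (q.1 : ℤ) < (Y : ℤ) ^ 2 := by exact_mod_cast hi
    have hj' : (q.2 : ℤ) < (Y : ℤ) := by exact_mod_cast hj
    have hvY : (6 + 42 * (q.2 : ℤ)) ^ 2 ≤ 1764 * (Y : ℤ) ^ 2 := by
      calc (6 + 42 * (q.2 : ℤ)) ^ 2 ≤ (42 * (Y : ℤ)) ^ 2 :=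
            pow_le_pow_left₀ (by omega) (by omega) 2
        _ = 1764 * (Y : ℤ) ^ 2 := by ring
    have hY1' : (1 : ℤ) ≤ (Y : ℤ) ^ 2 := one_le_pow₀ (by exact_mod_cast hYpos)
    have hGl := GG_le (17 + 42 * (q.1 : ℤ)) (6 + 42 * (q.2 : ℤ)) ((Y : ℤ) ^ 2) (by omega)
      (by omega) (by omega) hvY hY1'
    have hGr : ((GG (17 + 42 * (q.1 : ℤ)) (6 + 42 * (q.2 : ℤ)) : ℤ) : ℝ) ≤
        10 ^ 17 * ((Y : ℝ) ^ 2) ^ 4 := by exact_mod_cast hGl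
    have hG0 : (0 : ℝ) < ((GG (17 + 42 * (q.1 : ℤ)) (6 + 42 * (q.2 : ℤ)) : ℤ) : ℝ) := by
      exact_mod_cast hG
    have hY8 : (Y : ℝ) ^ 8 ≤ (h / 1000) ^ 8 := pow_le_pow_left₀ (Nat.cast_nonneg _) hYle 8
    have e8 : ((Y : ℝ) ^ 2) ^ 4 = (Y : ℝ) ^ 8 := by ring
    rw [e8] at hGr
    have hG2 : ((GG (17 + 42 * (q.1 : ℤ)) (6 + 42 * (q.2 : ℤ)) : ℤ) : ℝ) ≤
        10 ^ 17 * (h / 1000) ^ 8 := by linarith
    have hG3 : ((GG (17 + 42 * (q.1 : ℤ)) (6 + 42 * (q.2 : ℤ)) : ℤ) : ℝ) ^ 2 ≤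
        (10 ^ 17 * (h / 1000) ^ 8) ^ 2 := pow_le_pow_left₀ hG0.le hG2 2
    have hG4 : (10 ^ 17 * (h / 1000) ^ 8) ^ 2 = H / 10 ^ 14 := by
      rw [← hh16]
      ring
    rw [hG4] at hG3
    push_cast
    have e9 : 27 * (4 * ((GG (17 + 42 * (q.1 : ℤ)) (6 + 42 * (q.2 : ℤ)) : ℤ) : ℝ)) ^ 2 =
        432 * ((GG (17 + 42 * (q.1 : ℤ)) (6 + 42 * (q.2 : ℤ)) : ℤ) : ℝ) ^ 2 := by ring
    rw [e9]
    have e10 : 432 * (H / 10 ^ 14) ≤ H := by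
      rw [← mul_div_assoc, div_le_iff₀ (by positivity)]
      nlinarith
    linarith
  have hgf := good_finite H
  -- fibres
  have hfib : ∀ b ∈ hgf.toFinset, (S.filter (fun q : ℕ × ℕ =>
      4 * GG (17 + 42 * (q.1 : ℤ)) (6 + 42 * (q.2 : ℤ)) = b)).card ≤ ⌊C * H ^ ε⌋₊ := by
    intro b hb
    rw [Set.Finite.mem_toFinset] at hb
    rcases (S.filter (fun q : ℕ × ℕ =>
      4 * GG (17 + 42 * (q.1 : ℤ)) (6 + 42 * (q.2 : ℤ)) = b)).eq_empty_or_nonempty with he | he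
    · rw [he]
      simp
    obtain ⟨q0, hq0⟩ := he
    rw [Finset.mem_filter] at hq0
    have hs0 : (6 + 42 * (q0.2 : ℤ)) ≠ 0 := by omega
    have hF := GG_pos (17 + 42 * (q0.1 : ℤ)) (6 + 42 * (q0.2 : ℤ)) hs0
    obtain ⟨N, hN⟩ : ∃ N : ℕ, GG (17 + 42 * (q0.1 : ℤ)) (6 + 42 * (q0.2 : ℤ)) = (N : ℤ) :=
      ⟨_, (Int.toNat_of_nonneg hF.le).symm⟩
    have hN1 : 1 ≤ N := by
      rw [hN] at hF
      exact_mod_cast hF
    have hbN : b = 4 * (N : ℤ) := by rw [← hq0.2, hN]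
    have hle : (S.filter (fun q : ℕ × ℕ =>
        4 * GG (17 + 42 * (q.1 : ℤ)) (6 + 42 * (q.2 : ℤ)) = b)).card ≤
        Set.ncard {q : ℤ × ℤ | q.1 % 42 = 17 ∧ q.2 % 42 = 6 ∧ IsCoprime (mm q.1 q.2) q.2 ∧
          GG q.1 q.2 = (N : ℤ)} := by
      rw [← Set.ncard_coe_finset]
      refine Set.ncard_le_ncard_of_injOn
        (fun q : ℕ × ℕ => ((17 + 42 * (q.1 : ℤ), 6 + 42 * (q.2 : ℤ)) : ℤ × ℤ)) ?_ ?_ (fib_finite N)
      · intro q hq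
        rw [Finset.mem_coe, Finset.mem_filter] at hq
        obtain ⟨hq1, hq2⟩ := hq
        rw [hS] at hq1
        refine ⟨?_, ?_, hq1.2.1, ?_⟩
        · show (17 + 42 * (q.1 : ℤ)) % 42 = 17
          omega
        · show (6 + 42 * (q.2 : ℤ)) % 42 = 6
          omega
        · show GG (17 + 42 * (q.1 : ℤ)) (6 + 42 * (q.2 : ℤ)) = (N : ℤ)
          rw [hbN] at hq2
          omega
      · intro q hq q' hq' hqq
        simp only [Prod.mk.injEq] at hqq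
        obtain ⟨h1, h2⟩ := hqq
        ext
        · omega
        · omega
    apply Nat.le_floor
    have h1 := hFBC N hN1
    have hNH : (N : ℝ) ≤ H := by
      obtain ⟨-, -, h2, -, -⟩ := hb
      rw [hbN] at h2
      push_cast at h2
      have hN1r : (1 : ℝ) ≤ N := by exact_mod_cast hN1
      nlinarith
    have h2 : (N : ℝ) ^ ε ≤ H ^ ε := Real.rpow_le_rpow (Nat.cast_nonneg _) hNH hε.le
    have h3 : C * (N : ℝ) ^ ε ≤ C * H ^ ε := mul_le_mul_of_nonneg_left h2 hC.le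
    have h4 : ((S.filter (fun q : ℕ × ℕ =>
        4 * GG (17 + 42 * (q.1 : ℤ)) (6 + 42 * (q.2 : ℤ)) = b)).card : ℝ) ≤
        (Set.ncard {q : ℤ × ℤ | q.1 % 42 = 17 ∧ q.2 % 42 = 6 ∧ IsCoprime (mm q.1 q.2) q.2 ∧
          GG q.1 q.2 = (N : ℤ)} : ℝ) := by exact_mod_cast hle
    linarith
  have hmain := Finset.card_le_mul_card_image_of_maps_to (s := S) (t := hgf.toFinset)
    (f := fun q : ℕ × ℕ => 4 * GG (17 + 42 * (q.1 : ℤ)) (6 + 42 * (q.2 : ℤ)))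
    (fun q hq => (Set.Finite.mem_toFinset hgf).2 (hval q hq)) _ hfib
  have hgc : (Good H).ncard = hgf.toFinset.card := Set.ncard_eq_toFinset_card (Good H) hgf
  rw [← hgc] at hmain
  have hHe : 0 < H ^ ε := Real.rpow_pos_of_pos hH0 _
  have hCH : 0 < C * H ^ ε := mul_pos hC hHe
  have h1 : (S.card : ℝ) ≤ C * H ^ ε * ((Good H).ncard : ℝ) := by
    have h2 : (S.card : ℝ) ≤ (⌊C * H ^ ε⌋₊ : ℝ) * ((Good H).ncard : ℝ) := by exact_mod_cast hmain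
    have h3 : (⌊C * H ^ ε⌋₊ : ℝ) ≤ C * H ^ ε := Nat.floor_le hCH.le
    have h4 : (0 : ℝ) ≤ ((Good H).ncard : ℝ) := Nat.cast_nonneg _
    exact h2.trans (mul_le_mul_of_nonneg_right h3 h4)
  have h2 : (Y : ℝ) ^ 3 ≤ 3 * (S.card : ℝ) := by exact_mod_cast hcard
  have h3 : (h / 2000) ^ 3 ≤ (Y : ℝ) ^ 3 := pow_le_pow_left₀ (by positivity) hYge 3
  have h4 : h ^ 3 ≤ 3 * 2000 ^ 3 * (C * H ^ ε * ((Good H).ncard : ℝ)) := by
    have h5 : (h / 2000) ^ 3 = h ^ 3 / 2000 ^ 3 := by rw [div_pow]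
    have h6 : h ^ 3 / 2000 ^ 3 ≤ 3 * (C * H ^ ε * ((Good H).ncard : ℝ)) := by linarith
    rw [div_le_iff₀ (by positivity)] at h6
    linarith
  rw [Real.rpow_sub hH0, ← hh3]
  have h5 : 1 / (3 * 2000 ^ 3 * C) * (h ^ 3 / H ^ ε) = h ^ 3 / (3 * 2000 ^ 3 * (C * H ^ ε)) := by
    field_simp
  rw [h5, div_le_iff₀ (by positivity)]
  linarith

end Pool.Agent.Work.MP_bd3ec3_nt.LB
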