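import Pool.Agent.Work.MP_bd3ec3_nt.LB.Stmts

/-!
# MP_bd3ec3_nt, block LB, item GC: coprimality
-/

set_option autoImplicit false

namespace Pool.Agent.Work.MP_bd3ec3_nt.LB

namespace IGC

/-- one residue class -/
theorem card_class (d Y c : ℕ) (hd : Nat.Coprime d 42) :
    ((Finset.range Y).filter (fun i => d ∣ c + 42 * i)).card ≤ Y / d + 1 := by
  have h1 : ((Finset.range Y).filter (fun i => d ∣ c + 42 * i)).card ≤ (Finset.range (Y / d + 1)).card := by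
    refine Finset.card_le_card_of_injOn (fun i => i / d) ?_ ?_
    · intro i hi
      rw [Finset.mem_coe, Finset.mem_filter, Finset.mem_range] at hi
      rw [Finset.mem_coe, Finset.mem_range]
      exact Nat.lt_succ_of_le (Nat.div_le_div_right hi.1.le)
    · intro i hi j hj hij
      rw [Finset.mem_coe, Finset.mem_filter] at hi hj
      have h2 : c + 42 * i ≡ c + 42 * j [MOD d] :=
        (Nat.modEq_zero_iff_dvd.2 hi.2).trans (Nat.modEq_zero_iff_dvd.2 hj.2).symm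
      have h3 : 42 * i ≡ 42 * j [MOD d] := Nat.ModEq.add_left_cancel' c h2
      have h4 : i ≡ j [MOD d] := Nat.ModEq.cancel_left_of_coprime hd h3
      have h5 : i % d = j % d := h4
      have h6 : i / d = j / d := hij
      rw [← Nat.div_add_mod i d, ← Nat.div_add_mod j d, h5, h6]
  rwa [Finset.card_range] at h1

/-- the pairs with a given common divisor -/
theorem card_pair (d Y : ℕ) :
    (((Finset.range Y).filter (fun i => d ∣ 1 + 42 * i)) ×ˢ
      ((Finset.range Y).filter (fun j => d ∣ 24 + 42 * j))).card ≤ (Y / d + 1) ^ 2 := by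
  rw [Finset.card_product]
  by_cases hd : Nat.Coprime d 42
  · rw [pow_two]
    exact Nat.mul_le_mul (card_class d Y 1 hd) (card_class d Y 24 hd)
  · have h1 : ((Finset.range Y).filter (fun i => d ∣ 1 + 42 * i)) = ∅ := by
      rw [Finset.filter_eq_empty_iff]
      intro i _ hi
      apply hd
      have h2 : Nat.gcd d 42 ∣ 1 + 42 * i := (Nat.gcd_dvd_left d 42).trans hi
      have h3 : Nat.gcd d 42 ∣ 42 * i := (Nat.gcd_dvd_right d 42).trans (Dvd.intro i rfl)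
      exact Nat.dvd_one.1 ((Nat.dvd_add_left h3).1 h2)
    rw [h1, Finset.card_empty, zero_mul]
    exact Nat.zero_le _

/-- the sum -/
theorem sum_bound (Y : ℕ) (n : ℕ) :
    ∑ d ∈ Finset.Ico 5 (5 + n), ((Y / d : ℕ) + 1 : ℝ) ^ 2 ≤
      (Y : ℝ) ^ 2 * (1 / 4 - 1 / (4 + (n : ℝ))) + 4 * Y * (Real.sqrt (4 + (n : ℝ)) - 2) + n := by
  induction n with
  | zero =>
    have h4 : Real.sqrt 4 = 2 := by
      rw [show (4 : ℝ) = 2 ^ 2 by norm_num]
      exact Real.sqrt_sq (by norm_num)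
    simp [h4]
  | succ n ih =>
    rw [← add_assoc, Finset.sum_Ico_succ_top (by omega)]
    have hY : (0 : ℝ) ≤ (Y : ℝ) := Nat.cast_nonneg _
    have hn : (0 : ℝ) ≤ (n : ℝ) := Nat.cast_nonneg _
    have hd : (0 : ℝ) < 5 + (n : ℝ) := by linarith
    have hd4 : (0 : ℝ) < 4 + (n : ℝ) := by linarith
    have h1 : ((Y / (5 + n) : ℕ) : ℝ) ≤ (Y : ℝ) / (5 + (n : ℝ)) := by
      have := Nat.cast_div_le (α := ℝ) (m := Y) (n := 5 + n)
      push_cast at this
      exact this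
    have h2 : (0 : ℝ) ≤ ((Y / (5 + n) : ℕ) : ℝ) := Nat.cast_nonneg _
    have h3 : (((Y / (5 + n) : ℕ) : ℝ) + 1) ^ 2 ≤ ((Y : ℝ) / (5 + (n : ℝ)) + 1) ^ 2 := by
      gcongr
    have h5 : (Y : ℝ) ^ 2 * (1 / (5 + (n : ℝ))) ^ 2 ≤
        (Y : ℝ) ^ 2 * (1 / (4 + (n : ℝ)) - 1 / (5 + (n : ℝ))) := by
      apply mul_le_mul_of_nonneg_left _ (by positivity)
      rw [div_sub_div _ _ hd4.ne' hd.ne', div_pow, one_pow, div_le_div_iff₀ (by positivity) (by positivity)]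
      nlinarith
    have hs : 1 / (5 + (n : ℝ)) ≤ 2 * (Real.sqrt (5 + (n : ℝ)) - Real.sqrt (4 + (n : ℝ))) := by
      have e1 : Real.sqrt (5 + (n : ℝ)) ^ 2 = 5 + (n : ℝ) := Real.sq_sqrt hd.le
      have e2 : Real.sqrt (4 + (n : ℝ)) ^ 2 = 4 + (n : ℝ) := Real.sq_sqrt hd4.le
      have p1 : 1 ≤ Real.sqrt (5 + (n : ℝ)) := by
        rw [Real.le_sqrt' (by norm_num)]
        linarith
      have p2 : Real.sqrt (4 + (n : ℝ)) ≤ Real.sqrt (5 + (n : ℝ)) := Real.sqrt_le_sqrt (by linarith)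
      have p3 : 0 ≤ Real.sqrt (4 + (n : ℝ)) := Real.sqrt_nonneg _
      obtain ⟨a, ha⟩ : ∃ a, a = Real.sqrt (5 + (n : ℝ)) := ⟨_, rfl⟩
      obtain ⟨b, hb⟩ : ∃ b, b = Real.sqrt (4 + (n : ℝ)) := ⟨_, rfl⟩
      rw [← ha] at e1 p1 p2 ⊢
      rw [← hb] at e2 p2 p3 ⊢
      rw [← e1, div_le_iff₀ (by positivity)]
      have e3 : (a - b) * (a + b) = 1 := by linear_combination e1 - e2
      have hab : 0 ≤ a - b := by linarith
      have h7 : a + b ≤ 2 * a ^ 2 := by nlinarith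
      nlinarith [mul_le_mul_of_nonneg_left h7 hab]
    have h6 : 2 * (Y : ℝ) * (1 / (5 + (n : ℝ))) ≤
        4 * Y * (Real.sqrt (5 + (n : ℝ)) - Real.sqrt (4 + (n : ℝ))) := by
      have := mul_le_mul_of_nonneg_left hs (show (0 : ℝ) ≤ 2 * Y by positivity)
      linarith
    have h8 : ((Y : ℝ) / (5 + (n : ℝ)) + 1) ^ 2 =
        (Y : ℝ) ^ 2 * (1 / (5 + (n : ℝ))) ^ 2 + 2 * (Y : ℝ) * (1 / (5 + (n : ℝ))) + 1 := by
      field_simp
      ring
    have e5 : (4 : ℝ) + ((n + 1 : ℕ) : ℝ) = 5 + (n : ℝ) := by push_cast; ring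
    rw [e5]
    push_cast
    linarith

theorem dvd_of_not_coprime {a b : ℕ} (h : ¬ Nat.Coprime a b) : ∃ p : ℕ, p.Prime ∧ p ∣ a ∧ p ∣ b :=
  Nat.Prime.not_coprime_iff_dvd.1 h

end IGC

open IGC in
theorem pr_GC : S_GC := by
  refine ⟨10 ^ 6, fun Y hY => ?_⟩
  have hYpos : 1 ≤ Y := le_trans (by norm_num) hY
  have hsub : Pairs Y (fun r s => ¬ IsCoprime r s) ⊆
      ((Finset.Ico 5 (5 + (42 * Y - 4))).biUnion (fun d =>
        ((Finset.range Y).filter (fun i => d ∣ 1 + 42 * i)) ×ˢ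
          ((Finset.range Y).filter (fun j => d ∣ 24 + 42 * j))) : Finset (ℕ × ℕ)) := by
    rintro ⟨i, j⟩ ⟨hi, hj, hnc⟩
    simp only at hi hj hnc
    have hnc' : ¬ Nat.Coprime (1 + 42 * i) (24 + 42 * j) := by
      rw [← Nat.isCoprime_iff_coprime]
      push_cast
      exact hnc
    obtain ⟨p, hp, h1, h2⟩ := dvd_of_not_coprime hnc'
    rw [Finset.mem_coe, Finset.mem_biUnion]
    refine ⟨p, ?_, ?_⟩
    · rw [Finset.mem_Ico]
      have hle : p ≤ 1 + 42 * i := Nat.le_of_dvd (by omega) h1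
      refine ⟨?_, by omega⟩
      by_contra hlt
      have hp2 := hp.two_le
      have h3 : p = 2 ∨ p = 3 ∨ p = 4 := by omega
      rcases h3 with rfl | rfl | rfl
      · omega
      · omega
      · exact absurd hp (by norm_num)
    · rw [Finset.mem_product, Finset.mem_filter, Finset.mem_filter, Finset.mem_range, Finset.mem_range]
      exact ⟨⟨hi, h1⟩, ⟨hj, h2⟩⟩
  have hcard : (Pairs Y (fun r s => ¬ IsCoprime r s)).ncard ≤
      ∑ d ∈ Finset.Ico 5 (5 + (42 * Y - 4)), (Y / d + 1) ^ 2 := by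
    have h1 := Set.ncard_le_ncard hsub (Finset.finite_toSet _)
    rw [Set.ncard_coe_finset] at h1
    exact h1.trans (Finset.card_biUnion_le.trans (Finset.sum_le_sum (fun d _ => card_pair d Y)))
  have hreal : ((Pairs Y (fun r s => ¬ IsCoprime r s)).ncard : ℝ) ≤
      (Y : ℝ) ^ 2 * (1 / 4 - 1 / (4 + ((42 * Y - 4 : ℕ) : ℝ))) +
        4 * Y * (Real.sqrt (4 + ((42 * Y - 4 : ℕ) : ℝ)) - 2) + ((42 * Y - 4 : ℕ) : ℝ) := by
    refine le_trans ?_ (sum_bound Y (42 * Y - 4))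
    have h1 : ((Pairs Y (fun r s => ¬ IsCoprime r s)).ncard : ℝ) ≤
      ((∑ d ∈ Finset.Ico 5 (5 + (42 * Y - 4)), (Y / d + 1) ^ 2 : ℕ) : ℝ) := by exact_mod_cast hcard
    push_cast at h1
    exact h1
  have hcast : ((42 * Y - 4 : ℕ) : ℝ) = 42 * (Y : ℝ) - 4 := by
    rw [Nat.cast_sub (by omega)]
    push_cast
    ring
  have hYr : (10 : ℝ) ^ 6 ≤ (Y : ℝ) := by exact_mod_cast hY
  rw [hcast] at hreal
  have e1 : (4 : ℝ) + (42 * (Y : ℝ) - 4) = 42 * Y := by ring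
  rw [e1] at hreal
  have hsq : Real.sqrt (42 * (Y : ℝ)) ≤ (Y : ℝ) / 96 := by
    rw [Real.sqrt_le_left (by positivity)]
    nlinarith
  have hpos : (0 : ℝ) ≤ (Y : ℝ) ^ 2 * (1 / (42 * (Y : ℝ))) := by positivity
  have hmul : (Y : ℝ) * Real.sqrt (42 * (Y : ℝ)) ≤ (Y : ℝ) * ((Y : ℝ) / 96) :=
    mul_le_mul_of_nonneg_left hsq (Nat.cast_nonneg _)
  have hfin : (3 : ℝ) * ((Pairs Y (fun r s => ¬ IsCoprime r s)).ncard : ℝ) ≤ (Y : ℝ) ^ 2 := by
    nlinarith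
  exact_mod_cast hfin

end Pool.Agent.Work.MP_bd3ec3_nt.LB
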