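import Pool.Agent.Work.MP_bd3ec3_nt.LB.Stmts

set_option autoImplicit false

namespace Pool.Agent.Work.MP_bd3ec3_nt.LB

namespace IGL

/-- A prime dividing `F(r, s)` and `s` divides `r`. -/
theorem unit_s {p : ℕ} (hp : p.Prime) {r s : ℤ} (hc : IsCoprime r s)
    (hd : (p : ℤ) ^ 6 ∣ FF r s) : IsUnit ((s : ℤ) : ZMod (p ^ 6)) := by
  rw [ZMod.coe_int_isUnit_iff_isCoprime]
  push_cast
  apply IsCoprime.pow_left
  rw [Int.isCoprime_iff_gcd_eq_one]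
  have hpz : Prime (p : ℤ) := Nat.prime_iff_prime_int.mp hp
  have hns : ¬ (p : ℤ) ∣ s := by
    intro hs
    have h1 : (p : ℤ) ∣ FF r s := dvd_trans (dvd_pow_self _ (by norm_num)) hd
    have h2 : FF r s = r ^ 6 + s * (s ^ 2 * (784 * s ^ 3 - 52 * r ^ 3)) := by
      unfold FF
      ring
    rw [h2] at h1
    have h3 : (p : ℤ) ∣ r ^ 6 := (Int.dvd_add_left (Dvd.dvd.mul_right hs _)).mp h1
    have h4 : (p : ℤ) ∣ r := hpz.dvd_of_dvd_pow h3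
    exact hpz.not_isUnit (hc.isUnit_of_dvd' h4 hs)
  rw [← Int.isCoprime_iff_gcd_eq_one]
  exact (Prime.coprime_iff_not_dvd hpz).mpr hns

theorem root {p : ℕ} (hp : p.Prime) {r s : ℤ} (hc : IsCoprime r s)
    (hd : (p : ℤ) ^ 6 ∣ FF r s) :
    (((r : ℤ) : ZMod (p ^ 6)) * ((s : ℤ) : ZMod (p ^ 6))⁻¹) ^ 6 -
      52 * (((r : ℤ) : ZMod (p ^ 6)) * ((s : ℤ) : ZMod (p ^ 6))⁻¹) ^ 3 + 784 = 0 := by
  have hu := unit_s hp hc hd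
  have h1 : ((FF r s : ℤ) : ZMod (p ^ 6)) = 0 := by
    rw [ZMod.intCast_zmod_eq_zero_iff_dvd]
    push_cast
    exact hd
  have hinv : ((s : ℤ) : ZMod (p ^ 6)) * ((s : ℤ) : ZMod (p ^ 6))⁻¹ = 1 :=
    ZMod.mul_inv_of_unit _ hu
  set R : ZMod (p ^ 6) := ((r : ℤ) : ZMod (p ^ 6)) with hR
  set S : ZMod (p ^ 6) := ((s : ℤ) : ZMod (p ^ 6)) with hS
  have h2 : R ^ 6 - 52 * (R ^ 3 * S ^ 3) + 784 * S ^ 6 = 0 := by
    have : ((FF r s : ℤ) : ZMod (p ^ 6)) = R ^ 6 - 52 * (R ^ 3 * S ^ 3) + 784 * S ^ 6 := by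
      unfold FF
      push_cast
      ring
    rw [← this, h1]
  have e6 : S ^ 6 * (S⁻¹) ^ 6 = 1 := by rw [← mul_pow, hinv, one_pow]
  have e3 : S ^ 3 * (S⁻¹) ^ 3 = 1 := by rw [← mul_pow, hinv, one_pow]
  calc (R * S⁻¹) ^ 6 - 52 * (R * S⁻¹) ^ 3 + 784
      = R ^ 6 * (S⁻¹) ^ 6 - 52 * (R ^ 3 * (S⁻¹) ^ 3 * (S ^ 3 * (S⁻¹) ^ 3))
          + 784 * (S ^ 6 * (S⁻¹) ^ 6) := by rw [e6, e3]; ring
    _ = (R ^ 6 - 52 * (R ^ 3 * S ^ 3) + 784 * S ^ 6) * (S⁻¹) ^ 6 := by ring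
    _ = 0 := by rw [h2, zero_mul]

theorem inj {p : ℕ} (hp : p.Prime) {X r s r' s' : ℤ} (hX : X ^ 2 < (p : ℤ) ^ 6)
    (hr : 0 < r) (hs : 0 < s) (hr' : 0 < r') (hs' : 0 < s')
    (hrX : r ≤ X) (hsX : s ≤ X) (hrX' : r' ≤ X) (hsX' : s' ≤ X)
    (hc : IsCoprime r s) (hc' : IsCoprime r' s')
    (hd : (p : ℤ) ^ 6 ∣ FF r s) (hd' : (p : ℤ) ^ 6 ∣ FF r' s')
    (he : ((r : ℤ) : ZMod (p ^ 6)) * ((s : ℤ) : ZMod (p ^ 6))⁻¹ =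
      ((r' : ℤ) : ZMod (p ^ 6)) * ((s' : ℤ) : ZMod (p ^ 6))⁻¹) : r = r' ∧ s = s' := by
  have hinv : ((s : ℤ) : ZMod (p ^ 6)) * ((s : ℤ) : ZMod (p ^ 6))⁻¹ = 1 :=
    ZMod.mul_inv_of_unit _ (unit_s hp hc hd)
  have hinv' : ((s' : ℤ) : ZMod (p ^ 6)) * ((s' : ℤ) : ZMod (p ^ 6))⁻¹ = 1 :=
    ZMod.mul_inv_of_unit _ (unit_s hp hc' hd')
  have h1 : ((r : ℤ) : ZMod (p ^ 6)) * ((s' : ℤ) : ZMod (p ^ 6)) =
      ((r' : ℤ) : ZMod (p ^ 6)) * ((s : ℤ) : ZMod (p ^ 6)) := by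
    calc ((r : ℤ) : ZMod (p ^ 6)) * ((s' : ℤ) : ZMod (p ^ 6))
        = (((r : ℤ) : ZMod (p ^ 6)) * ((s : ℤ) : ZMod (p ^ 6))⁻¹) *
            ((s : ℤ) : ZMod (p ^ 6)) * ((s' : ℤ) : ZMod (p ^ 6)) := by
          rw [mul_assoc ((r : ℤ) : ZMod (p ^ 6)), mul_comm (((s : ℤ) : ZMod (p ^ 6))⁻¹), hinv,
            mul_one]
      _ = (((r' : ℤ) : ZMod (p ^ 6)) * ((s' : ℤ) : ZMod (p ^ 6))⁻¹) *
            ((s : ℤ) : ZMod (p ^ 6)) * ((s' : ℤ) : ZMod (p ^ 6)) := by rw [he]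
      _ = ((r' : ℤ) : ZMod (p ^ 6)) * ((s : ℤ) : ZMod (p ^ 6)) *
            (((s' : ℤ) : ZMod (p ^ 6)) * ((s' : ℤ) : ZMod (p ^ 6))⁻¹) := by ring
      _ = ((r' : ℤ) : ZMod (p ^ 6)) * ((s : ℤ) : ZMod (p ^ 6)) := by rw [hinv', mul_one]
  have h2 : ((p ^ 6 : ℕ) : ℤ) ∣ r * s' - r' * s := by
    rw [← ZMod.intCast_zmod_eq_zero_iff_dvd]
    push_cast
    rw [h1, sub_self]
  have h3 : r * s' - r' * s = 0 := by
    apply Int.eq_zero_of_abs_lt_dvd h2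
    have a1 : 0 < r * s' := mul_pos hr hs'
    have a2 : 0 < r' * s := mul_pos hr' hs
    have a3 : r * s' ≤ X * X := mul_le_mul hrX hsX' hs'.le (hr.le.trans hrX)
    have a4 : r' * s ≤ X * X := mul_le_mul hrX' hsX hs.le (hr.le.trans hrX)
    rw [abs_lt]
    push_cast
    constructor <;> nlinarith
  have h4 : r * s' = r' * s := by linarith
  have h5 : r ∣ r' := hc.dvd_of_dvd_mul_right ⟨s', h4.symm⟩
  have h6 : r' ∣ r := hc'.dvd_of_dvd_mul_right ⟨s, h4⟩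
  have h7 : r = r' := Int.dvd_antisymm hr.le hr'.le h5 h6
  refine ⟨h7, ?_⟩
  rw [← h7] at h4
  exact (mul_left_cancel₀ hr.ne' h4).symm

end IGL

theorem pr_GL (hHL : S_HL) : S_GL := by
  intro p Y hp h11 hY
  have hp6 : p ^ 6 ≠ 0 := pow_ne_zero _ hp.ne_zero
  have : NeZero (p ^ 6) := ⟨hp6⟩
  refine le_trans ?_ (hHL p hp h11)
  have hX : ((42 * (Y : ℤ) + 24)) ^ 2 < (p : ℤ) ^ 6 := by exact_mod_cast hY
  apply Set.ncard_le_ncard_of_injOn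
    (fun q : ℕ × ℕ => (((1 + 42 * (q.1 : ℤ) : ℤ)) : ZMod (p ^ 6)) *
      (((24 + 42 * (q.2 : ℤ) : ℤ)) : ZMod (p ^ 6))⁻¹)
  · rintro ⟨i, j⟩ ⟨hi, hj, hc, hd⟩
    exact IGL.root hp hc hd
  · rintro ⟨i, j⟩ ⟨hi, hj, hc, hd⟩ ⟨i', j'⟩ ⟨hi', hj', hc', hd'⟩ he
    simp only at hi hj hi' hj' hc hd hc' hd' he
    have hi1 : (i : ℤ) + 1 ≤ Y := by exact_mod_cast hi
    have hj1 : (j : ℤ) + 1 ≤ Y := by exact_mod_cast hj
    have hi1' : (i' : ℤ) + 1 ≤ Y := by exact_mod_cast hi'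
    have hj1' : (j' : ℤ) + 1 ≤ Y := by exact_mod_cast hj'
    have hi0 : (0 : ℤ) ≤ i := Int.natCast_nonneg i
    have hj0 : (0 : ℤ) ≤ j := Int.natCast_nonneg j
    have hi0' : (0 : ℤ) ≤ i' := Int.natCast_nonneg i'
    have hj0' : (0 : ℤ) ≤ j' := Int.natCast_nonneg j'
    obtain ⟨e1, e2⟩ := IGL.inj hp hX (r := 1 + 42 * (i : ℤ)) (s := 24 + 42 * (j : ℤ))
      (r' := 1 + 42 * (i' : ℤ)) (s' := 24 + 42 * (j' : ℤ)) (by linarith) (by linarith)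
      (by linarith) (by linarith) (by linarith) (by linarith) (by linarith) (by linarith)
      hc hc' hd hd' he
    have e1' : i = i' := by omega
    have e2' : j = j' := by omega
    rw [e1', e2']

end Pool.Agent.Work.MP_bd3ec3_nt.LB
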