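import Pool.Agent.Work.MP_bd3ec3_nt.LB.Stmts

set_option autoImplicit false

namespace Pool.Agent.Work.MP_bd3ec3_nt.LB

namespace IGS

/-- A prime dividing `F(r, s)` and `s` divides `r`. -/
theorem unit_s {p : ℕ} (hp : p.Prime) {r s : ℤ} (hc : IsCoprime r s)
    (hd : (p : ℤ) ^ 6 ∣ FF r s) : IsUnit ((s : ℤ) : ZMod (p ^ 6)) := by
  rw [ZMod.coe_int_isUnit_iff_isCoprime]
  push_cast
  apply IsCoprime.pow_left
  rw [Int.isCoprime_iff_gcd_eq_one]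
  have hpz : Prime (p : ℤ) := Nat.prime_iff_prime_int.mp hp
  have hns : ¬ (p : ℤ) ∣ s := by
    intro hs
    have h1 : (p : ℤ) ∣ FF r s := dvd_trans (dvd_pow_self _ (by norm_num)) hd
    have h2 : FF r s = r ^ 6 + s * (s ^ 2 * (784 * s ^ 3 - 52 * r ^ 3)) := by
      unfold FF
      ring
    rw [h2] at h1
    have h3 : (p : ℤ) ∣ r ^ 6 := (Int.dvd_add_left (Dvd.dvd.mul_right hs _)).mp h1
    have h4 : (p : ℤ) ∣ r := hpz.dvd_of_dvd_pow h3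
    exact hpz.not_isUnit (hc.isUnit_of_dvd' h4 hs)
  rw [← Int.isCoprime_iff_gcd_eq_one]
  exact (Prime.coprime_iff_not_dvd hpz).mpr hns

theorem root {p : ℕ} (hp : p.Prime) {r s : ℤ} (hc : IsCoprime r s)
    (hd : (p : ℤ) ^ 6 ∣ FF r s) :
    (((r : ℤ) : ZMod (p ^ 6)) * ((s : ℤ) : ZMod (p ^ 6))⁻¹) ^ 6 -
      52 * (((r : ℤ) : ZMod (p ^ 6)) * ((s : ℤ) : ZMod (p ^ 6))⁻¹) ^ 3 + 784 = 0 := by
  have hu := unit_s hp hc hd
  have h1 : ((FF r s : ℤ) : ZMod (p ^ 6)) = 0 := by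
    rw [ZMod.intCast_zmod_eq_zero_iff_dvd]
    push_cast
    exact hd
  have hinv : ((s : ℤ) : ZMod (p ^ 6)) * ((s : ℤ) : ZMod (p ^ 6))⁻¹ = 1 :=
    ZMod.mul_inv_of_unit _ hu
  set R : ZMod (p ^ 6) := ((r : ℤ) : ZMod (p ^ 6)) with hR
  set S : ZMod (p ^ 6) := ((s : ℤ) : ZMod (p ^ 6)) with hS
  have h2 : R ^ 6 - 52 * (R ^ 3 * S ^ 3) + 784 * S ^ 6 = 0 := by
    have : ((FF r s : ℤ) : ZMod (p ^ 6)) = R ^ 6 - 52 * (R ^ 3 * S ^ 3) + 784 * S ^ 6 := by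
      unfold FF
      push_cast
      ring
    rw [← this, h1]
  have e6 : S ^ 6 * (S⁻¹) ^ 6 = 1 := by rw [← mul_pow, hinv, one_pow]
  have e3 : S ^ 3 * (S⁻¹) ^ 3 = 1 := by rw [← mul_pow, hinv, one_pow]
  calc (R * S⁻¹) ^ 6 - 52 * (R * S⁻¹) ^ 3 + 784
      = R ^ 6 * (S⁻¹) ^ 6 - 52 * (R ^ 3 * (S⁻¹) ^ 3 * (S ^ 3 * (S⁻¹) ^ 3))
          + 784 * (S ^ 6 * (S⁻¹) ^ 6) := by rw [e6, e3]; ring
    _ = (R ^ 6 - 52 * (R ^ 3 * S ^ 3) + 784 * S ^ 6) * (S⁻¹) ^ 6 := by ring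
    _ = 0 := by rw [h2, zero_mul]


/-- The integer `42` is invertible modulo `p⁶` for a prime `p ≥ 11`. -/
theorem unit42 {p : ℕ} (hp : p.Prime) (h11 : 11 ≤ p) : IsUnit ((42 : ℤ) : ZMod (p ^ 6)) := by
  rw [ZMod.coe_int_isUnit_iff_isCoprime]
  push_cast
  apply IsCoprime.pow_left
  rw [show (42 : ℤ) = ((42 : ℕ) : ℤ) from rfl, Nat.isCoprime_iff_coprime]
  rw [Nat.Prime.coprime_iff_not_dvd hp]
  intro h
  have h43 : (42 : ℕ) = 2 * 3 * 7 := by norm_num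
  rw [h43] at h
  rcases (Nat.Prime.dvd_mul hp).mp h with h | h
  · rcases (Nat.Prime.dvd_mul hp).mp h with h | h
    · have := Nat.le_of_dvd (by norm_num) h
      omega
    · have := Nat.le_of_dvd (by norm_num) h
      omega
  · have := Nat.le_of_dvd (by norm_num) h
    omega

/-- For fixed `s` and fixed root `r / s`, the index `i` is determined modulo `p⁶`. -/
theorem cls {p : ℕ} (hp : p.Prime) (h11 : 11 ≤ p) {i i' : ℕ} {s : ℤ}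
    (hc : IsCoprime (1 + 42 * (i : ℤ)) s) (hd : (p : ℤ) ^ 6 ∣ FF (1 + 42 * (i : ℤ)) s)
    (he : (((1 + 42 * (i : ℤ) : ℤ)) : ZMod (p ^ 6)) * ((s : ℤ) : ZMod (p ^ 6))⁻¹ =
      (((1 + 42 * (i' : ℤ) : ℤ)) : ZMod (p ^ 6)) * ((s : ℤ) : ZMod (p ^ 6))⁻¹) :
    i % p ^ 6 = i' % p ^ 6 := by
  have hinv : ((s : ℤ) : ZMod (p ^ 6)) * ((s : ℤ) : ZMod (p ^ 6))⁻¹ = 1 :=
    ZMod.mul_inv_of_unit _ (unit_s hp hc hd)
  have h1 : (((1 + 42 * (i : ℤ) : ℤ)) : ZMod (p ^ 6)) = (((1 + 42 * (i' : ℤ) : ℤ)) : ZMod (p ^ 6)) := by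
    have h2 := congrArg (fun t => t * ((s : ℤ) : ZMod (p ^ 6))) he
    simp only [mul_assoc] at h2
    rw [mul_comm (((s : ℤ) : ZMod (p ^ 6)))⁻¹, hinv, mul_one, mul_one] at h2
    exact h2
  have h3 : ((42 : ℤ) : ZMod (p ^ 6)) * ((i : ℕ) : ZMod (p ^ 6)) =
      ((42 : ℤ) : ZMod (p ^ 6)) * ((i' : ℕ) : ZMod (p ^ 6)) := by
    push_cast at h1 ⊢
    exact add_left_cancel h1
  have h4 : ((i : ℕ) : ZMod (p ^ 6)) = ((i' : ℕ) : ZMod (p ^ 6)) := (unit42 hp h11).mul_left_cancel h3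
  exact (ZMod.natCast_eq_natCast_iff' _ _ _).mp h4

end IGS

/-- Item GS: one small prime. -/
theorem pr_GS (hHL : S_HL) : S_GS := by
  intro p Y hp h11
  have hp6 : p ^ 6 ≠ 0 := pow_ne_zero _ hp.ne_zero
  have hp6' : 0 < p ^ 6 := Nat.pos_of_ne_zero hp6
  have : NeZero (p ^ 6) := ⟨hp6⟩
  let R : Set (ZMod (p ^ 6)) := {x : ZMod (p ^ 6) | x ^ 6 - 52 * x ^ 3 + 784 = 0}
  let D : Finset (ℕ × ℕ) := Finset.range Y ×ˢ Finset.range (Y / p ^ 6 + 1)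
  have hT : (R ×ˢ (D : Set (ℕ × ℕ))).ncard ≤ 6 * Y * (Y / p ^ 6 + 1) := by
    rw [Set.ncard_prod, Set.ncard_coe_finset, Finset.card_product, Finset.card_range,
      Finset.card_range]
    calc R.ncard * (Y * (Y / p ^ 6 + 1)) ≤ 6 * (Y * (Y / p ^ 6 + 1)) :=
          Nat.mul_le_mul_right _ (hHL p hp h11)
      _ = 6 * Y * (Y / p ^ 6 + 1) := by ring
  have hTf : (R ×ˢ (D : Set (ℕ × ℕ))).Finite := (Set.toFinite R).prod (Finset.finite_toSet _)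
  refine le_trans (Set.ncard_le_ncard_of_injOn
    (fun q : ℕ × ℕ => ((((1 + 42 * (q.1 : ℤ) : ℤ)) : ZMod (p ^ 6)) *
      (((24 + 42 * (q.2 : ℤ) : ℤ)) : ZMod (p ^ 6))⁻¹, (q.2, q.1 / p ^ 6))) ?_ ?_ hTf) hT
  · rintro ⟨i, j⟩ ⟨hi, hj, hc, hd⟩
    simp only at hi hj hc hd
    refine Set.mk_mem_prod (IGS.root hp hc hd) ?_
    rw [Finset.mem_coe, Finset.mem_product, Finset.mem_range, Finset.mem_range]
    refine ⟨hj, ?_⟩
    exact Nat.lt_succ_of_le (Nat.div_le_div_right hi.le)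
  · rintro ⟨i, j⟩ ⟨hi, hj, hc, hd⟩ ⟨i', j'⟩ ⟨hi', hj', hc', hd'⟩ he
    simp only at hi hj hi' hj' hc hd hc' hd' he
    rw [Prod.mk.injEq, Prod.mk.injEq] at he
    obtain ⟨e1, e2, e3⟩ := he
    subst e2
    have e4 := IGS.cls hp h11 hc hd e1
    have e5 : i = i' := by
      rw [← Nat.div_add_mod i (p ^ 6), ← Nat.div_add_mod i' (p ^ 6), e3, e4]
    rw [e5]

end Pool.Agent.Work.MP_bd3ec3_nt.LB
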