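import Pool.Agent.Work.MP_bd3ec3_nt.LB.Stmts

/-!
# MP_bd3ec3_nt, block LB, item GX: sixth powers dividing the values of the form
-/

set_option autoImplicit false

open scoped BigOperators

namespace Pool.Agent.Work.MP_bd3ec3_nt.LB

namespace IGX

theorem pairs_finite (Y : ℕ) (P : ℤ → ℤ → Prop) : (Pairs Y P).Finite := by
  refine Set.Finite.subset (Finset.finite_toSet (Finset.range Y ×ˢ Finset.range Y)) ?_
  rintro ⟨i, j⟩ ⟨h1, h2, _⟩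
  simp only [Finset.coe_product, Finset.coe_range, Set.mem_prod, Set.mem_Iio]
  exact ⟨h1, h2⟩

theorem ncard_biUnion (S : Finset ℕ) (A : ℕ → Set (ℕ × ℕ)) :
    (⋃ p ∈ S, A p).ncard ≤ ∑ p ∈ S, (A p).ncard := by
  classical
  induction S using Finset.induction_on with
  | empty => simp
  | insert a S ha ih =>
    rw [Finset.set_biUnion_insert, Finset.sum_insert ha]
    exact (Set.ncard_union_le _ _).trans (Nat.add_le_add_left ih _)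

theorem FF_odd (r s : ℤ) (hr : r % 42 = 1) (hs : s % 42 = 24) : Odd (FF r s) := by
  have h1 : Odd r := by
    rw [Int.odd_iff]
    omega
  have h2 : Even s := by
    rw [Int.even_iff]
    omega
  unfold FF
  refine Odd.add_even (Odd.pow (Odd.sub_even (Odd.pow h1) ?_)) ?_
  · exact Even.mul_left (h2.pow_of_ne_zero (by norm_num)) _
  · exact Even.mul_left (h2.pow_of_ne_zero (by norm_num)) _

theorem FF_pos (r s : ℤ) (hs : 0 < s) : 0 < FF r s := by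
  unfold FF
  have : 0 < s ^ 6 := by positivity
  nlinarith [sq_nonneg (r ^ 3 - 26 * s ^ 3)]

theorem FF_le (r s X : ℤ) (hr : 0 < r) (hs : 0 < s) (hrX : r ≤ X) (hsX : s ≤ X) :
    FF r s ≤ (4 * X) ^ 6 := by
  have hX : 0 < X := lt_of_lt_of_le hr hrX
  have h1 : r ^ 3 ≤ X ^ 3 := pow_le_pow_left₀ hr.le hrX 3
  have h2 : s ^ 3 ≤ X ^ 3 := pow_le_pow_left₀ hs.le hsX 3
  have h3 : s ^ 6 ≤ X ^ 6 := pow_le_pow_left₀ hs.le hsX 6
  have h4 : 0 < r ^ 3 := by positivity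
  have h5 : 0 < s ^ 3 := by positivity
  have h6 : 0 < X ^ 3 := by positivity
  have h7 : (r ^ 3 - 26 * s ^ 3) ^ 2 ≤ (26 * X ^ 3) ^ 2 := by
    apply sq_le_sq' <;> nlinarith
  unfold FF
  have h8 : (26 * X ^ 3) ^ 2 = 676 * X ^ 6 := by ring
  have h9 : (4 * X) ^ 6 = 4096 * X ^ 6 := by ring
  have h10 : 0 < X ^ 6 := by positivity
  rw [h9]
  rw [h8] at h7
  linarith

/-- The facts on one prime whose sixth power divides `16 F`. -/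
theorem prime_facts (hPR : S_PR) (r s X : ℤ) (p : ℕ) (hp : p.Prime) (hr : r % 42 = 1)
    (hs : s % 42 = 24) (hr0 : 0 < r) (hs0 : 0 < s) (hrX : r ≤ X) (hsX : s ≤ X)
    (hc : IsCoprime r s) (hd : (p : ℤ) ^ 6 ∣ 16 * FF r s) :
    13 ≤ p ∧ (p : ℤ) ≤ 4 * X ∧ (p : ℤ) ^ 6 ∣ FF r s := by
  have hodd := FF_odd r s hr hs
  have hX : 0 < X := lt_of_lt_of_le hr0 hrX
  have hp2 : p ≠ 2 := by
    rintro rfl
    obtain ⟨c, hc'⟩ := hd
    obtain ⟨d, hd'⟩ := hodd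
    rw [hd'] at hc'
    norm_num at hc'
    omega
  have hcop : IsCoprime ((p : ℤ) ^ 6) 16 := by
    have h1 : IsCoprime (p : ℤ) (2 : ℤ) := by
      have := (Nat.coprime_primes hp Nat.prime_two).mpr hp2
      exact_mod_cast (Nat.isCoprime_iff_coprime.mpr this)
    have h2 : IsCoprime ((p : ℤ) ^ 6) ((2 : ℤ) ^ 4) := h1.pow
    norm_num at h2
    exact h2
  have hd2 : (p : ℤ) ^ 6 ∣ FF r s := hcop.dvd_of_dvd_mul_left hd
  have hd1 : (p : ℤ) ∣ FF r s := (dvd_pow_self _ (by norm_num)).trans hd2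
  refine ⟨(hPR r s hr hs hc p hp hd1).2, ?_, hd2⟩
  have h1 : (p : ℤ) ^ 6 ≤ FF r s := Int.le_of_dvd (FF_pos r s hs0) hd2
  have h2 : (p : ℤ) ^ 6 ≤ (4 * X) ^ 6 := h1.trans (FF_le r s X hr0 hs0 hrX hsX)
  exact le_of_pow_le_pow_left₀ (by norm_num) (by positivity) h2

/-- The bound for one prime. -/
theorem one_prime (hGS : S_GS) (hGL : S_GL) (Y p : ℕ) (hp : p.Prime) (h13 : 13 ≤ p) :
    ((Pairs Y (fun r s => IsCoprime r s ∧ (p : ℤ) ^ 6 ∣ FF r s)).ncard : ℝ) ≤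
      6 * (Y : ℝ) ^ 2 / 28561 * (((p : ℝ) ^ 2)⁻¹) +
        (if p ^ 3 ≤ 42 * Y + 24 then 6 * (Y : ℝ) else 0) + 6 := by
  have hp0 : (0 : ℝ) < p := by
    have : 0 < p := by omega
    exact_mod_cast this
  split_ifs with h
  · have h1 := hGS p Y hp (by omega)
    have h2 : ((Pairs Y (fun r s => IsCoprime r s ∧ (p : ℤ) ^ 6 ∣ FF r s)).ncard : ℝ) ≤
        6 * (Y : ℝ) * (((Y / p ^ 6 : ℕ) : ℝ) + 1) := by
      exact_mod_cast h1
    have h3 : ((Y / p ^ 6 : ℕ) : ℝ) ≤ (Y : ℝ) / (p : ℝ) ^ 6 := by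
      have := @Nat.cast_div_le ℝ _ _ _ Y (p ^ 6)
      rwa [Nat.cast_pow] at this
    have h4 : (Y : ℝ) / (p : ℝ) ^ 6 ≤ (Y : ℝ) / 28561 * (((p : ℝ) ^ 2)⁻¹) := by
      have h5 : (28561 : ℝ) ≤ (p : ℝ) ^ 4 := by
        have h6 : (13 : ℝ) ≤ p := by exact_mod_cast h13
        calc (28561 : ℝ) = 13 ^ 4 := by norm_num
          _ ≤ (p : ℝ) ^ 4 := pow_le_pow_left₀ (by norm_num) h6 4
      rw [div_mul_eq_mul_div, ← div_eq_mul_inv, div_div]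
      apply div_le_div_of_nonneg_left (Nat.cast_nonneg _) (by positivity)
      calc (p : ℝ) ^ 2 * 28561 ≤ (p : ℝ) ^ 2 * (p : ℝ) ^ 4 := by gcongr
        _ = (p : ℝ) ^ 6 := by ring
    have h7 : 6 * (Y : ℝ) * (((Y / p ^ 6 : ℕ) : ℝ) + 1) ≤
        6 * (Y : ℝ) * ((Y : ℝ) / 28561 * (((p : ℝ) ^ 2)⁻¹) + 1) := by
      have : (((Y / p ^ 6 : ℕ) : ℝ) + 1) ≤ ((Y : ℝ) / 28561 * (((p : ℝ) ^ 2)⁻¹) + 1) := by
        linarith
      gcongr
    have h8 : 6 * (Y : ℝ) * ((Y : ℝ) / 28561 * (((p : ℝ) ^ 2)⁻¹) + 1) =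
        6 * (Y : ℝ) ^ 2 / 28561 * (((p : ℝ) ^ 2)⁻¹) + 6 * (Y : ℝ) := by ring
    linarith
  · have h1 := hGL p Y hp (by omega) (by
      push Not at h
      calc (42 * Y + 24) ^ 2 < (p ^ 3) ^ 2 := Nat.pow_lt_pow_left h (by norm_num)
        _ = p ^ 6 := by ring)
    have h2 : ((Pairs Y (fun r s => IsCoprime r s ∧ (p : ℤ) ^ 6 ∣ FF r s)).ncard : ℝ) ≤ 6 := by
      exact_mod_cast h1
    have h3 : (0 : ℝ) ≤ 6 * (Y : ℝ) ^ 2 / 28561 * (((p : ℝ) ^ 2)⁻¹) := by positivity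
    linarith

/-- The number of primes with `p³ ≤ X`. -/
theorem few_small (Y : ℕ) (hY : 10 ^ 6 ≤ Y) (S : Finset ℕ) (hS : ∀ p ∈ S, 0 < p) :
    (S.filter (fun p => p ^ 3 ≤ 42 * Y + 24)).card ≤ Y / 1000 := by
  have h : S.filter (fun p => p ^ 3 ≤ 42 * Y + 24) ⊆ Finset.Ioc 0 (Y / 1000) := by
    intro p hp
    rw [Finset.mem_filter] at hp
    rw [Finset.mem_Ioc]
    refine ⟨hS p hp.1, ?_⟩
    by_contra hcon
    push Not at hcon
    have h1 : Y < 1000 * p := by omega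
    have h2 : Y ^ 3 < (1000 * p) ^ 3 := Nat.pow_lt_pow_left h1 (by norm_num)
    have h3 : (1000 * p) ^ 3 = 10 ^ 9 * p ^ 3 := by ring
    have h4 : (1000 * p) ^ 3 ≤ 10 ^ 9 * (42 * Y + 24) := by
      rw [h3]
      exact Nat.mul_le_mul_left _ hp.2
    have h5 : 10 ^ 12 * Y ≤ Y ^ 3 := by
      calc 10 ^ 12 * Y = (10 ^ 6) ^ 2 * Y := by ring
        _ ≤ Y ^ 2 * Y := Nat.mul_le_mul_right _ (Nat.pow_le_pow_left hY 2)
        _ = Y ^ 3 := by ring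
    omega
  calc (S.filter (fun p => p ^ 3 ≤ 42 * Y + 24)).card ≤ (Finset.Ioc 0 (Y / 1000)).card :=
        Finset.card_le_card h
    _ = Y / 1000 := by simp

theorem sum_inv_sq (S : Finset ℕ) (M : ℕ) (hS : S ⊆ Finset.Ioc 12 M) (hM : 12 ≤ M) :
    ∑ p ∈ S, ((p : ℝ) ^ 2)⁻¹ ≤ 1 / 12 := by
  have h1 : ∑ p ∈ S, ((p : ℝ) ^ 2)⁻¹ ≤ ∑ p ∈ Finset.Ioc 12 M, ((p : ℝ) ^ 2)⁻¹ :=
    Finset.sum_le_sum_of_subset_of_nonneg hS (fun p _ _ => by positivity)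
  have h2 : ∑ p ∈ Finset.Ioc 12 M, ((p : ℝ) ^ 2)⁻¹ ≤ ((12 : ℕ) : ℝ)⁻¹ - (M : ℝ)⁻¹ :=
    sum_Ioc_inv_sq_le_sub (by norm_num) hM
  have h3 : (0 : ℝ) ≤ (M : ℝ)⁻¹ := by positivity
  have h4 : ((12 : ℕ) : ℝ)⁻¹ = 1 / 12 := by norm_num
  linarith

end IGX

open IGX in
theorem pr_GX (hPR : S_PR) (hGS : S_GS) (hGL : S_GL) : S_GX := by
  refine ⟨10 ^ 6, fun Y hY => ?_⟩
  set X : ℕ := 42 * Y + 24 with hX
  set S : Finset ℕ := (Finset.Ioc 12 (4 * X)).filter Nat.Prime with hS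
  have hcov : Pairs Y (fun r s => IsCoprime r s ∧ ∃ p : ℕ, p.Prime ∧ (p : ℤ) ^ 6 ∣ 16 * FF r s) ⊆
      ⋃ p ∈ S, Pairs Y (fun r s => IsCoprime r s ∧ (p : ℤ) ^ 6 ∣ FF r s) := by
    rintro ⟨i, j⟩ ⟨hi, hj, hc, p, hp, hd⟩
    have hi' : (i : ℤ) < Y := by exact_mod_cast hi
    have hj' : (j : ℤ) < Y := by exact_mod_cast hj
    have hi0 : (0 : ℤ) ≤ i := Int.natCast_nonneg i
    have hj0 : (0 : ℤ) ≤ j := Int.natCast_nonneg j
    obtain ⟨h13, h4, hd'⟩ := prime_facts hPR _ _ (X : ℤ) p hp (by dsimp only; omega)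
      (by dsimp only; omega) (by dsimp only; omega) (by dsimp only; omega)
      (by rw [hX]; push_cast; omega) (by rw [hX]; push_cast; omega) hc hd
    simp only [Set.mem_iUnion]
    refine ⟨p, ?_, hi, hj, hc, hd'⟩
    rw [hS, Finset.mem_filter, Finset.mem_Ioc]
    refine ⟨⟨by omega, by exact_mod_cast h4⟩, hp⟩
  have hN : (Pairs Y (fun r s => IsCoprime r s ∧ ∃ p : ℕ, p.Prime ∧
      (p : ℤ) ^ 6 ∣ 16 * FF r s)).ncard ≤
      ∑ p ∈ S, (Pairs Y (fun r s => IsCoprime r s ∧ (p : ℤ) ^ 6 ∣ FF r s)).ncard := by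
    refine (Set.ncard_le_ncard hcov ?_).trans (ncard_biUnion S _)
    exact Set.Finite.biUnion (Finset.finite_toSet S) (fun p _ => pairs_finite Y _)
  set N : ℕ := (Pairs Y (fun r s => IsCoprime r s ∧ ∃ p : ℕ, p.Prime ∧
      (p : ℤ) ^ 6 ∣ 16 * FF r s)).ncard with hNdef
  have hNR : (N : ℝ) ≤ ∑ p ∈ S, (6 * (Y : ℝ) ^ 2 / 28561 * (((p : ℝ) ^ 2)⁻¹) +
        (if p ^ 3 ≤ 42 * Y + 24 then 6 * (Y : ℝ) else 0) + 6) := by
    have h1 : (N : ℝ) ≤ ∑ p ∈ S,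
        ((Pairs Y (fun r s => IsCoprime r s ∧ (p : ℤ) ^ 6 ∣ FF r s)).ncard : ℝ) := by
      exact_mod_cast hN
    refine h1.trans (Finset.sum_le_sum ?_)
    intro p hp
    rw [hS, Finset.mem_filter, Finset.mem_Ioc] at hp
    exact one_prime hGS hGL Y p hp.2 (by omega)
  rw [Finset.sum_add_distrib, Finset.sum_add_distrib, ← Finset.mul_sum] at hNR
  have hA : ∑ p ∈ S, ((p : ℝ) ^ 2)⁻¹ ≤ 1 / 12 := by
    exact sum_inv_sq S (4 * X) (Finset.filter_subset _ _) (by omega)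
  have hB : ∑ p ∈ S, (if p ^ 3 ≤ 42 * Y + 24 then 6 * (Y : ℝ) else 0) ≤
      6 * (Y : ℝ) * ((Y : ℝ) / 1000) := by
    rw [← Finset.sum_filter, Finset.sum_const, nsmul_eq_mul]
    have h1 := few_small Y hY S (by
      intro p hp
      rw [hS, Finset.mem_filter, Finset.mem_Ioc] at hp
      omega)
    have h2 : (((S.filter (fun p => p ^ 3 ≤ 42 * Y + 24)).card : ℕ) : ℝ) ≤ (Y : ℝ) / 1000 := by
      have h3 : (((S.filter (fun p => p ^ 3 ≤ 42 * Y + 24)).card : ℕ) : ℝ) ≤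
          ((Y / 1000 : ℕ) : ℝ) := by exact_mod_cast h1
      have h4 : ((Y / 1000 : ℕ) : ℝ) ≤ (Y : ℝ) / ((1000 : ℕ) : ℝ) := Nat.cast_div_le
      have h5 : ((1000 : ℕ) : ℝ) = 1000 := by norm_num
      rw [h5] at h4
      exact h3.trans h4
    have h6 : (0 : ℝ) ≤ 6 * (Y : ℝ) := by positivity
    calc (((S.filter (fun p => p ^ 3 ≤ 42 * Y + 24)).card : ℕ) : ℝ) * (6 * (Y : ℝ)) ≤
        (Y : ℝ) / 1000 * (6 * (Y : ℝ)) := mul_le_mul_of_nonneg_right h2 h6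
      _ = 6 * (Y : ℝ) * ((Y : ℝ) / 1000) := by ring
  have hC : ∑ _p ∈ S, (6 : ℝ) ≤ 24 * (42 * (Y : ℝ) + 24) := by
    rw [Finset.sum_const, nsmul_eq_mul]
    have h1 : S.card ≤ 4 * X := by
      calc S.card ≤ (Finset.Ioc 12 (4 * X)).card := Finset.card_le_card (Finset.filter_subset _ _)
        _ = 4 * X - 12 := by simp
        _ ≤ 4 * X := Nat.sub_le _ _
    have h2 : (S.card : ℝ) ≤ 4 * (42 * (Y : ℝ) + 24) := by
      have : (S.card : ℝ) ≤ ((4 * X : ℕ) : ℝ) := by exact_mod_cast h1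
      rw [hX] at this
      push_cast at this
      exact this
    linarith
  have hYR : (10 ^ 6 : ℝ) ≤ (Y : ℝ) := by exact_mod_cast hY
  have hfin : 6 * (N : ℝ) ≤ (Y : ℝ) ^ 2 := by
    have h1 : 6 * (Y : ℝ) ^ 2 / 28561 * ∑ p ∈ S, ((p : ℝ) ^ 2)⁻¹ ≤
        6 * (Y : ℝ) ^ 2 / 28561 * (1 / 12) := by
      apply mul_le_mul_of_nonneg_left hA
      positivity
    have h2 : (N : ℝ) ≤ 6 * (Y : ℝ) ^ 2 / 28561 * (1 / 12) + 6 * (Y : ℝ) * ((Y : ℝ) / 1000) +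
        24 * (42 * (Y : ℝ) + 24) := by linarith
    nlinarith
  exact_mod_cast hfin

end Pool.Agent.Work.MP_bd3ec3_nt.LB
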