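import Pool.Agent.Work.MP_bd3ec3_nt.LB.Stmts

/-!
# MP_bd3ec3_nt, block LB: item HL (roots modulo sixth powers of primes)
-/

set_option autoImplicit false

open scoped BigOperators

namespace Pool.Agent.Work.MP_bd3ec3_nt.LB

namespace IHL

/-- A natural number which is zero modulo the prime `p` is divisible by `p`. -/
theorem natCast_ne_zero (p n : ℕ) (h : ¬ p ∣ n) : ((n : ℕ) : ZMod p) ≠ 0 := by
  intro h0
  exact h ((ZMod.natCast_eq_zero_iff n p).mp h0)

theorem not_dvd_784 (p : ℕ) (hp : p.Prime) (h11 : 11 ≤ p) : ¬ p ∣ 784 := by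
  intro h
  have h1 : p ∣ 2 ^ 4 * 7 ^ 2 := by
    have : (784 : ℕ) = 2 ^ 4 * 7 ^ 2 := by norm_num
    rwa [this] at h
  rcases (Nat.Prime.dvd_mul hp).mp h1 with h2 | h2
  · have := Nat.le_of_dvd (by norm_num) (hp.dvd_of_dvd_pow h2)
    omega
  · have := Nat.le_of_dvd (by norm_num) (hp.dvd_of_dvd_pow h2)
    omega

theorem not_dvd_108 (p : ℕ) (hp : p.Prime) (h11 : 11 ≤ p) : ¬ p ∣ 108 := by
  intro h
  have h1 : p ∣ 2 ^ 2 * 3 ^ 3 := by
    have : (108 : ℕ) = 2 ^ 2 * 3 ^ 3 := by norm_num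
    rwa [this] at h
  rcases (Nat.Prime.dvd_mul hp).mp h1 with h2 | h2
  · have := Nat.le_of_dvd (by norm_num) (hp.dvd_of_dvd_pow h2)
    omega
  · have := Nat.le_of_dvd (by norm_num) (hp.dvd_of_dvd_pow h2)
    omega

theorem not_dvd_6 (p : ℕ) (h11 : 11 ≤ p) : ¬ p ∣ 6 := by
  intro h
  have := Nat.le_of_dvd (by norm_num) h
  omega

/-- The derivative does not vanish at the roots modulo `p`. -/
theorem deriv_ne (p : ℕ) [Fact p.Prime] (h11 : 11 ≤ p) (t : ZMod p) (ht : t ^ 6 - 52 * t ^ 3 + 784 = 0) :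
    6 * t ^ 2 * (t ^ 3 - 26) ≠ 0 := by
  have hp : p.Prime := Fact.out
  have h784 : (784 : ZMod p) ≠ 0 := by
    have := natCast_ne_zero p 784 (not_dvd_784 p hp h11)
    exact_mod_cast this
  have h108 : (108 : ZMod p) ≠ 0 := by
    have := natCast_ne_zero p 108 (not_dvd_108 p hp h11)
    exact_mod_cast this
  have h6 : (6 : ZMod p) ≠ 0 := by
    have := natCast_ne_zero p 6 (not_dvd_6 p h11)
    exact_mod_cast this
  have ht0 : t ≠ 0 := by
    intro h
    rw [h] at ht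
    apply h784
    linear_combination ht
  have ht26 : t ^ 3 - 26 ≠ 0 := by
    intro h
    apply h108
    linear_combination ht - (t ^ 3 - 26) * h
  exact mul_ne_zero (mul_ne_zero h6 (pow_ne_zero 2 ht0)) ht26

/-- An element of `ZMod (p ^ 6)` which is not zero modulo `p` is a unit. -/
theorem isUnit_of_ne (p : ℕ) (hp : p.Prime) (h : ZMod (p ^ 6))
    (hh : ZMod.castHom (dvd_pow_self p (by norm_num : (6 : ℕ) ≠ 0)) (ZMod p) h ≠ 0) : IsUnit h := by
  have : NeZero (p ^ 6) := ⟨pow_ne_zero 6 hp.ne_zero⟩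
  have h1 : ((h.val : ℕ) : ZMod (p ^ 6)) = h := ZMod.natCast_zmod_val h
  rw [← h1, ZMod.isUnit_iff_coprime]
  apply Nat.Coprime.pow_right
  rw [Nat.coprime_comm, Nat.Prime.coprime_iff_not_dvd hp]
  intro hd
  apply hh
  rw [← h1, map_natCast]
  exact (ZMod.natCast_eq_zero_iff _ _).mpr hd

end IHL

theorem pr_HL : S_HL := by
  intro p hp h11
  have : Fact p.Prime := ⟨hp⟩
  have : NeZero (p ^ 6) := ⟨pow_ne_zero 6 hp.ne_zero⟩
  set φ : ZMod (p ^ 6) →+* ZMod p :=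
    ZMod.castHom (dvd_pow_self p (by norm_num : (6 : ℕ) ≠ 0)) (ZMod p) with hφ
  have h52 : φ 52 = 52 := map_ofNat φ 52
  have h784 : φ 784 = 784 := map_ofNat φ 784
  set S : Set (ZMod (p ^ 6)) := {x : ZMod (p ^ 6) | x ^ 6 - 52 * x ^ 3 + 784 = 0} with hS
  have hmap : ∀ x ∈ S, (φ x) ^ 6 - 52 * (φ x) ^ 3 + 784 = 0 := by
    intro x hx
    have h1 : x ^ 6 - 52 * x ^ 3 + 784 = 0 := hx
    have h2 := congrArg φ h1
    rw [map_add, map_sub, map_mul, map_pow, map_pow, map_zero, h52, h784] at h2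
    exact h2
  have hinj : Set.InjOn φ S := by
    intro x hx y hy hxy
    have h1 : x ^ 6 - 52 * x ^ 3 + 784 = 0 := hx
    have h2 : y ^ 6 - 52 * y ^ 3 + 784 = 0 := hy
    set h : ZMod (p ^ 6) := (x ^ 5 + x ^ 4 * y + x ^ 3 * y ^ 2 + x ^ 2 * y ^ 3 + x * y ^ 4 + y ^ 5) -
      52 * (x ^ 2 + x * y + y ^ 2) with hh
    have hprod : (x - y) * h = 0 := by
      rw [hh]
      linear_combination h1 - h2
    have hφh : φ h = 6 * (φ x) ^ 2 * ((φ x) ^ 3 - 26) := by
      rw [hh, map_sub, map_mul, h52]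
      rw [map_add φ (x ^ 5 + x ^ 4 * y + x ^ 3 * y ^ 2 + x ^ 2 * y ^ 3 + x * y ^ 4) (y ^ 5)]
      rw [map_add φ (x ^ 5 + x ^ 4 * y + x ^ 3 * y ^ 2 + x ^ 2 * y ^ 3) (x * y ^ 4)]
      rw [map_add φ (x ^ 5 + x ^ 4 * y + x ^ 3 * y ^ 2) (x ^ 2 * y ^ 3)]
      rw [map_add φ (x ^ 5 + x ^ 4 * y) (x ^ 3 * y ^ 2)]
      rw [map_add φ (x ^ 5) (x ^ 4 * y)]
      rw [map_add φ (x ^ 2 + x * y) (y ^ 2), map_add φ (x ^ 2) (x * y)]
      rw [map_mul, map_mul, map_mul, map_mul, map_mul]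
      repeat rw [map_pow]
      rw [← hxy]
      ring
    have hu : IsUnit h := by
      apply IHL.isUnit_of_ne p hp
      show φ h ≠ 0
      rw [hφh]
      exact IHL.deriv_ne p h11 (φ x) (hmap x hx)
    have h3 : x - y = 0 := (hu.mul_left_eq_zero).mp hprod
    exact sub_eq_zero.mp h3
  have hG : (Polynomial.X ^ 6 - 52 * Polynomial.X ^ 3 + 784 : Polynomial (ZMod p)).natDegree = 6 := by
    have h0 : (Polynomial.X ^ 6 - 52 * Polynomial.X ^ 3 + 784 : Polynomial (ZMod p)) =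
        Polynomial.X ^ 6 - Polynomial.C 52 * Polynomial.X ^ 3 + Polynomial.C 784 := by
      rw [show (Polynomial.C (52 : ZMod p) : Polynomial (ZMod p)) = 52 from map_ofNat Polynomial.C 52,
        show (Polynomial.C (784 : ZMod p) : Polynomial (ZMod p)) = 784 from map_ofNat Polynomial.C 784]
    rw [h0]
    compute_degree!
  have hG0 : (Polynomial.X ^ 6 - 52 * Polynomial.X ^ 3 + 784 : Polynomial (ZMod p)) ≠ 0 := by
    intro h
    rw [h] at hG
    simp at hG
  calc S.ncard = (φ '' S).ncard := hinj.ncard_image.symm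
    _ ≤ ((Polynomial.X ^ 6 - 52 * Polynomial.X ^ 3 + 784 : Polynomial (ZMod p)).roots.toFinset :
          Set (ZMod p)).ncard := by
        apply Set.ncard_le_ncard _ (Finset.finite_toSet _)
        rintro _ ⟨x, hx, rfl⟩
        rw [Finset.mem_coe, Multiset.mem_toFinset, Polynomial.mem_roots hG0]
        show Polynomial.eval (φ x) _ = 0
        have := hmap x hx
        simpa using this
    _ = (Polynomial.X ^ 6 - 52 * Polynomial.X ^ 3 + 784 : Polynomial (ZMod p)).roots.toFinset.card :=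
        Set.ncard_coe_finset _
    _ ≤ Multiset.card (Polynomial.X ^ 6 - 52 * Polynomial.X ^ 3 + 784 : Polynomial (ZMod p)).roots :=
        Multiset.toFinset_card_le _
    _ ≤ (Polynomial.X ^ 6 - 52 * Polynomial.X ^ 3 + 784 : Polynomial (ZMod p)).natDegree :=
        Polynomial.card_roots' _
    _ = 6 := hG

end Pool.Agent.Work.MP_bd3ec3_nt.LB
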