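import Pool.Agent.Work.MP_bd3ec3_nt.LB.StmtsU

/-!
# MP_bd3ec3_nt, block LB, item NC2: `4 F` with `F` odd is not a cube of a rational number
-/

set_option autoImplicit false

namespace Pool.Agent.Work.MP_bd3ec3_nt.LB

namespace INC2

/-- The `2`-adic valuation of `4 F` with `F` odd is `2`. -/
theorem val4 (F : ℤ) (hF : F % 2 = 1) : padicValRat 2 (((4 * F : ℤ)) : ℚ) = 2 := by
  have : Fact (Nat.Prime 2) := ⟨Nat.prime_two⟩
  have hF0 : F ≠ 0 := by rintro rfl; simp at hF
  have hFq : (F : ℚ) ≠ 0 := by exact_mod_cast hF0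
  have h1 : (((4 * F : ℤ)) : ℚ) = (2 : ℚ) ^ 2 * (F : ℚ) := by push_cast; norm_num
  rw [h1, padicValRat.mul (by norm_num) hFq, padicValRat.pow]
  have h2 : padicValRat 2 (2 : ℚ) = 1 := by
    have := padicValRat.self (p := 2) (by norm_num)
    exact_mod_cast this
  have h3 : padicValRat 2 (F : ℚ) = 0 := by
    rw [padicValRat.of_int]
    have h4 : padicValInt 2 F = 0 := by
      apply padicValInt.eq_zero_of_not_dvd
      intro h
      have : F % 2 = 0 := Int.emod_eq_zero_of_dvd (by exact_mod_cast h)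
      omega
    rw [h4]; rfl
  rw [h2, h3]; norm_num

end INC2

/-- Item NC2. -/
theorem pr_NC2 : S_NC2 := by
  intro F hF z hz
  have : Fact (Nat.Prime 2) := ⟨Nat.prime_two⟩
  have hv := INC2.val4 F hF
  rw [← hz] at hv
  have hz0 : z ≠ 0 := by
    rintro rfl
    have : ((4 * F : ℤ) : ℚ) = 0 := by rw [← hz]; norm_num
    have h2 : (4 * F : ℤ) = 0 := by exact_mod_cast this
    omega
  rw [padicValRat.pow] at hv
  push_cast at hv
  omega

end Pool.Agent.Work.MP_bd3ec3_nt.LB
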