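import Pool.Agent.Work.MP_bd3ec3_nt.LB.Stmts

/-!
# MP_bd3ec3_nt, block LB, item NR: no halves
-/

set_option autoImplicit false

namespace Pool.Agent.Work.MP_bd3ec3_nt.LB

namespace INR

theorem cast_of_mod (x c : ℤ) (h : x % 7 = c % 7) : (x : ZMod 7) = (c : ZMod 7) :=
  (ZMod.intCast_eq_intCast_iff x c 7).2 h

end INR

/-- item NR -/
theorem pr_NR (hQR : S_QR) : S_NR := by
  intro r s hr hs z
  have hr' : ((r : ℤ) : ZMod 7) = 1 := by
    have h := INR.cast_of_mod r 1 (by omega)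
    rw [h, Int.cast_one]
  have hs' : ((s : ℤ) : ZMod 7) = 3 := by
    have h := INR.cast_of_mod s 3 (by omega)
    rw [h]
    rfl
  have hk' : ((16 * FF r s : ℤ) : ZMod 7) = 1 := by
    unfold FF
    push_cast
    rw [hr', hs']
    decide
  refine ⟨fun h => ?_, fun h => ?_, fun h => ?_⟩
  · obtain ⟨u, hu⟩ := hQR (16 * FF r s) (-12 * s ^ 2) 1 z (by rw [Int.cast_one]; decide) (by
      have e : (((-12 * s ^ 2 : ℤ) : ℚ) / ((1 : ℤ) : ℚ)) = -12 * (s : ℚ) ^ 2 := by
        push_cast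
        ring
      rw [e]
      exact h)
    rw [hk'] at hu
    push_cast at hu
    rw [hs'] at hu
    revert u
    decide
  · obtain ⟨u, hu⟩ := hQR (16 * FF r s) (-4 * r * s) 1 z (by rw [Int.cast_one]; decide) (by
      have e : (((-4 * r * s : ℤ) : ℚ) / ((1 : ℤ) : ℚ)) = -4 * (r : ℚ) * s := by
        push_cast
        ring
      rw [e]
      exact h)
    rw [hk'] at hu
    push_cast at hu
    rw [hr', hs'] at hu
    revert u
    decide
  · obtain ⟨u, hu⟩ := hQR (16 * FF r s)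
      (4 * (r ^ 2 + 3 * r * s + 9 * s ^ 2) ^ 2 + 12 * s ^ 4 + 4 * r * s ^ 3) (s ^ 2) z (by
        push_cast
        rw [hs']
        decide) (by
      have e : (((4 * (r ^ 2 + 3 * r * s + 9 * s ^ 2) ^ 2 + 12 * s ^ 4 + 4 * r * s ^ 3 : ℤ) : ℚ) /
          ((s ^ 2 : ℤ) : ℚ)) =
          (4 * ((r : ℚ) ^ 2 + 3 * r * s + 9 * s ^ 2) ^ 2 + 12 * s ^ 4 + 4 * r * s ^ 3) / s ^ 2 := by
        push_cast
        ring
      rw [e]
      exact h)
    rw [hk'] at hu
    push_cast at hu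
    rw [hr', hs'] at hu
    revert u
    decide

end Pool.Agent.Work.MP_bd3ec3_nt.LB
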