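import Pool.Agent.Work.MP_bd3ec3_nt.LB.Stmts

/-! Item PT of block LB: the two points. -/

set_option autoImplicit false

namespace Pool.Agent.Work.MP_bd3ec3_nt.LB

open WeierstrassCurve.Affine

namespace IPT

theorem ns (k : ℤ) (hk : k ≠ 0) (x y : ℚ) (h : y ^ 2 = x ^ 3 + k) : (Ek k).Nonsingular x y := by
  rw [nonsingular_iff', equation_iff]
  refine ⟨by simp only [Ek]; linarith, ?_⟩
  by_contra hcon
  rw [not_or, not_not, not_not] at hcon
  obtain ⟨h1, h2⟩ := hcon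
  simp only [Ek] at h1 h2
  have hx : x ^ 2 = 0 := by linarith
  have hx0 : x = 0 := by
    rcases pow_eq_zero_iff (two_ne_zero) |>.1 hx with h
    exact h
  have hy0 : y = 0 := by linarith
  rw [hx0, hy0] at h
  have : (k : ℚ) = 0 := by linarith
  exact hk (by exact_mod_cast this)

theorem FF_ne (r s : ℤ) (hs : s ≠ 0) : 16 * FF r s ≠ 0 := by
  have h1 : 0 < s ^ 6 := by positivity
  have h2 : 0 ≤ (r ^ 3 - 26 * s ^ 3) ^ 2 := sq_nonneg _
  unfold FF
  intro h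
  linarith

end IPT

theorem pr_PT : S_PT := by
  intro r s hs hr
  have hk := IPT.FF_ne r s hs
  have hsq : (s : ℚ) ≠ 0 := by exact_mod_cast hs
  have hrq : (r : ℚ) - 3 * s ≠ 0 := by
    intro h
    apply hr
    have : (r : ℚ) = 3 * s := by linarith
    exact_mod_cast this
  have hP : (Ek (16 * FF r s)).Nonsingular (-12 * (s : ℚ) ^ 2) (4 * ((r : ℚ) ^ 3 - 26 * s ^ 3)) := by
    apply IPT.ns _ hk
    unfold FF
    push_cast
    ring
  have hQ : (Ek (16 * FF r s)).Nonsingular (-4 * (r : ℚ) * s) (4 * (28 * (s : ℚ) ^ 3 - r ^ 3)) := by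
    apply IPT.ns _ hk
    unfold FF
    push_cast
    ring
  have hx : (-12 * (s : ℚ) ^ 2) ≠ -4 * (r : ℚ) * s := by
    intro h
    have : (4 * (s : ℚ)) * ((r : ℚ) - 3 * s) = 0 := by linarith
    rcases mul_eq_zero.1 this with h' | h'
    · exact hsq (by linarith)
    · exact hrq h'
  refine ⟨Point.some _ _ hP, Point.some _ _ hQ, rfl, rfl, ?_⟩
  rw [Point.add_of_X_ne hx]
  change (Ek (16 * FF r s)).addX _ _ _ = _
  rw [slope_of_X_ne hx]
  have hx' : (-12 * (s : ℚ) ^ 2) - (-4 * (r : ℚ) * s) = 4 * s * (r - 3 * s) := by ring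
  have hsl : (4 * ((r : ℚ) ^ 3 - 26 * s ^ 3) - 4 * (28 * (s : ℚ) ^ 3 - r ^ 3)) /
      ((-12 * (s : ℚ) ^ 2) - (-4 * (r : ℚ) * s)) = 2 * (r ^ 2 + 3 * r * s + 9 * s ^ 2) / s := by
    rw [hx', div_eq_div_iff (mul_ne_zero (mul_ne_zero (by norm_num) hsq) hrq) hsq]
    ring
  rw [hsl]
  simp only [addX, Ek]
  field_simp
  ring

end Pool.Agent.Work.MP_bd3ec3_nt.LB
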