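import Pool.Agent.Work.MP_bd3ec3_nt.LB.Stmts

set_option autoImplicit false

namespace Pool.Agent.Work.MP_bd3ec3_nt.LB

namespace IRK

theorem odd_FF (r s : ℤ) (hr : r % 42 = 1) : FF r s % 2 = 1 := by
  have h1 : Odd r := by
    rw [Int.odd_iff]
    omega
  have h2 : Odd (FF r s) := by
    unfold FF
    refine Odd.add_even ?_ ?_
    · refine Odd.pow (Odd.sub_even (Odd.pow h1) ?_)
      exact ⟨13 * s ^ 3, by ring⟩
    · exact ⟨54 * s ^ 6, by ring⟩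
  exact Int.odd_iff.mp h2

end IRK

theorem pr_RK (hDB : S_DB) (hTT : S_TT) (hIN : S_IN) (hPT : S_PT) (hNR : S_NR) (hNC : S_NC) :
    S_RK := by
  intro r s hr hs
  have hs0 : s ≠ 0 := by
    rintro rfl
    norm_num at hs
  have hrs : r ≠ 3 * s := by omega
  obtain ⟨P, Q, hP, hQ, hPQ⟩ := hPT r s hs0 hrs
  have h7 := hNR r s (by omega) (by omega)
  refine ⟨P, Q, hIN _ P Q ?_ ?_ ?_ ?_⟩
  · exact hTT _ (fun z => hNC (FF r s) (IRK.odd_FF r s hr) z)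
  · intro R h
    obtain ⟨z, hz⟩ := hDB _ P R _ hP h
    exact (h7 z).1 hz
  · intro R h
    obtain ⟨z, hz⟩ := hDB _ Q R _ hQ h
    exact (h7 z).2.1 hz
  · intro R h
    obtain ⟨z, hz⟩ := hDB _ (P + Q) R _ hPQ h
    exact (h7 z).2.2 hz

end Pool.Agent.Work.MP_bd3ec3_nt.LB
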