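import Pool.Agent.Work.MP_bd3ec3_nt.LB.Stmts

set_option autoImplicit false

namespace Pool.Agent.Work.MP_bd3ec3_nt.LB

namespace IWA

lemma form (r s : ℤ) (hr : r % 42 = 1) (hs : s % 42 = 24) : ∃ m : ℤ, FF r s = 1 + 36 * m := by
  obtain ⟨a, ha⟩ : ∃ a, r = 1 + 6 * a := ⟨(r - 1) / 6, by omega⟩
  obtain ⟨b, hb⟩ : ∃ b, s = 6 * b := ⟨s / 6, by omega⟩
  subst ha; subst hb
  refine ⟨(a + 6 * a ^ 2 + 12 * a ^ 3 - 26 * 12 * b ^ 3) +
    9 * (a + 6 * a ^ 2 + 12 * a ^ 3 - 26 * 12 * b ^ 3) ^ 2 + 3 * (6 * b) ^ 6, ?_⟩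
  unfold FF
  ring

lemma v2 (m : ℤ) : padicValInt 2 (16 * (1 + 36 * m)) = 4 := by
  have h1 : (1 + 36 * m : ℤ) ≠ 0 := by omega
  have h2 : padicValInt 2 (1 + 36 * m) = 0 := by
    apply padicValInt.eq_zero_of_not_dvd
    intro h
    have : (2 : ℤ) ∣ 1 + 36 * m := by exact_mod_cast h
    omega
  have h3 : padicValInt 2 16 = 4 := by
    have : (16 : ℤ) = ((2 ^ 4 : ℕ) : ℤ) := by norm_num
    rw [this, padicValInt.of_nat, padicValNat.prime_pow]
  have : Fact (Nat.Prime 2) := ⟨Nat.prime_two⟩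
  rw [padicValInt.mul (by norm_num) h1, h2, h3]

lemma v3 (m : ℤ) : padicValInt 3 (16 * (1 + 36 * m)) = 0 := by
  apply padicValInt.eq_zero_of_not_dvd
  intro h
  have : (3 : ℤ) ∣ 16 * (1 + 36 * m) := by exact_mod_cast h
  omega

end IWA

theorem pr_WA : S_WA := by
  intro r s hr hs
  obtain ⟨m, hm⟩ := IWA.form r s hr hs
  rw [hm]
  constructor
  · unfold w2
    rw [IWA.v2]
    rw [if_neg]
    rintro (h | h | h)
    · omega
    · omega
    · have : (16 * (1 + 36 * m)) / 2 ^ 4 = 1 + 36 * m := by norm_num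
      rw [this] at h
      omega
  · unfold w3
    rw [IWA.v3]
    rw [if_pos]
    right; right; left
    refine ⟨by norm_num, Or.inr ?_⟩
    rw [pow_zero, Int.ediv_one]
    omega

end Pool.Agent.Work.MP_bd3ec3_nt.LB
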