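import Mathlib

/-!
# MP_bd3ec3_nt, block LB (captain helper81): a lower bound for the number of curves with root number
# `+1` and rank at least two

THEOREM. For every `ε > 0` there are `c > 0`, `H₀` such that for `H ≥ H₀` at least `c H^(1/6 - ε)` sixth
power free `k` with `27 k² ≤ H` satisfy `w(E_k) = +1` and `rk E_k(ℚ) ≥ 2`, `E_k : y² = x³ + k`.
The point: if all prime factors `≥ 5` of `k` are `1` modulo `3`, the root number of `E_k` is a congruence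
condition. `k = 16 F(r, s)`, `F = (r³ - 26 s³)² + 108 s⁶`, has the points with `x = -12 s²`, `-4 r s`.
Item `X`: statement `S_X`, file `LB/I_X.lean`, theorem `pr_X : S_X`, other statements of this file may be
taken as hypotheses. Mathlib only. `r = 1 + 42 i`, `s = 24 + 42 j` throughout.
-/

set_option autoImplicit false

open scoped BigOperators

namespace Pool.Agent.Work.MP_bd3ec3_nt.LB

/-- The curve `E_k : y² = x³ + k` over `ℚ`. -/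
def Ek (k : ℤ) : WeierstrassCurve.Affine ℚ := { a₁ := 0, a₂ := 0, a₃ := 0, a₄ := 0, a₆ := (k : ℚ) }

/-- The rank of `E_k(ℚ)` is at least two: there are two linearly independent points. -/
def Rk2 (k : ℤ) : Prop := ∃ P Q : (Ek k).Point, ∀ m n : ℤ, m • P + n • Q = 0 → m = 0 ∧ n = 0

/-- The local root number of `E_k` at `2` (Liverance, Várilly-Alvarado), `k ≠ 0` sixth power free. -/
def w2 (k : ℤ) : ℤ :=
  if padicValInt 2 k % 6 = 0 ∨ padicValInt 2 k % 6 = 2 ∨ k / 2 ^ padicValInt 2 k % 4 = 3 then -1 else 1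

/-- The local root number of `E_k` at `3` (Várilly-Alvarado). -/
def w3 (k : ℤ) : ℤ :=
  if ((padicValInt 3 k % 6 = 1 ∨ padicValInt 3 k % 6 = 2) ∧ k / 3 ^ padicValInt 3 k % 3 = 1) ∨
    ((padicValInt 3 k % 6 = 4 ∨ padicValInt 3 k % 6 = 5) ∧ k / 3 ^ padicValInt 3 k % 3 = 2) ∨
    (padicValInt 3 k % 6 = 0 ∧ (k / 3 ^ padicValInt 3 k % 9 = 5 ∨ k / 3 ^ padicValInt 3 k % 9 = 7)) ∨
    (padicValInt 3 k % 6 = 3 ∧ (k / 3 ^ padicValInt 3 k % 9 = 2 ∨ k / 3 ^ padicValInt 3 k % 9 = 4))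
  then -1 else 1

/-- The local root number of `E_k` at a prime `p ≥ 5` (Rohrlich): `(-1/p)` if `v_p(k)` is odd, `(-3/p)` if it is
`2` or `4` modulo `6`, and `1` if it is `0` modulo `6`. -/
def wp (p : ℕ) (k : ℤ) : ℤ :=
  if padicValInt p k % 2 = 1 then jacobiSym (-1) p
  else if padicValInt p k % 6 = 0 then 1 else jacobiSym (-3) p

/-- The root number of `E_k`: minus (the factor at infinity) the product of the local root numbers (those at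
the primes `p ≥ 5` not dividing `k` are `1`). -/
def rootNumber (k : ℤ) : ℤ :=
  -(w2 k * w3 k * ∏ p ∈ k.natAbs.primeFactors.filter (fun p => 5 ≤ p), wp p k)

/-- The sixth power free `k` with `ht(E_k) = 27 k² ≤ H`, root number `+1` and rank at least two. -/
def Good (H : ℝ) : Set ℤ :=
  {k | k ≠ 0 ∧ (∀ p : ℕ, p.Prime → ¬ (p : ℤ) ^ 6 ∣ k) ∧ 27 * (k : ℝ) ^ 2 ≤ H ∧ rootNumber k = 1 ∧ Rk2 k}

/-- `F(r, s) = (r³ - 26 s³)² + 108 s⁶`. -/
def FF (r s : ℤ) : ℤ := (r ^ 3 - 26 * s ^ 3) ^ 2 + 108 * s ^ 6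

/-- `x` is the first coordinate of the point `P`. -/
def IsX (k : ℤ) (P : (Ek k).Point) (x : ℚ) : Prop :=
  match P with
  | .zero => False
  | @WeierstrassCurve.Affine.Point.some _ _ _ x' _ _ => x' = x

/-! ## Rank -/

/-- [DB] (MEDIUM) halving. `P = R + R`, `R = (z, y)` (not zero, since `P` is not). If `y = 0` then
`R + R = 0` (`R = -R`: `WeierstrassCurve.Affine.Point.add_of_Y_eq`), impossible. Otherwise the slope is
`3 z² / (2 y)` (`add_self_of_Y_ne`, `slope_of_Y_ne`), `x = (3 z² / (2 y))² - 2 z`, `y² = z³ + k`; multiply by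
`4 y²`: `z⁴ - 8 k z = 4 x (z³ + k)`. -/
def S_DB : Prop := ∀ (k : ℤ) (P R : (Ek k).Point) (x : ℚ), IsX k P x → P = R + R →
  ∃ z : ℚ, z ^ 4 - 4 * x * z ^ 3 - 8 * k * z - 4 * k * x = 0

/-- [TT] (EASY-MEDIUM) no point of order two. `R = (z, y)` with `R = -R` gives `y = -y`, `y = 0`,
`z³ = -k`, so `(-z)³ = k`. -/
def S_TT : Prop := ∀ k : ℤ, (∀ z : ℚ, z ^ 3 ≠ k) → ∀ R : (Ek k).Point, R + R = 0 → R = 0

/-- [IN] (EASY-MEDIUM) independence. Induction on `|m| + |n|`. If `m`, `n` are even then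
`R = (m/2) P + (n/2) Q` has `R + R = 0`, so `R = 0` and the induction hypothesis applies (unless
`m = n = 0`). If `m` is odd and `n` even: `P = R + R` with `R = -((m-1)/2) P - (n/2) Q`; the other two cases
are similar (`m`, `n` odd: `P + Q = R + R`). -/
def S_IN : Prop := ∀ (A : Type) [AddCommGroup A] (P Q : A), (∀ R : A, R + R = 0 → R = 0) →
  (∀ R : A, P ≠ R + R) → (∀ R : A, Q ≠ R + R) → (∀ R : A, P + Q ≠ R + R) →
  ∀ m n : ℤ, m • P + n • Q = 0 → m = 0 ∧ n = 0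

/-- [PT] (MEDIUM) the points. `k = 16 F`. `P = (-12 s², 4 (r³ - 26 s³))`, `Q = (-4 r s, 4 (28 s³ - r³))`
(`ring`: `16 F - 1728 s⁶ = 16 (r³ - 26 s³)²`, `16 F - 64 r³ s³ = 16 (28 s³ - r³)²`); nonsingular since
`k ≠ 0` (`y ≠ 0` or `x ≠ 0`). `x_P ≠ x_Q` (`s ≠ 0`, `r ≠ 3 s`), slope `(8 r³ - 216 s³)/(4 r s - 12 s²) =
2 (r² + 3 r s + 9 s²)/s` (up to the order of the points), `x = slope² - x_P - x_Q`
(`WeierstrassCurve.Affine.Point.add_of_X_ne`, `slope_of_X_ne`, `addX`). -/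
def S_PT : Prop := ∀ r s : ℤ, s ≠ 0 → r ≠ 3 * s → ∃ P Q : (Ek (16 * FF r s)).Point,
  IsX (16 * FF r s) P (-12 * s ^ 2) ∧ IsX (16 * FF r s) Q (-4 * r * s) ∧
  IsX (16 * FF r s) (P + Q)
    ((4 * (r ^ 2 + 3 * r * s + 9 * s ^ 2) ^ 2 + 12 * s ^ 4 + 4 * r * s ^ 3) / s ^ 2)

/-- [QR] (EASY-MEDIUM) reduction modulo `7`. `z = u/v` in lowest terms: `b u⁴ - 4 a u³ v - 8 b k u v³ -
4 k a v⁴ = 0` in `ℤ`. If `7 ∣ v` then `7 ∣ b u⁴`, `7 ∣ u`, a contradiction. So `u/v` makes sense in `ZMod 7`. -/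
def S_QR : Prop := ∀ (k a b : ℤ) (z : ℚ), ((b : ℤ) : ZMod 7) ≠ 0 →
  z ^ 4 - 4 * ((a : ℚ) / b) * z ^ 3 - 8 * k * z - 4 * k * ((a : ℚ) / b) = 0 →
  ∃ u : ZMod 7, (b : ZMod 7) * u ^ 4 - 4 * a * u ^ 3 - 8 * b * k * u - 4 * k * a = 0

/-- [NR] (EASY, use `S_QR`) no halves: `r = 1`, `s = 3` in `ZMod 7`, so `k = 16 F = 1`. The three points have
`a/b = -12 s²/1`, `-4 r s/1`, and the third one with `b = s²`. In `ZMod 7` the three quartics in `u` have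
no root (`decide` after replacing all classes by numbers). -/
def S_NR : Prop := ∀ r s : ℤ, r % 7 = 1 → s % 7 = 3 → ∀ z : ℚ,
  (z ^ 4 - 4 * (-12 * (s : ℚ) ^ 2) * z ^ 3 - 8 * (16 * FF r s : ℤ) * z -
    4 * (16 * FF r s : ℤ) * (-12 * (s : ℚ) ^ 2) ≠ 0) ∧
  (z ^ 4 - 4 * (-4 * (r : ℚ) * s) * z ^ 3 - 8 * (16 * FF r s : ℤ) * z -
    4 * (16 * FF r s : ℤ) * (-4 * (r : ℚ) * s) ≠ 0) ∧
  (z ^ 4 - 4 * ((4 * ((r : ℚ) ^ 2 + 3 * r * s + 9 * s ^ 2) ^ 2 + 12 * s ^ 4 + 4 * r * s ^ 3) / s ^ 2) * z ^ 3 -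
    8 * (16 * FF r s : ℤ) * z - 4 * (16 * FF r s : ℤ) *
      ((4 * ((r : ℚ) ^ 2 + 3 * r * s + 9 * s ^ 2) ^ 2 + 12 * s ^ 4 + 4 * r * s ^ 3) / s ^ 2) ≠ 0)

/-- [NC] (EASY) `16 F`, `F` odd, is not the cube of a rational number (a rational `z` with `z³` an integer is
an integer; the `2`-adic valuation of `16 F` is `4`). -/
def S_NC : Prop := ∀ F : ℤ, F % 2 = 1 → ∀ z : ℚ, z ^ 3 ≠ ((16 * F : ℤ) : ℚ)

/-- [RK] (EASY, use `S_DB`, `S_TT`, `S_IN`, `S_PT`, `S_NR`, `S_NC`) the rank is at least two. `s ≠ 0`, `r ≠ 3 s`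
modulo `7` (`3 s = 9 = 2`). `FF r s` is odd because `r` is odd and `s` is even. -/
def S_RK : Prop := ∀ r s : ℤ, r % 42 = 1 → s % 42 = 24 → Rk2 (16 * FF r s)

/-! ## Root number -/

/-- [PR] (EASY-MEDIUM) the primes. `F` is odd (`r` odd, `s` even), `F = 1` modulo `9`, `F = 4` modulo `7`. If
`p ∣ F` and `p ∣ s` then `p ∣ r`, impossible. So `-3` is a square modulo `p` (`((r³ - 26 s³)/(6 s³))²`), hence
`p % 3 = 1` (for instance: an element `ω ≠ 1` with `ω³ = 1` of the group of order `p - 1`, or quadratic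
reciprocity `ZMod.exists_sq_eq_neg_three_iff`-like, or `legendreSym`), and `p` is not `7`: `p ≥ 13`. -/
def S_PR : Prop := ∀ r s : ℤ, r % 42 = 1 → s % 42 = 24 → IsCoprime r s → ∀ p : ℕ, p.Prime →
  (p : ℤ) ∣ FF r s → p % 3 = 1 ∧ 13 ≤ p

/-- [WA] (EASY) `v_2(16 F) = 4`, `F = 1` modulo `8`; `3` does not divide `16 F`, `16 F = 7` modulo `9`. -/
def S_WA : Prop := ∀ r s : ℤ, r % 42 = 1 → s % 42 = 24 → w2 (16 * FF r s) = 1 ∧ w3 (16 * FF r s) = -1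

/-- [WB] (MEDIUM) the primes `≥ 5`. They are the prime factors of `F` (all of them are `1` modulo `3`), with
`v_p(16 F) = v_p(F)`. `(-3/p) = 1` for `p % 3 = 1`. So the product is the product of `(-1/p)` over the `p`
with odd `v_p(F)`, that is `∏ (-1/p)^(v_p(F)) = (-1/F) = 1` because `F % 4 = 1` (`jacobiSym.at_neg_one`,
`ZMod.χ₄`; multiplicativity of `jacobiSym` in the second argument, `Nat.factorization_prod_pow_eq_self`). -/
def S_WB : Prop := ∀ F : ℕ, 0 < F → F % 4 = 1 → (∀ p : ℕ, p.Prime → p ∣ F → p % 3 = 1) →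
  ∏ p ∈ (16 * (F : ℤ)).natAbs.primeFactors.filter (fun p => 5 ≤ p), wp p (16 * (F : ℤ)) = 1

/-- [WW] (EASY, use `S_PR`, `S_WA`, `S_WB`) `F > 0`. -/
def S_WW : Prop := ∀ r s : ℤ, r % 42 = 1 → s % 42 = 24 → IsCoprime r s → rootNumber (16 * FF r s) = 1

/-! ## Multiplicities -/

/-- [RP] (MEDIUM) representations and roots. For a representation `n` is a unit modulo `N` (a prime
dividing `N` and `n` divides `m`); map it to `z = m/n` in `ZMod N`, `z² = -3`. If `(m, n)`, `(m', n')` have the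
same image then `N ∣ m n' - m' n` and `N ∣ m m' + 3 n n'` (as `m m' = z² n n' = -3 n n'`), and
`(m m' + 3 n n')² + 3 (m n' - m' n)² = N²`, so `α² + 3 β² = 1` for the quotients, `β = 0`, `m n' = m' n`, and by
coprimality `(m', n') = ± (m, n)`. So every fibre has at most two elements. -/
def S_RP : Prop := ∀ N : ℕ, 0 < N →
  {q : ℤ × ℤ | IsCoprime q.1 q.2 ∧ q.1 ^ 2 + 3 * q.2 ^ 2 = N}.ncard ≤
    2 * {z : ZMod N | z ^ 2 = -3}.ncard

/-- [RT] (MEDIUM) at most `d(N)` roots for `N` prime to `6`. `N = p^e`: two roots `z`, `z'` have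
`(z - z')(z + z') = 0` modulo `p^e`, and `p` divides at most one factor (otherwise `p ∣ 2 z`, `p ∣ 3`), so
`z' = ± z`: at most `2 ≤ e + 1` roots (`e ≥ 1`). `N = 1`: one root. Coprime products: Chinese remainder theorem
(`ZMod.chineseRemainder`), `Nat.Coprime.card_divisors_mul`; induction `Nat.recOnPosPrimePosCoprime`. -/
def S_RT : Prop := ∀ N : ℕ, 0 < N → N.Coprime 6 → {z : ZMod N | z ^ 2 = -3}.ncard ≤ N.divisors.card

/-- [DV] (COPY) the divisor bound: `Pool/Agent/Work/MP_e0aece_nt/DivisorBound.lean` (import it, or copy it). -/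
def S_DV : Prop := ∀ ε : ℝ, 0 < ε → ∃ C : ℝ, 0 < C ∧ ∀ n : ℕ, 1 ≤ n → (n.divisors.card : ℝ) ≤ C * (n : ℝ) ^ ε

/-- [FB] (EASY-MEDIUM, use `S_RP`, `S_RT`, `S_DV`) few pairs with the same `F = N`. The map `(r, s) ↦
(r³ - 26 s³, 6 s³)` is injective; the image is a coprime pair: a common prime `p ≥ 5` divides `s` and `r`;
`r³ - 26 s³` is odd and not divisible by `3` (`3 ∣ s`, `r = 1` modulo `3`). `N` is prime to `6`. -/
def S_FB : Prop := ∀ ε : ℝ, 0 < ε → ∃ C : ℝ, 0 < C ∧ ∀ N : ℕ, 1 ≤ N →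
  (Set.ncard {q : ℤ × ℤ | q.1 % 42 = 1 ∧ q.2 % 42 = 24 ∧ IsCoprime q.1 q.2 ∧ FF q.1 q.2 = (N : ℤ)} : ℝ) ≤
    C * (N : ℝ) ^ ε

/-! ## Sieve -/

/-- The pairs `(i, j)`, `i, j < Y`, for which `(r, s) = (1 + 42 i, 24 + 42 j)` has the property `P`. -/
def Pairs (Y : ℕ) (P : ℤ → ℤ → Prop) : Set (ℕ × ℕ) :=
  {q | q.1 < Y ∧ q.2 < Y ∧ P (1 + 42 * q.1) (24 + 42 * q.2)}

/-- [GC] (MEDIUM) coprimality. A common prime `p` of `r = 1 + 42 i`, `s = 24 + 42 j` does not divide `42`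
(`r = 1` modulo `42`), so `5 ≤ p ≤ 42 Y`; the number of `i < Y` with `p ∣ 1 + 42 i` is at most `Y/p + 1`, the
same for `j`. So the number is at most `∑_(5 ≤ d ≤ 42 Y) (Y/d + 1)² ≤ Y²/4 + 2 Y (1 + log(42 Y)) + 42 Y` (as
`∑_(d ≥ 5) 1/d² ≤ ∑ (1/(d-1) - 1/d) = 1/4`), which is `≤ Y²/3` for large `Y`. (Any bound `o(Y²)` for the last
terms will do, e.g. `∑_(d ≤ D) 1/d ≤ 2 √D`.) -/
def S_GC : Prop := ∃ Y₀ : ℕ, ∀ Y : ℕ, Y₀ ≤ Y → 3 * (Pairs Y (fun r s => ¬ IsCoprime r s)).ncard ≤ Y ^ 2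

/-- [HL] (MEDIUM) roots modulo `p⁶`. `g(x) = x⁶ - 52 x³ + 784`, `F(r, s) = s⁶ g(r/s)`. `p ≥ 11` prime. Modulo `p`
a root `x` of `g` has `g'(x) = 6 x² (x³ - 26) ≠ 0` (`x ≠ 0` as `784 = 28²`, and `x³ = 26` would give
`g = 108 ≠ 0`). If `x = x'` modulo `p` are roots modulo `p⁶` then `g(x) - g(x') = (x - x') h(x, x')` with
`h(x, x') = g'(x)` modulo `p`, a unit; so `x = x'` modulo `p⁶`. So there are at most `6` roots modulo `p⁶`
(at most `6` modulo `p`: degree). -/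
def S_HL : Prop := ∀ p : ℕ, p.Prime → 11 ≤ p →
  {x : ZMod (p ^ 6) | x ^ 6 - 52 * x ^ 3 + 784 = 0}.ncard ≤ 6

/-- [GS] (EASY-MEDIUM, use `S_HL`) one prime, small. For fixed `j` with `p` not dividing `s`: `r/s` is one of the
roots `x` of `S_HL`, so `r = x s` modulo `p⁶` and `i` lies in one class modulo `p⁶` (`42` is invertible): at most
`Y/p⁶ + 1` values of `i` for each root. `p ∣ s` and `p⁶ ∣ F` give `p ∣ r`, impossible. -/
def S_GS : Prop := ∀ (p Y : ℕ), p.Prime → 11 ≤ p →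
  (Pairs Y (fun r s => IsCoprime r s ∧ (p : ℤ) ^ 6 ∣ FF r s)).ncard ≤ 6 * Y * (Y / p ^ 6 + 1)

/-- [GL] (EASY-MEDIUM, use `S_HL`) one prime, large: `p⁶ > (42 Y + 24)²`. Two pairs with the same root `x = r/s`
modulo `p⁶` have `p⁶ ∣ r s' - r' s`, and `|r s' - r' s| < (42 Y + 24)² < p⁶` (all are positive and at most
`42 Y + 24`), so `r s' = r' s`, and by coprimality the pairs are equal. -/
def S_GL : Prop := ∀ (p Y : ℕ), p.Prime → 11 ≤ p → (42 * Y + 24) ^ 2 < p ^ 6 →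
  (Pairs Y (fun r s => IsCoprime r s ∧ (p : ℤ) ^ 6 ∣ FF r s)).ncard ≤ 6

/-- [GX] (EASY-MEDIUM, use `S_PR`, `S_GS`, `S_GL`) sixth powers. `X = 42 Y + 24`. `p⁶ ∣ F` with `F > 0`,
`F ≤ 4096 X⁶` (`(r³ + 26 s³)² + 108 s⁶ ≤ 837 X⁶`), so `p ≤ 4 X`; and `p ≥ 13` by `S_PR`. Primes with `p⁶ ≤ X²`
(so `p³ ≤ X`): the sum of `6 Y (Y/p⁶ + 1)` over them is at most `6 Y² ∑_(d ≥ 13) 1/d⁶ + 6 Y X^(1/3)`, and
`∑_(d ≥ 13) 1/d⁶ ≤ 12^(-5)` (as `1/d⁶ ≤ 12^(-4) (1/(d-1) - 1/d)`). The others: at most `6 (4 X + 1)`.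
Together `≤ Y²/12` for large `Y`. -/
def S_GX : Prop := ∃ Y₀ : ℕ, ∀ Y : ℕ, Y₀ ≤ Y →
  6 * (Pairs Y (fun r s => IsCoprime r s ∧ ∃ p : ℕ, p.Prime ∧ (p : ℤ) ^ 6 ∣ 16 * FF r s)).ncard ≤ Y ^ 2

/-! ## End -/

/-- [FN] (MEDIUM, use `S_RK`, `S_WW`, `S_FB`, `S_GC`, `S_GX`) the theorem. `Y = ⌊H^(1/12)/500⌋`: for `i, j < Y`,
`r, s ≤ 66 Y`, `F ≤ 837 (66 Y)⁶`, `27 (16 F)² ≤ H`. At least `Y² - Y²/3 - Y²/6 = Y²/2` pairs are coprime with
`16 F` sixth power free (note that `p⁶ ∣ 16 F` for `p = 2` is impossible, it is included in `S_GX`). The map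
`(i, j) ↦ 16 F ∈ Good H` has fibres with at most `C H^(ε)` elements (`S_FB` with `ε`; `F ≤ H`), and `Good H` is
finite. So `(Good H).ncard ≥ Y²/(2 C H^ε) ≥ c H^(1/6 - ε)`. -/
def S_FN : Prop := ∀ ε : ℝ, 0 < ε → ∃ c : ℝ, 0 < c ∧ ∃ H₀ : ℝ, ∀ H : ℝ, H₀ ≤ H →
  c * H ^ ((1 : ℝ) / 6 - ε) ≤ ((Good H).ncard : ℝ)

end Pool.Agent.Work.MP_bd3ec3_nt.LB
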