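import Mathlib
import Pool.Agent.Work.MP_bd3ec3_nt.LB.Stmts

/-!
# MP_bd3ec3_nt, block LB, item WW: the root number of the curves of the family
-/

set_option autoImplicit false

open scoped BigOperators

namespace Pool.Agent.Work.MP_bd3ec3_nt.LB

namespace IWW

theorem FF_pos {r s : ℤ} (hs : s ≠ 0) : 0 < FF r s := by
  have h1 : 0 < s ^ 6 := by positivity
  have h2 : 0 ≤ (r ^ 3 - 26 * s ^ 3) ^ 2 := sq_nonneg _
  unfold FF
  linarith

theorem FF_mod_four {r s : ℤ} (hr : r % 42 = 1) (hs : s % 42 = 24) : FF r s % 4 = 1 := by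
  obtain ⟨a, ha⟩ : ∃ a : ℤ, r = 2 * a + 1 := ⟨r / 2, by omega⟩
  obtain ⟨b, hb⟩ : ∃ b : ℤ, s = 2 * b := ⟨s / 2, by omega⟩
  have h : FF r s = 4 * ((4 * a ^ 3 + 6 * a ^ 2 + 3 * a - 104 * b ^ 3) *
      (4 * a ^ 3 + 6 * a ^ 2 + 3 * a - 104 * b ^ 3 + 1) + 27 * s ^ 6) + 1 := by
    unfold FF
    rw [ha, hb]
    ring
  omega

end IWW

theorem pr_WW (hPR : S_PR) (hWA : S_WA) (hWB : S_WB) : S_WW := by
  intro r s hr hs hc
  have hs0 : s ≠ 0 := by
    intro h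
    rw [h] at hs
    norm_num at hs
  have hpos : 0 < FF r s := IWW.FF_pos hs0
  have h4 : FF r s % 4 = 1 := IWW.FF_mod_four hr hs
  obtain ⟨F, hF⟩ : ∃ F : ℕ, (F : ℤ) = FF r s := ⟨(FF r s).toNat, Int.toNat_of_nonneg hpos.le⟩
  obtain ⟨h2, h3⟩ := hWA r s hr hs
  have hFpos : 0 < F := by omega
  have hF4 : F % 4 = 1 := by omega
  have hB := hWB F hFpos hF4 (fun p hp hpF => by
    have hd : (p : ℤ) ∣ FF r s := by
      rw [← hF]
      exact_mod_cast hpF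
    exact (hPR r s hr hs hc p hp hd).1)
  rw [hF] at hB
  unfold rootNumber
  rw [h2, h3, hB]
  norm_num

end Pool.Agent.Work.MP_bd3ec3_nt.LB
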