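import Pool.Agent.Work.MP_bd3ec3_nt.LB.Stmts

/-!
# MP_bd3ec3_nt, block LB, part U: the exponent 3/16

The same as `LB/Stmts.lean` for the larger family `k = 4 G(t, v)`, `G = m² + 432 v⁶`,
`m = 4 t² - 12 t v² + 36 v⁴ - t - 3 v²`, `t = 17 + 42 i`, `v = 6 + 42 j`, `i < Y²`, `j < Y`.
Item `X`: statement `S_X`, file `LB/I_X.lean`, theorem `pr_X : S_X`; the items of `LB/Stmts.lean` have the same
form for the other family and can be copied.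
-/

set_option autoImplicit false

open scoped BigOperators

namespace Pool.Agent.Work.MP_bd3ec3_nt.LB

/-- `m(t, v) = 4 t² - 12 t v² + 36 v⁴ - t - 3 v²`. -/
def mm (t v : ℤ) : ℤ := 4 * t ^ 2 - 12 * t * v ^ 2 + 36 * v ^ 4 - t - 3 * v ^ 2

/-- `G(t, v) = m(t, v)² + 432 v⁶`. -/
def GG (t v : ℤ) : ℤ := mm t v ^ 2 + 432 * v ^ 6

/-- The pairs `(i, j)`, `i < Y²`, `j < Y`, for which `(t, v) = (17 + 42 i, 6 + 42 j)` has the property `P`. -/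
def Pairs2 (Y : ℕ) (P : ℤ → ℤ → Prop) : Set (ℕ × ℕ) :=
  {q | q.1 < Y ^ 2 ∧ q.2 < Y ∧ P (17 + 42 * q.1) (6 + 42 * q.2)}

/-- [PT2] (EASY-MEDIUM, as `I_PT`) the points. `k = 4 G`. `P = (-12 v², 2 m)`, `Q = (4 t, 2 m + 4 t + 12 v²)`
(`ring`: `4 m² = (-12 v²)³ + 4 G`, `(2 m + 4 t + 12 v²)² = 64 t³ + 4 G`), slope `1`, so
`x_(P+Q) = 1 + 12 v² - 4 t`. -/
def S_PT2 : Prop := ∀ t v : ℤ, v ≠ 0 → t + 3 * v ^ 2 ≠ 0 → ∃ P Q : (Ek (4 * GG t v)).Point,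
  IsX (4 * GG t v) P (-12 * v ^ 2) ∧ IsX (4 * GG t v) Q (4 * t) ∧
  IsX (4 * GG t v) (P + Q) (1 + 12 * v ^ 2 - 4 * t)

/-- [NR2] (EASY, use `S_QR` with `b = 1`, as `I_NR`) no halves: `t = 3`, `v = 6` in `ZMod 7`, `k = 1`. The three
quartics have no root modulo `7`. -/
def S_NR2 : Prop := ∀ t v : ℤ, t % 7 = 3 → v % 7 = 6 → ∀ z : ℚ,
  (z ^ 4 - 4 * (-12 * (v : ℚ) ^ 2) * z ^ 3 - 8 * (4 * GG t v : ℤ) * z -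
    4 * (4 * GG t v : ℤ) * (-12 * (v : ℚ) ^ 2) ≠ 0) ∧
  (z ^ 4 - 4 * (4 * (t : ℚ)) * z ^ 3 - 8 * (4 * GG t v : ℤ) * z -
    4 * (4 * GG t v : ℤ) * (4 * (t : ℚ)) ≠ 0) ∧
  (z ^ 4 - 4 * (1 + 12 * (v : ℚ) ^ 2 - 4 * t) * z ^ 3 - 8 * (4 * GG t v : ℤ) * z -
    4 * (4 * GG t v : ℤ) * (1 + 12 * (v : ℚ) ^ 2 - 4 * t) ≠ 0)

/-- [NC2] (EASY, as `I_NC`) `4 F`, `F` odd, is not the cube of a rational number. -/
def S_NC2 : Prop := ∀ F : ℤ, F % 2 = 1 → ∀ z : ℚ, z ^ 3 ≠ ((4 * F : ℤ) : ℚ)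

/-- [RK2] (EASY, as `I_RK`) the rank is at least two. `v ≠ 0`, `t + 3 v²` is odd; `G` is odd. -/
def S_RK2 : Prop := ∀ t v : ℤ, t % 42 = 17 → v % 42 = 6 → Rk2 (4 * GG t v)

/-- [PR2] (EASY-MEDIUM, as `I_PR`) the primes. `m` is odd (`t` odd, `v` even), `m = 5` modulo `9`, `G = 7`
modulo `9`, `G = 2` modulo `7`. If `p ∣ G` and `p ∣ v` then `p ∣ m`, impossible. So `-3` is a square modulo `p`
(`(m/(12 v³))²`), `p % 3 = 1`, and `p ≠ 7`. -/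
def S_PR2 : Prop := ∀ t v : ℤ, t % 42 = 17 → v % 42 = 6 → IsCoprime (mm t v) v → ∀ p : ℕ, p.Prime →
  (p : ℤ) ∣ GG t v → p % 3 = 1 ∧ 13 ≤ p

/-- [WA2] (EASY, as `I_WA`) `v_2(4 G) = 2` (`G` odd); `3` does not divide `4 G`, `4 G = 1` modulo `9`. -/
def S_WA2 : Prop := ∀ t v : ℤ, t % 42 = 17 → v % 42 = 6 → w2 (4 * GG t v) = -1 ∧ w3 (4 * GG t v) = 1

/-- [WB2] (EASY with the file `I_WB.lean` as a model: `16` is replaced by `4`). -/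
def S_WB2 : Prop := ∀ F : ℕ, 0 < F → F % 4 = 1 → (∀ p : ℕ, p.Prime → p ∣ F → p % 3 = 1) →
  ∏ p ∈ (4 * (F : ℤ)).natAbs.primeFactors.filter (fun p => 5 ≤ p), wp p (4 * (F : ℤ)) = 1

/-- [WW2] (EASY, use `S_PR2`, `S_WA2`, `S_WB2`, as `I_WW`) `G > 0`, `G = 1` modulo `8`. -/
def S_WW2 : Prop := ∀ t v : ℤ, t % 42 = 17 → v % 42 = 6 → IsCoprime (mm t v) v →
  rootNumber (4 * GG t v) = 1

/-- [FB2] (EASY-MEDIUM, use `S_RP`, `S_RT`, `S_DV`, as `I_FB`) few pairs with the same `G = N`. The map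
`(t, v) ↦ (m, 12 v³)` has `m² + 3 (12 v³)² = N` and is at most two to one (`v` is determined, and `t` is a root of
`4 t² - (12 v² + 1) t + 36 v⁴ - 3 v² - m = 0`); the image is a coprime pair: `m` is odd, not divisible by `3`
(`m = 5` modulo `9`) and prime to `v`. `N` is prime to `6`. So at most `4 d(N)`. -/
def S_FB2 : Prop := ∀ ε : ℝ, 0 < ε → ∃ C : ℝ, 0 < C ∧ ∀ N : ℕ, 1 ≤ N →
  (Set.ncard {q : ℤ × ℤ | q.1 % 42 = 17 ∧ q.2 % 42 = 6 ∧ IsCoprime (mm q.1 q.2) q.2 ∧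
    GG q.1 q.2 = (N : ℤ)} : ℝ) ≤ C * (N : ℝ) ^ ε

/-- [GC2] (MEDIUM, as `I_GC`) coprimality. A common prime `p` of `m` and `v = 6 + 42 j` divides
`4 t² - t = t (4 t - 1)`; it is not `2`, `3`, `7` (`m` is odd, `m = 5` modulo `9`, `v = 6` modulo `7`), so it is odd,
`5 ≤ p ≤ 42 Y`. The number of `j < Y` is at most `Y/p + 1`, the number of `i < Y²` at most `2 (Y²/p + 1)` (two
classes). Together at most `2 Y³ ∑_(odd d ≥ 5) 1/d² + 4 Y² ∑_(d ≤ 42 Y) 1/d + 84 Y`, and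
`∑_(odd d ≥ 5) 1/d² ≤ ∑_(k ≥ 2) 1/(4 k (k+1)) = 1/8`: at most `Y³/4 + O(Y² log Y) ≤ Y³/3`. -/
def S_GC2 : Prop := ∃ Y₀ : ℕ, ∀ Y : ℕ, Y₀ ≤ Y →
  3 * (Pairs2 Y (fun t v => ¬ IsCoprime (mm t v) v)).ncard ≤ Y ^ 3

/-- [GS2] (MEDIUM) one prime, `v` fixed. If `p⁶` divides `G(t, v)` and `G(t', v)` then `p⁶ ∣ (m - m')(m + m')`, so
`p³ ∣ m - m'` or `p³ ∣ m + m'`. So the solutions lie in two classes according to `m` modulo `p³`. Within a class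
`m - m' = (t - t')(4 (t + t') - 12 v² - 1)` is divisible by `p³`, so `p² ∣ t - t'` or
`p² ∣ 4 (t + t') - 12 v² - 1`. So (with `t'` a fixed member of the class) `t`, and hence `i` (`42` is a unit), lies
in one of two classes modulo `p²`: at most `4 (Z/p² + 1)` values of `i < Z`. -/
def S_GS2 : Prop := ∀ p : ℕ, p.Prime → 13 ≤ p → ∀ (v : ℤ) (Z : ℕ),
  {i : ℕ | i < Z ∧ (p : ℤ) ^ 6 ∣ GG (17 + 42 * i) v}.ncard ≤ 4 * (Z / p ^ 2 + 1)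

/-- [GX2] (MEDIUM, use `S_PR2`, `S_GS2`, as `I_GX`) sixth powers. `t ≤ 42 Y²`, `v ≤ 42 Y` give `|m| ≤ 2 10^8 Y⁴`,
`0 < G ≤ 10^18 Y⁸`. If `p⁶ ∣ 4 G` then `p ≥ 13` by `S_PR2` (so `p⁶ ∣ G`), and `p⁶ ≤ 10^18 Y⁹`, `p² ≤ 10⁶ Y³`. For
each `j` and `p` at most `4 (Y²/p² + 1)` values of `i`. The sum over `j < Y` and odd `d`, `13 ≤ d ≤ 1000 Y^(3/2)`, is
at most `4 Y³ ∑_(k ≥ 6) 1/(4 k (k+1)) + 4000 Y^(5/2) = Y³/6 + 4000 Y^(5/2) ≤ Y³/4` for large `Y`. -/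
def S_GX2 : Prop := ∃ Y₀ : ℕ, ∀ Y : ℕ, Y₀ ≤ Y →
  4 * (Pairs2 Y (fun t v => IsCoprime (mm t v) v ∧
    ∃ p : ℕ, p.Prime ∧ (p : ℤ) ^ 6 ∣ 4 * GG t v)).ncard ≤ Y ^ 3

/-- [FN2] (MEDIUM, use `S_RK2`, `S_WW2`, `S_FB2`, `S_GC2`, `S_GX2`, as `I_FN`) the theorem.
`Y = ⌊H^(1/16)/1000⌋`: for `i < Y²`, `j < Y`, `0 < G ≤ 10^18 Y⁸` and `27 (4 G)² = 432 G² ≤ H`. At least
`Y³ - Y³/3 - Y³/4 = 5 Y³/12` pairs are coprime (`IsCoprime m v`) with `4 G` sixth power free. The map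
`(i, j) ↦ 4 G ∈ Good H` has fibres with at most `C H^ε` elements (`S_FB2`, `G ≤ H`), and `Good H` is finite. So
`(Good H).ncard ≥ 5 Y³/(12 C H^ε) ≥ c H^(3/16 - ε)`. -/
def S_FN2 : Prop := ∀ ε : ℝ, 0 < ε → ∃ c : ℝ, 0 < c ∧ ∃ H₀ : ℝ, ∀ H : ℝ, H₀ ≤ H →
  c * H ^ ((3 : ℝ) / 16 - ε) ≤ ((Good H).ncard : ℝ)

end Pool.Agent.Work.MP_bd3ec3_nt.LB
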